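import Pool.Agent.Helper44.BI.Defs

/-!
# Basic complex analysis facts
-/

namespace Pool.Agent.Helper44.BI

open Metric Set Filter Topology MeasureTheory

lemma norm_sub_le_norm_one_sub {a b : ℂ} (ha : ‖a‖ ≤ 1) (hb : ‖b‖ ≤ 1) :
    ‖a - b‖ ≤ ‖1 - (starRingEnd ℂ) b * a‖ := by
  have h : ‖1 - (starRingEnd ℂ) b * a‖ ^ 2 - ‖a - b‖ ^ 2 = (1 - ‖a‖ ^ 2) * (1 - ‖b‖ ^ 2) := by
    simp only [← Complex.normSq_eq_norm_sq, Complex.normSq_apply]
    simp
    ring
  have h1 : 0 ≤ (1 - ‖a‖ ^ 2) * (1 - ‖b‖ ^ 2) := by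
    apply mul_nonneg
    · nlinarith [norm_nonneg a]
    · nlinarith [norm_nonneg b]
  have h2 : ‖a - b‖ ^ 2 ≤ ‖1 - (starRingEnd ℂ) b * a‖ ^ 2 := by linarith
  exact le_of_sq_le_sq h2 (norm_nonneg _) |> fun h => h

/-- a Schwarz–Pick estimate for functions of modulus at most `lam < 1` -/
lemma schwarz_pick_aux {F : ℂ → ℂ} {c : ℂ} {R lam : ℝ} (hR : 0 < R) (hlam : lam < 1)
    (hF : DifferentiableOn ℂ F (ball c R)) (hb : ∀ z ∈ ball c R, ‖F z‖ ≤ lam) :
    R * ‖deriv F c‖ ≤ 1 - ‖F c‖ ^ 2 := by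
  have hc : c ∈ ball c R := mem_ball_self hR
  have hlam0 : 0 ≤ lam := (norm_nonneg _).trans (hb c hc)
  set b : ℂ := F c with hbdef
  have hbl : ‖b‖ ≤ lam := hb c hc
  have hden : ∀ z ∈ ball c R, 1 - (starRingEnd ℂ) b * F z ≠ 0 := by
    intro z hz h
    have h1 : (starRingEnd ℂ) b * F z = 1 := (sub_eq_zero.mp h).symm
    have h2 : ‖(starRingEnd ℂ) b * F z‖ = 1 := by rw [h1]; simp
    rw [norm_mul, RCLike.norm_conj] at h2
    have h3 : ‖b‖ * ‖F z‖ ≤ lam * lam :=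
      mul_le_mul hbl (hb z hz) (norm_nonneg _) hlam0
    nlinarith
  set G : ℂ → ℂ := fun z => (F z - b) / (1 - (starRingEnd ℂ) b * F z) with hG
  have hGd : DifferentiableOn ℂ G (ball c R) := by
    apply DifferentiableOn.div
    · exact hF.sub_const b
    · exact (differentiableOn_const _).sub (hF.const_mul _)
    · exact hden
  have hGc : G c = 0 := by simp [hG, hbdef]
  have hmaps : MapsTo G (ball c R) (closedBall (G c) 1) := by
    intro z hz
    rw [hGc, mem_closedBall_zero_iff, hG]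
    simp only
    rw [norm_div, div_le_one (norm_pos_iff.mpr (hden z hz))]
    exact norm_sub_le_norm_one_sub ((hb z hz).trans hlam.le) (hbl.trans hlam.le)
  have h1 := Complex.norm_deriv_le_div_of_mapsTo_ball hGd hmaps hR
  have hFd : HasDerivAt F (deriv F c) c :=
    (hF.differentiableAt (isOpen_ball.mem_nhds hc)).hasDerivAt
  have hsq : (1 : ℂ) - (starRingEnd ℂ) b * F c = ((1 - ‖b‖ ^ 2 : ℝ) : ℂ) := by
    rw [← hbdef, ← Complex.normSq_eq_conj_mul_self, Complex.normSq_eq_norm_sq]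
    push_cast
    ring
  have hpos : 0 < 1 - ‖b‖ ^ 2 := by nlinarith [norm_nonneg b]
  have hGderiv : HasDerivAt G (deriv F c / ((1 - ‖b‖ ^ 2 : ℝ) : ℂ)) c := by
    have hnum : HasDerivAt (fun z => F z - b) (deriv F c) c := hFd.sub_const b
    have hd : HasDerivAt (fun z => 1 - (starRingEnd ℂ) b * F z)
        (-((starRingEnd ℂ) b * deriv F c)) c := by
      simpa using (hFd.const_mul ((starRingEnd ℂ) b)).const_sub 1
    have hne : (((1 - ‖b‖ ^ 2 : ℝ)) : ℂ) ≠ 0 := by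
      exact_mod_cast hpos.ne'
    refine (hnum.div hd (hden c hc)).congr_deriv ?_
    rw [hsq, ← hbdef, sub_self]
    field_simp
    ring
  rw [hGderiv.deriv, norm_div, Complex.norm_real, Real.norm_of_nonneg hpos.le] at h1
  rw [div_le_div_iff₀ hpos hR] at h1
  linarith

/-- Schwarz–Pick at the centre of a disc -/
lemma schwarz_pick {F : ℂ → ℂ} {c : ℂ} {R : ℝ} (hR : 0 < R)
    (hF : DifferentiableOn ℂ F (ball c R)) (hb : ∀ z ∈ ball c R, ‖F z‖ ≤ 1) :
    R * ‖deriv F c‖ ≤ 1 - ‖F c‖ ^ 2 := by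
  have hc : c ∈ ball c R := mem_ball_self hR
  have key : ∀ lam ∈ Ioo (0 : ℝ) 1, R * (lam * ‖deriv F c‖) ≤ 1 - (lam * ‖F c‖) ^ 2 := by
    intro lam hl
    have h1 := schwarz_pick_aux (F := fun z => (lam : ℂ) * F z) (c := c) hR hl.2
      (hF.const_mul _) (by
        intro z hz
        rw [norm_mul, Complex.norm_real, Real.norm_of_nonneg hl.1.le]
        nlinarith [hb z hz, hl.1])
    have hFd : HasDerivAt F (deriv F c) c :=
      (hF.differentiableAt (isOpen_ball.mem_nhds hc)).hasDerivAt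
    rw [(hFd.const_mul (lam : ℂ)).deriv] at h1
    simpa [norm_mul, abs_of_pos hl.1] using h1
  have hl : Tendsto (fun lam : ℝ => R * (lam * ‖deriv F c‖)) (𝓝[<] 1)
      (𝓝 (R * (1 * ‖deriv F c‖))) := by
    apply Tendsto.mono_left _ nhdsWithin_le_nhds
    exact (Continuous.tendsto (by fun_prop) 1)
  have hr : Tendsto (fun lam : ℝ => 1 - (lam * ‖F c‖) ^ 2) (𝓝[<] 1)
      (𝓝 (1 - (1 * ‖F c‖) ^ 2)) := by
    apply Tendsto.mono_left _ nhdsWithin_le_nhds
    exact (Continuous.tendsto (by fun_prop) 1)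
  have := le_of_tendsto_of_tendsto hl hr (by
    filter_upwards [Ioo_mem_nhdsLT (show (0 : ℝ) < 1 by norm_num)] with lam hlam
    exact key lam hlam)
  simpa using this

/-- derivative bound for bounded analytic functions on the unit disc -/
lemma deriv_bound {f : ℂ → ℂ} {M : ℝ} (hf : DifferentiableOn ℂ f (ball 0 1))
    (hM : ∀ z : ℂ, ‖z‖ < 1 → ‖f z‖ ≤ M) {z : ℂ} (hz : ‖z‖ < 1) :
    (1 - ‖z‖) * ‖deriv f z‖ ≤ 2 * M := by
  have hR : 0 < 1 - ‖z‖ := by linarith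
  have hsub : ball z (1 - ‖z‖) ⊆ ball (0 : ℂ) 1 := by
    intro w hw
    rw [mem_ball_zero_iff]
    rw [mem_ball_iff_norm] at hw
    calc ‖w‖ = ‖(w - z) + z‖ := by ring_nf
      _ ≤ ‖w - z‖ + ‖z‖ := norm_add_le _ _
      _ < 1 := by linarith
  have h := Complex.norm_deriv_le_div_of_mapsTo_ball (c := z) (R₂ := 2 * M) (hf.mono hsub) (by
    intro w hw
    rw [mem_closedBall_iff_norm]
    have h1 := hM w (mem_ball_zero_iff.mp (hsub hw))
    have h2 := hM z hz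
    calc ‖f w - f z‖ ≤ ‖f w‖ + ‖f z‖ := norm_sub_le _ _
      _ ≤ 2 * M := by linarith) hR
  rw [le_div_iff₀ hR] at h
  linarith

/-- Schwarz–Pick on the unit disc, in the weak form needed below -/
lemma schwarz_pick_disc {F : ℂ → ℂ} (hF : DifferentiableOn ℂ F (ball 0 1))
    (hb : ∀ z : ℂ, ‖z‖ < 1 → ‖F z‖ ≤ 1) {z : ℂ} (hz : ‖z‖ < 1) :
    (1 - ‖z‖) * ‖deriv F z‖ ≤ 1 - ‖F z‖ ^ 2 := by
  have hR : 0 < 1 - ‖z‖ := by linarith
  have hsub : ball z (1 - ‖z‖) ⊆ ball (0 : ℂ) 1 := by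
    intro w hw
    rw [mem_ball_zero_iff]
    rw [mem_ball_iff_norm] at hw
    calc ‖w‖ = ‖(w - z) + z‖ := by ring_nf
      _ ≤ ‖w - z‖ + ‖z‖ := norm_add_le _ _
      _ < 1 := by linarith
  exact schwarz_pick hR (hF.mono hsub) (fun w hw => hb w (mem_ball_zero_iff.mp (hsub hw)))

end Pool.Agent.Helper44.BI
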