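import Pool.Agent.Helper44.BI.Basic

/-!
# Infinite Blaschke products whose zeros accumulate only at the point one
-/

namespace Pool.Agent.Helper44.BI

open Metric Set Filter Topology MeasureTheory

/-- pseudo-hyperbolic distance -/
noncomputable def pd (α z : ℂ) : ℝ := ‖(α - z) / (1 - (starRingEnd ℂ) α * z)‖

/-- normalised Blaschke factor -/
noncomputable def bf (α z : ℂ) : ℂ :=
  ((‖α‖ : ℂ) / α) * ((α - z) / (1 - (starRingEnd ℂ) α * z))

lemma norm_bf {α : ℂ} (hα : α ≠ 0) (z : ℂ) : ‖bf α z‖ = pd α z := by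
  unfold bf pd
  rw [norm_mul, norm_div, Complex.norm_real, norm_norm, div_self (norm_ne_zero_iff.mpr hα),
    one_mul]

lemma den_lower {α z : ℂ} (hz : ‖z‖ ≤ 1) : 1 - ‖α‖ ≤ ‖1 - (starRingEnd ℂ) α * z‖ := by
  have h1 : ‖(starRingEnd ℂ) α * z‖ ≤ ‖α‖ := by
    rw [norm_mul, RCLike.norm_conj]
    have := norm_nonneg α
    nlinarith
  have h2 := norm_sub_norm_le (1 : ℂ) ((starRingEnd ℂ) α * z)
  rw [norm_one] at h2
  linarith

lemma den_ne {α z : ℂ} (hα : ‖α‖ < 1) (hz : ‖z‖ ≤ 1) : 1 - (starRingEnd ℂ) α * z ≠ 0 := by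
  have := den_lower (α := α) hz
  rw [← norm_pos_iff]
  linarith

lemma sq_identity (α z : ℂ) : ‖1 - (starRingEnd ℂ) α * z‖ ^ 2 - ‖α - z‖ ^ 2 =
    (1 - ‖α‖ ^ 2) * (1 - ‖z‖ ^ 2) := by
  simp only [← Complex.normSq_eq_norm_sq, Complex.normSq_apply]
  simp
  ring

lemma one_sub_pd_sq {α z : ℂ} (hα : ‖α‖ < 1) (hz : ‖z‖ ≤ 1) :
    1 - pd α z ^ 2 = (1 - ‖α‖ ^ 2) * (1 - ‖z‖ ^ 2) / ‖1 - (starRingEnd ℂ) α * z‖ ^ 2 := by
  have h1 := den_ne hα hz
  have h2 : ‖1 - (starRingEnd ℂ) α * z‖ ≠ 0 := norm_ne_zero_iff.mpr h1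
  unfold pd
  have h3 : ‖1 - (starRingEnd ℂ) α * z‖ ^ 2 ≠ 0 := pow_ne_zero 2 h2
  rw [norm_div, div_pow, ← sq_identity, eq_div_iff h3, sub_mul, div_mul_cancel₀ _ h3, one_mul]

lemma pd_nonneg (α z : ℂ) : 0 ≤ pd α z := norm_nonneg _

lemma pd_le_one {α z : ℂ} (hα : ‖α‖ < 1) (hz : ‖z‖ ≤ 1) : pd α z ≤ 1 := by
  have h1 := one_sub_pd_sq hα hz
  have h2 : 0 ≤ (1 - ‖α‖ ^ 2) * (1 - ‖z‖ ^ 2) / ‖1 - (starRingEnd ℂ) α * z‖ ^ 2 := by
    apply div_nonneg
    · apply mul_nonneg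
      · nlinarith [norm_nonneg α]
      · nlinarith [norm_nonneg z]
    · positivity
  nlinarith [pd_nonneg α z]

lemma pd_eq_one {α z : ℂ} (hα : ‖α‖ < 1) (hz : ‖z‖ = 1) : pd α z = 1 := by
  have h1 := one_sub_pd_sq hα hz.le
  rw [hz] at h1
  have h2 : pd α z ^ 2 = 1 := by
    have : (1 - ‖α‖ ^ 2) * (1 - 1 ^ 2) / ‖1 - (starRingEnd ℂ) α * z‖ ^ 2 = 0 := by simp
    rw [this] at h1
    linarith
  nlinarith [pd_nonneg α z]

lemma norm_bf_sub_one {α z : ℂ} (hα0 : α ≠ 0) (hα : ‖α‖ < 1) (hz : ‖z‖ ≤ 1) :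
    ‖bf α z - 1‖ ≤ 2 * (1 - ‖α‖) / ‖1 - (starRingEnd ℂ) α * z‖ := by
  have h1 := den_ne hα hz
  have hc : (starRingEnd ℂ) α * α = (‖α‖ : ℂ) ^ 2 := by
    rw [← Complex.normSq_eq_conj_mul_self, Complex.normSq_eq_norm_sq]
    push_cast
    ring
  have h2 : bf α z - 1 = -((1 - (‖α‖ : ℂ)) * (1 + ((‖α‖ : ℂ) / α) * z)) /
      (1 - (starRingEnd ℂ) α * z) := by
    unfold bf
    set D : ℂ := 1 - (starRingEnd ℂ) α * z with hD
    have h6 : α * D = α - (‖α‖ : ℂ) ^ 2 * z := by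
      rw [hD]; linear_combination (-z) * hc
    rw [eq_div_iff h1, sub_mul, one_mul, mul_assoc, div_mul_cancel₀ _ h1]
    have h7 : ((‖α‖ : ℂ) / α * (α - z) - D) * α = (-((1 - (‖α‖ : ℂ)) *
        (1 + (‖α‖ : ℂ) / α * z))) * α := by
      have h8 : (‖α‖ : ℂ) / α * α = (‖α‖ : ℂ) := div_mul_cancel₀ _ hα0
      linear_combination (-h6) + (α - z) * h8 + (1 - (‖α‖ : ℂ)) * z * h8
    exact mul_right_cancel₀ hα0 h7
  rw [h2, norm_div, norm_neg, norm_mul]
  have h3 : ‖(1 : ℂ) - (‖α‖ : ℂ)‖ = 1 - ‖α‖ := by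
    rw [← Complex.ofReal_one, ← Complex.ofReal_sub, Complex.norm_real, Real.norm_of_nonneg]
    linarith
  have h4 : ‖(1 : ℂ) + ((‖α‖ : ℂ) / α) * z‖ ≤ 2 := by
    refine (norm_add_le _ _).trans ?_
    rw [norm_one, norm_mul, norm_div, Complex.norm_real, norm_norm,
      div_self (norm_ne_zero_iff.mpr hα0), one_mul]
    linarith
  rw [h3]
  have h5 : 0 ≤ 1 - ‖α‖ := by linarith
  apply div_le_div_of_nonneg_right _ (norm_nonneg _)
  nlinarith

lemma prod_sub_one_le {κ : Type*} (s : Finset κ) (f : κ → ℂ) (hf : ∀ j ∈ s, ‖f j‖ ≤ 1) :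
    ‖∏ j ∈ s, f j - 1‖ ≤ ∑ j ∈ s, ‖f j - 1‖ := by
  classical
  induction s using Finset.induction_on with
  | empty => simp
  | insert a s ha ih =>
    rw [Finset.prod_insert ha, Finset.sum_insert ha]
    have h1 : ∀ j ∈ s, ‖f j‖ ≤ 1 := fun j hj => hf j (Finset.mem_insert_of_mem hj)
    have h2 : ‖f a‖ ≤ 1 := hf a (Finset.mem_insert_self _ _)
    have h3 : f a * ∏ j ∈ s, f j - 1 = (f a - 1) + f a * (∏ j ∈ s, f j - 1) := by ring
    rw [h3]
    refine (norm_add_le _ _).trans ?_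
    rw [norm_mul]
    have h4 := ih h1
    have h5 := norm_nonneg (∏ j ∈ s, f j - 1)
    nlinarith

lemma norm_prod_le_one {κ : Type*} (s : Finset κ) (f : κ → ℂ) (hf : ∀ j ∈ s, ‖f j‖ ≤ 1) :
    ‖∏ j ∈ s, f j‖ ≤ 1 := by
  rw [norm_prod]
  exact Finset.prod_le_one (fun j _ => norm_nonneg _) hf

lemma exp_le_of_quarter {x : ℝ} (hx : 1 / 4 ≤ x) (hx1 : x ≤ 1) :
    Real.exp (-(8 * (1 - x ^ 2))) ≤ x := by
  have hx0 : 0 < x := by linarith
  have h1 := Real.add_one_le_exp (1 / x ^ 2 - 1)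
  have h2 : 1 / x ^ 2 - 1 ≤ 16 * (1 - x ^ 2) := by
    have : 1 / x ^ 2 - 1 = (1 - x ^ 2) / x ^ 2 := by field_simp
    rw [this, div_le_iff₀ (by positivity)]
    have h3 : 0 ≤ 1 - x ^ 2 := by nlinarith
    have h4 : 1 ≤ 16 * x ^ 2 := by nlinarith
    nlinarith
  have h3 : 1 / x ^ 2 ≤ Real.exp (16 * (1 - x ^ 2)) := by
    refine le_trans ?_ (Real.exp_le_exp.mpr h2)
    linarith
  have h4 : Real.exp (-(8 * (1 - x ^ 2))) ^ 2 ≤ x ^ 2 := by
    rw [← Real.exp_nat_mul]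
    have h5 : ((2 : ℕ) : ℝ) * -(8 * (1 - x ^ 2)) = -(16 * (1 - x ^ 2)) := by push_cast; ring
    rw [h5, Real.exp_neg]
    rw [inv_le_comm₀ (Real.exp_pos _) (by positivity)]
    rw [← one_div]
    exact h3
  exact (pow_le_pow_iff_left₀ (Real.exp_pos _).le hx0.le (by norm_num)).mp h4

section Product

variable {κ : Type*} (J : ℕ → Finset κ) (α : ℕ → κ → ℂ)

/-- the finite Blaschke product number `n` -/
noncomputable def Bn (n : ℕ) (z : ℂ) : ℂ := ∏ j ∈ J n, bf (α n j) z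

/-- partial products -/
noncomputable def Pn (N : ℕ) (z : ℂ) : ℂ := ∏ n ∈ Finset.range N, Bn J α n z

/-- the infinite product -/
noncomputable def Th (z : ℂ) : ℂ := 1 + ∑' n, (Pn J α (n + 1) z - Pn J α n z)

/-- the hypotheses on the zeros -/
structure BData (ρ : ℕ → ℝ) : Prop where
  ne : ∀ n, ∀ j ∈ J n, α n j ≠ 0
  lt : ∀ n, ∀ j ∈ J n, ‖α n j‖ < 1
  summable : Summable (fun n => ∑ j ∈ J n, (1 - ‖α n j‖))
  tends : Tendsto ρ atTop (𝓝 0)
  near : ∀ n, ∀ j ∈ J n, ‖1 - α n j‖ ≤ ρ n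

variable {J α} {ρ : ℕ → ℝ}

lemma BData.bf_le (h : BData J α ρ) {n : ℕ} {j : κ} (hj : j ∈ J n) {z : ℂ} (hz : ‖z‖ ≤ 1) :
    ‖bf (α n j) z‖ ≤ 1 := by
  rw [norm_bf (h.ne n j hj)]
  exact pd_le_one (h.lt n j hj) hz

lemma BData.Bn_le (h : BData J α ρ) (n : ℕ) {z : ℂ} (hz : ‖z‖ ≤ 1) : ‖Bn J α n z‖ ≤ 1 :=
  norm_prod_le_one _ _ (fun _ hj => h.bf_le hj hz)

lemma BData.Pn_le (h : BData J α ρ) (n : ℕ) {z : ℂ} (hz : ‖z‖ ≤ 1) : ‖Pn J α n z‖ ≤ 1 :=
  norm_prod_le_one _ _ (fun n _ => h.Bn_le n hz)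

lemma Pn_succ_sub (n : ℕ) (z : ℂ) :
    Pn J α (n + 1) z - Pn J α n z = Pn J α n z * (Bn J α n z - 1) := by
  unfold Pn
  rw [Finset.prod_range_succ]
  ring

lemma BData.diff_bf (h : BData J α ρ) {n : ℕ} {j : κ} (hj : j ∈ J n) {z : ℂ} (hz : ‖z‖ ≤ 1) :
    DifferentiableAt ℂ (bf (α n j)) z := by
  unfold bf
  apply DifferentiableAt.const_mul
  apply DifferentiableAt.div (by fun_prop) (by fun_prop)
  exact den_ne (h.lt n j hj) hz

lemma BData.diff_Bn (h : BData J α ρ) (n : ℕ) {z : ℂ} (hz : ‖z‖ ≤ 1) :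
    DifferentiableAt ℂ (Bn J α n) z := by
  unfold Bn
  exact DifferentiableAt.fun_finsetProd (fun j hj => h.diff_bf hj hz)

lemma BData.diff_Pn (h : BData J α ρ) (n : ℕ) {z : ℂ} (hz : ‖z‖ ≤ 1) :
    DifferentiableAt ℂ (Pn J α n) z := by
  unfold Pn
  exact DifferentiableAt.fun_finsetProd (fun j _ => h.diff_Bn j hz)

/-- uniform summable bound away from one -/
lemma BData.bound (h : BData J α ρ) {r : ℝ} (hr : 0 < r) :
    ∃ u : ℕ → ℝ, Summable u ∧ ∀ n, ∀ z : ℂ, ‖z‖ ≤ 1 → r ≤ ‖1 - z‖ →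
      ‖Pn J α (n + 1) z - Pn J α n z‖ ≤ u n := by
  have h1 : ∀ᶠ n in atTop, ρ n ≤ r / 2 := by
    have := h.tends.eventually (eventually_le_nhds (show (0 : ℝ) < r / 2 by linarith))
    exact this
  obtain ⟨n₀, hn₀⟩ := eventually_atTop.mp h1
  set s : ℕ → ℝ := fun n => ∑ j ∈ J n, (1 - ‖α n j‖) with hs
  refine ⟨fun n => if n < n₀ then 2 else (4 / r) * s n, ?_, ?_⟩
  · have h2 : Summable (fun n => (4 / r) * s n) := h.summable.mul_left _
    refine (summable_nat_add_iff n₀).mp ?_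
    have h3 : (fun n => (if n + n₀ < n₀ then (2 : ℝ) else (4 / r) * s (n + n₀))) =
        fun n => (4 / r) * s (n + n₀) := by
      funext n
      rw [if_neg (by omega)]
    rw [h3]
    exact (summable_nat_add_iff n₀).mpr h2
  · intro n z hz hrz
    show _ ≤ (if n < n₀ then (2 : ℝ) else (4 / r) * s n)
    split_ifs with hn
    · refine (norm_sub_le _ _).trans ?_
      have := h.Pn_le (n + 1) hz
      have := h.Pn_le n hz
      linarith
    · rw [Pn_succ_sub, norm_mul]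
      have h4 : ‖Bn J α n z - 1‖ ≤ (4 / r) * s n := by
        unfold Bn
        refine (prod_sub_one_le _ _ (fun j hj => h.bf_le hj hz)).trans ?_
        rw [hs, Finset.mul_sum]
        apply Finset.sum_le_sum
        intro j hj
        have h5 := norm_bf_sub_one (h.ne n j hj) (h.lt n j hj) hz
        refine h5.trans ?_
        have h6 : r / 2 ≤ ‖1 - (starRingEnd ℂ) (α n j) * z‖ := by
          have e1 : 1 - (starRingEnd ℂ) (α n j) * z =
              (1 - z) + (1 - (starRingEnd ℂ) (α n j)) * z := by ring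
          have e2 : ‖(1 - (starRingEnd ℂ) (α n j)) * z‖ ≤ r / 2 := by
            rw [norm_mul]
            have e3 : ‖1 - (starRingEnd ℂ) (α n j)‖ = ‖1 - α n j‖ := by
              rw [← RCLike.norm_conj (1 - α n j)]
              simp
            rw [e3]
            have e4 := (h.near n j hj).trans (hn₀ n (by omega))
            have e5 := norm_nonneg (1 - α n j)
            nlinarith [norm_nonneg z]
          rw [e1]
          have e6 := norm_sub_le ((1 - z) + (1 - (starRingEnd ℂ) (α n j)) * z)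
            ((1 - (starRingEnd ℂ) (α n j)) * z)
          rw [add_sub_cancel_right] at e6
          linarith
        have h7 : 0 ≤ 1 - ‖α n j‖ := by linarith [h.lt n j hj]
        rw [div_le_iff₀ (by linarith)]
        have h8 : 4 / r * (1 - ‖α n j‖) * (r / 2) = 2 * (1 - ‖α n j‖) := by
          field_simp
          ring
        rw [← h8]
        apply mul_le_mul_of_nonneg_left h6
        positivity
      have h9 := h.Pn_le n hz
      have h10 := norm_nonneg (Pn J α n z)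
      have h11 := norm_nonneg (Bn J α n z - 1)
      nlinarith

lemma BData.summable_at (h : BData J α ρ) {z : ℂ} (hz : ‖z‖ ≤ 1) (hz1 : z ≠ 1) :
    Summable (fun n => Pn J α (n + 1) z - Pn J α n z) := by
  have hr : 0 < ‖1 - z‖ := norm_pos_iff.mpr (sub_ne_zero.mpr (Ne.symm hz1))
  obtain ⟨u, hu, hb⟩ := h.bound hr
  exact Summable.of_norm_bounded hu (fun n => hb n z hz le_rfl)

lemma BData.tendsto_Pn (h : BData J α ρ) {z : ℂ} (hz : ‖z‖ ≤ 1) (hz1 : z ≠ 1) :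
    Tendsto (fun N => Pn J α N z) atTop (𝓝 (Th J α z)) := by
  have h1 := (h.summable_at hz hz1).hasSum.tendsto_sum_nat
  have h2 : ∀ N, ∑ n ∈ Finset.range N, (Pn J α (n + 1) z - Pn J α n z) = Pn J α N z - 1 := by
    intro N
    rw [Finset.sum_range_sub (fun n => Pn J α n z)]
    simp [Pn]
  simp only [h2] at h1
  have h3 := h1.const_add 1
  unfold Th
  simpa using h3

lemma BData.continuousOn (h : BData J α ρ) {r : ℝ} (hr : 0 < r) :
    ContinuousOn (Th J α) {z : ℂ | ‖z‖ ≤ 1 ∧ r ≤ ‖1 - z‖} := by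
  obtain ⟨u, hu, hb⟩ := h.bound hr
  unfold Th
  apply ContinuousOn.add continuousOn_const
  apply continuousOn_tsum (u := u) _ hu
  · intro n z hz
    exact hb n z hz.1 hz.2
  · intro n z hz
    exact ((h.diff_Pn (n + 1) hz.1).continuousAt.sub
      (h.diff_Pn n hz.1).continuousAt).continuousWithinAt

lemma BData.differentiableOn (h : BData J α ρ) : DifferentiableOn ℂ (Th J α) (ball 0 1) := by
  intro z hz
  rw [mem_ball_zero_iff] at hz
  have hz1 : z ≠ 1 := by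
    rintro rfl
    simp at hz
  have hr : 0 < ‖1 - z‖ / 2 := by
    have : 0 < ‖1 - z‖ := norm_pos_iff.mpr (sub_ne_zero.mpr (Ne.symm hz1))
    linarith
  obtain ⟨u, hu, hb⟩ := h.bound hr
  set U : Set ℂ := {w : ℂ | ‖w‖ < 1 ∧ ‖1 - z‖ / 2 < ‖1 - w‖} with hU
  have hUo : IsOpen U := by
    have o1 : IsOpen {w : ℂ | ‖w‖ < 1} := isOpen_lt continuous_norm continuous_const
    have o2 : IsOpen {w : ℂ | ‖1 - z‖ / 2 < ‖1 - w‖} :=
      isOpen_lt continuous_const (continuous_const.sub continuous_id).norm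
    exact o1.inter o2
  have hzU : z ∈ U := ⟨hz, by linarith⟩
  have hdiff : DifferentiableOn ℂ (fun w => ∑' n, (Pn J α (n + 1) w - Pn J α n w)) U := by
    apply Complex.differentiableOn_tsum_of_summable_norm hu _ hUo
    · intro n w hw
      exact hb n w hw.1.le hw.2.le
    · intro n w hw
      exact ((h.diff_Pn (n + 1) hw.1.le).sub (h.diff_Pn n hw.1.le)).differentiableWithinAt
  have h2 := (hdiff.differentiableAt (hUo.mem_nhds hzU)).const_add 1
  exact h2.differentiableWithinAt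

lemma BData.Th_le (h : BData J α ρ) {z : ℂ} (hz : ‖z‖ ≤ 1) (hz1 : z ≠ 1) (n : ℕ) :
    ‖Th J α z‖ ≤ ∏ j ∈ J n, pd (α n j) z := by
  have h1 := (h.tendsto_Pn hz hz1).norm
  refine le_of_tendsto h1 ?_
  filter_upwards [eventually_gt_atTop n] with N hN
  unfold Pn
  rw [norm_prod, ← Finset.mul_prod_erase _ _ (Finset.mem_range.mpr hN)]
  have h2 : ‖Bn J α n z‖ = ∏ j ∈ J n, pd (α n j) z := by
    unfold Bn
    rw [norm_prod]
    exact Finset.prod_congr rfl (fun j hj => norm_bf (h.ne n j hj) z)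
  rw [h2]
  have h3 : ∏ m ∈ (Finset.range N).erase n, ‖Bn J α m z‖ ≤ 1 :=
    Finset.prod_le_one (fun _ _ => norm_nonneg _) (fun m _ => h.Bn_le m hz)
  have h4 : 0 ≤ ∏ j ∈ J n, pd (α n j) z := Finset.prod_nonneg (fun _ _ => pd_nonneg _ _)
  nlinarith

lemma BData.norm_le_one (h : BData J α ρ) {z : ℂ} (hz : ‖z‖ ≤ 1) (hz1 : z ≠ 1) :
    ‖Th J α z‖ ≤ 1 :=
  le_of_tendsto (h.tendsto_Pn hz hz1).norm (Eventually.of_forall (fun N => h.Pn_le N hz))

lemma BData.norm_eq_one (h : BData J α ρ) {z : ℂ} (hz : ‖z‖ = 1) (hz1 : z ≠ 1) :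
    ‖Th J α z‖ = 1 := by
  have h1 := (h.tendsto_Pn hz.le hz1).norm
  have h2 : ∀ N, ‖Pn J α N z‖ = 1 := by
    intro N
    unfold Pn
    rw [norm_prod]
    apply Finset.prod_eq_one
    intro n _
    unfold Bn
    rw [norm_prod]
    apply Finset.prod_eq_one
    intro j hj
    rw [norm_bf (h.ne n j hj), pd_eq_one (h.lt n j hj) hz]
  simp only [h2] at h1
  exact tendsto_nhds_unique h1 tendsto_const_nhds

lemma BData.lower (h : BData J α ρ) {z : ℂ} (hz : ‖z‖ ≤ 1) (hz1 : z ≠ 1) {K : ℝ}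
    (hK : ∀ N, ∑ n ∈ Finset.range N, ∑ j ∈ J n, (1 - pd (α n j) z ^ 2) ≤ K)
    (hq : ∀ n, ∀ j ∈ J n, 1 / 4 ≤ pd (α n j) z) :
    Real.exp (-(8 * K)) ≤ ‖Th J α z‖ := by
  refine ge_of_tendsto (h.tendsto_Pn hz hz1).norm (Eventually.of_forall (fun N => ?_))
  have h1 : ‖Pn J α N z‖ = ∏ n ∈ Finset.range N, ∏ j ∈ J n, pd (α n j) z := by
    unfold Pn
    rw [norm_prod]
    apply Finset.prod_congr rfl
    intro n _
    unfold Bn
    rw [norm_prod]
    exact Finset.prod_congr rfl (fun j hj => norm_bf (h.ne n j hj) z)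
  have h2 : Real.exp (-(8 * ∑ n ∈ Finset.range N, ∑ j ∈ J n, (1 - pd (α n j) z ^ 2))) =
      ∏ n ∈ Finset.range N, ∏ j ∈ J n, Real.exp (-(8 * (1 - pd (α n j) z ^ 2))) := by
    rw [Finset.mul_sum, ← Finset.sum_neg_distrib, Real.exp_sum]
    apply Finset.prod_congr rfl
    intro n _
    rw [Finset.mul_sum, ← Finset.sum_neg_distrib, Real.exp_sum]
  calc Real.exp (-(8 * K))
      ≤ Real.exp (-(8 * ∑ n ∈ Finset.range N, ∑ j ∈ J n, (1 - pd (α n j) z ^ 2))) := by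
        apply Real.exp_le_exp.mpr
        linarith [hK N]
    _ = ∏ n ∈ Finset.range N, ∏ j ∈ J n, Real.exp (-(8 * (1 - pd (α n j) z ^ 2))) := h2
    _ ≤ ∏ n ∈ Finset.range N, ∏ j ∈ J n, pd (α n j) z := by
        apply Finset.prod_le_prod (fun _ _ => Finset.prod_nonneg (fun _ _ => (Real.exp_pos _).le))
        intro n _
        apply Finset.prod_le_prod (fun _ _ => (Real.exp_pos _).le)
        intro j hj
        exact exp_le_of_quarter (hq n j hj) (pd_le_one (h.lt n j hj) hz)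
    _ = ‖Pn J α N z‖ := h1.symm

lemma exp_ne_one_ae : ∀ᵐ t : ℝ, Complex.exp (t * Complex.I) ≠ 1 := by
  have h1 : ({t : ℝ | ¬ Complex.exp (t * Complex.I) ≠ 1}).Countable := by
    have h2 : {t : ℝ | ¬ Complex.exp (t * Complex.I) ≠ 1} ⊆
        range (fun n : ℤ => (n : ℝ) * (2 * Real.pi)) := by
      intro t ht
      have ht' : Complex.exp (t * Complex.I) = 1 := by simpa using ht
      rw [Complex.exp_eq_one_iff] at ht'
      obtain ⟨n, hn⟩ := ht'
      refine ⟨n, ?_⟩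
      have h3 : (t : ℂ) = n * (2 * Real.pi) := by
        have h4 : (t : ℂ) * Complex.I = (n * (2 * Real.pi)) * Complex.I := by
          rw [hn]; ring
        exact mul_right_cancel₀ Complex.I_ne_zero h4
      have h5 : (t : ℂ) = ((n * (2 * Real.pi) : ℝ) : ℂ) := by rw [h3]; push_cast; ring
      exact (Complex.ofReal_injective h5).symm
    exact (countable_range _).mono h2
  exact h1.measure_zero _

/-- the infinite product is an inner function -/
lemma BData.isInner (h : BData J α ρ) : IsInner (Th J α) := by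
  refine ⟨⟨h.differentiableOn, 1, fun z hz => h.norm_le_one hz.le ?_⟩, ?_⟩
  · rintro rfl
    simp at hz
  · filter_upwards [exp_ne_one_ae] with t ht
    set ζ : ℂ := Complex.exp (t * Complex.I) with hζ
    have hζ1 : ‖ζ‖ = 1 := Complex.norm_exp_ofReal_mul_I t
    refine ⟨Th J α ζ, h.norm_eq_one hζ1 ht, ?_⟩
    have hr : 0 < ‖1 - ζ‖ := norm_pos_iff.mpr (sub_ne_zero.mpr (Ne.symm ht))
    have hc := h.continuousOn (r := ‖1 - ζ‖ / 2) (by linarith)
    have hmem : ζ ∈ {z : ℂ | ‖z‖ ≤ 1 ∧ ‖1 - ζ‖ / 2 ≤ ‖1 - z‖} := ⟨hζ1.le, by linarith⟩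
    have hcw : Tendsto (Th J α) (𝓝[{z : ℂ | ‖z‖ ≤ 1 ∧ ‖1 - ζ‖ / 2 ≤ ‖1 - z‖}] ζ)
        (𝓝 (Th J α ζ)) := hc ζ hmem
    apply hcw.comp
    apply tendsto_nhdsWithin_of_tendsto_nhds_of_eventually_within
    · apply Tendsto.mono_left _ nhdsWithin_le_nhds
      have : Tendsto (fun r : ℝ => (r : ℂ) * ζ) (𝓝 1) (𝓝 (((1 : ℝ) : ℂ) * ζ)) :=
        Continuous.tendsto (by fun_prop) 1
      simpa using this
    · have hlim : Tendsto (fun r : ℝ => ‖1 - (r : ℂ) * ζ‖) (𝓝[<] 1) (𝓝 ‖1 - ζ‖) := by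
        apply Tendsto.mono_left _ nhdsWithin_le_nhds
        have : Tendsto (fun r : ℝ => ‖1 - (r : ℂ) * ζ‖) (𝓝 1) (𝓝 ‖1 - ((1 : ℝ) : ℂ) * ζ‖) :=
          Continuous.tendsto (by fun_prop) 1
        simpa using this
      have h1 := hlim.eventually (eventually_gt_nhds (show ‖1 - ζ‖ / 2 < ‖1 - ζ‖ by linarith))
      filter_upwards [h1, Ioo_mem_nhdsLT (show (0 : ℝ) < 1 by norm_num)] with r hr1 hr2
      refine ⟨?_, hr1.le⟩
      rw [norm_mul, hζ1, Complex.norm_real, Real.norm_of_nonneg hr2.1.le]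
      linarith [hr2.2]

end Product

end Pool.Agent.Helper44.BI
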