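import Pool.Agent.Helper44.BI.Rect

/-!
# A lower bound for inner functions above a box on which they are bounded below
-/

namespace Pool.Agent.Helper44.BI

open Metric Set Filter Topology MeasureTheory

lemma box_lower_bound {T : ℂ → ℂ} {ε L t : ℝ} (hT : DifferentiableOn ℂ T {ζ | 0 < ζ.im})
    (hae : ∀ᵐ x : ℝ, Tendsto (fun y : ℝ => ‖T (x + y * Complex.I)‖) (𝓝[>] 0) (𝓝 1))
    (hε : 0 < ε) (hε1 : ε ≤ 1) (ht : 0 < t) (htL : t ≤ L / 2)
    (hlow : ∀ x y : ℝ, |x| ≤ L → 0 < y → y ≤ L → ε ≤ ‖T (x + y * Complex.I)‖) :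
    Real.exp (-(2 * Real.log (1 / ε) * t / L)) ≤ ‖T (t * Complex.I)‖ := by
  have hL : 0 < L := by linarith
  have hLL : -L ≤ L := by linarith
  set M : ℝ := Real.log (1 / ε) with hM
  have hM0 : 0 ≤ M := by
    apply Real.log_nonneg
    rw [le_div_iff₀ hε]; linarith
  have hexpM : Real.exp (-M) = ε := by
    rw [hM, ← Real.log_inv, one_div, inv_inv, Real.exp_log hε]
  set β : ℂ → ℂ := fun ζ => ((M / L ^ 2 : ℝ) : ℂ) * (ζ ^ 2 - 2 * Complex.I * L * ζ) with hβ
  have hβre : ∀ x y : ℝ, (β (x + y * Complex.I)).re = M / L ^ 2 * (x ^ 2 - y ^ 2 + 2 * L * y) := by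
    intro x y
    rw [hβ]
    simp only
    rw [Complex.re_ofReal_mul]
    congr 1
    simp [pow_two]
  set G : ℂ → ℂ := fun ζ => Complex.exp (-β ζ) / T ζ with hG
  have hGn : ∀ x y : ℝ, ‖G (x + y * Complex.I)‖ =
      Real.exp (-(M / L ^ 2 * (x ^ 2 - y ^ 2 + 2 * L * y))) / ‖T (x + y * Complex.I)‖ := by
    intro x y
    rw [hG]
    simp only
    rw [norm_div, Complex.norm_exp, Complex.neg_re, hβre]
  have hcM : 0 ≤ M / L ^ 2 := by positivity
  -- bound on the sides and on the top
  have hside : ∀ x y : ℝ, |x| ≤ L → 0 < y → y ≤ L → L ^ 2 ≤ x ^ 2 - y ^ 2 + 2 * L * y →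
      ‖G (x + y * Complex.I)‖ ≤ 1 := by
    intro x y hx hy hyL hb
    rw [hGn]
    have h1 : ε ≤ ‖T (x + y * Complex.I)‖ := hlow x y hx hy hyL
    rw [div_le_one (by linarith)]
    refine le_trans ?_ h1
    rw [← hexpM]
    apply Real.exp_le_exp.mpr
    have h2 : M = M / L ^ 2 * L ^ 2 := by field_simp
    have h3 : M / L ^ 2 * L ^ 2 ≤ M / L ^ 2 * (x ^ 2 - y ^ 2 + 2 * L * y) :=
      mul_le_mul_of_nonneg_left hb hcM
    linarith
  have hbot : ∀ x s : ℝ, 0 < s → s ≤ L → ‖G (x + s * Complex.I)‖ ≤
      ‖T (x + s * Complex.I)‖⁻¹ := by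
    intro x s hs hsL
    rw [hGn, div_eq_mul_inv]
    have h1 : Real.exp (-(M / L ^ 2 * (x ^ 2 - s ^ 2 + 2 * L * s))) ≤ 1 := by
      rw [Real.exp_le_one_iff]
      have : 0 ≤ x ^ 2 - s ^ 2 + 2 * L * s := by nlinarith [sq_nonneg x]
      have := mul_nonneg hcM this
      linarith
    calc _ ≤ 1 * ‖T (x + s * Complex.I)‖⁻¹ := by
          apply mul_le_mul_of_nonneg_right h1 (by positivity)
      _ = _ := one_mul _
  have key : ∀ n : ℕ, ‖G (t * Complex.I)‖ ^ n ≤ (t⁻¹ * (2 * L) + 6) * (L / t) := by
    intro n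
    -- the bound for every `s`
    have hs_bound : ∀ s : ℝ, 0 < s → s < t →
        ‖G (t * Complex.I)‖ ^ n * ((t - s) / L) ≤
          (t - s)⁻¹ * (∫ x in (-L)..L, (‖T (x + s * Complex.I)‖⁻¹) ^ n) + 6 := by
      intro s hs hst
      have hsL : s ≤ L := by linarith
      have hmem : ∀ ζ ∈ (uIcc (-L) L ×ℂ uIcc s L), |ζ.re| ≤ L ∧ 0 < ζ.im ∧ ζ.im ≤ L := by
        intro ζ hζ
        rw [uIcc_of_le hLL, uIcc_of_le hsL, Complex.mem_reProdIm] at hζ
        exact ⟨abs_le.mpr hζ.1, by linarith [hζ.2.1], hζ.2.2⟩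
      have hTne : ∀ ζ ∈ (uIcc (-L) L ×ℂ uIcc s L), T ζ ≠ 0 := by
        intro ζ hζ h0
        obtain ⟨h1, h2, h3⟩ := hmem ζ hζ
        have h4 := hlow ζ.re ζ.im h1 h2 h3
        rw [Complex.re_add_im, h0, norm_zero] at h4
        linarith
      have hGd : DifferentiableOn ℂ (fun ζ => G ζ ^ n) (uIcc (-L) L ×ℂ uIcc s L) := by
        apply DifferentiableOn.pow
        apply DifferentiableOn.div
        · apply DifferentiableOn.cexp
          rw [hβ]
          fun_prop
        · exact hT.mono (fun ζ hζ => (hmem ζ hζ).2.1)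
        · exact hTne
      have h1 := rect_bound (G := fun ζ => G ζ ^ n) hst ht hs htL hGd
        (by
          intro x hx
          rw [norm_pow]
          apply pow_le_one₀ (norm_nonneg _)
          apply hside x L (abs_le.mpr hx) hL le_rfl
          nlinarith [sq_nonneg x])
        (by
          intro y hy
          rw [norm_pow]
          apply pow_le_one₀ (norm_nonneg _)
          have hy0 : 0 < y := by linarith [hy.1]
          apply hside L y (by rw [abs_of_pos hL]) hy0 hy.2
          nlinarith [hy.2])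
        (by
          intro y hy
          rw [norm_pow]
          apply pow_le_one₀ (norm_nonneg _)
          have hy0 : 0 < y := by linarith [hy.1]
          have := hside (-L) y (by rw [abs_neg, abs_of_pos hL]) hy0 hy.2
            (by nlinarith [hy.2])
          simpa using this)
      simp only [norm_pow] at h1
      refine h1.trans ?_
      have h2 : 0 < t - s := by linarith
      have hmemb : ∀ x ∈ uIcc (-L) L, (x + s * Complex.I : ℂ) ∈ (uIcc (-L) L ×ℂ uIcc s L) := by
        intro x hx
        rw [Complex.mem_reProdIm]; simp [hx]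
      have hTc : ContinuousOn (fun x : ℝ => ‖T (x + s * Complex.I)‖) (uIcc (-L) L) := by
        apply ContinuousOn.norm
        apply ContinuousOn.comp (t := {ζ : ℂ | 0 < ζ.im}) hT.continuousOn (by fun_prop)
        intro x _
        simp [hs]
      have hTne' : ∀ x ∈ uIcc (-L) L, ‖T (x + s * Complex.I)‖ ≠ 0 := by
        intro x hx
        exact norm_ne_zero_iff.mpr (hTne _ (hmemb x hx))
      gcongr
      apply intervalIntegral.integral_mono_on hLL
      · apply ContinuousOn.intervalIntegrable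
        apply ContinuousOn.pow
        apply ContinuousOn.norm
        have : ContinuousOn G (uIcc (-L) L ×ℂ uIcc s L) := by
          apply DifferentiableOn.continuousOn (𝕜 := ℂ)
          apply DifferentiableOn.div
          · apply DifferentiableOn.cexp
            rw [hβ]
            fun_prop
          · exact hT.mono (fun ζ hζ => (hmem ζ hζ).2.1)
          · exact hTne
        exact this.comp (by fun_prop) hmemb
      · apply ContinuousOn.intervalIntegrable
        apply ContinuousOn.pow
        exact hTc.inv₀ hTne'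
      · intro x _
        exact pow_le_pow_left₀ (norm_nonneg _) (hbot x s hs hsL) n
    -- pass to the limit
    have hlim : Tendsto (fun s : ℝ => ∫ x in (-L)..L, (‖T (x + s * Complex.I)‖⁻¹) ^ n)
        (𝓝[>] 0) (𝓝 (∫ x in (-L)..L, (1 : ℝ))) := by
      refine intervalIntegral.tendsto_integral_filter_of_dominated_convergence
        (fun _ => (ε⁻¹) ^ n) ?_ ?_ ?_ ?_
      · filter_upwards [Ioo_mem_nhdsGT hL] with s hs
        have hsm : MeasurableSet (uIoc (-L) L) := measurableSet_uIoc
        apply ContinuousOn.aestronglyMeasurable _ hsm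
        have hTc : ContinuousOn (fun x : ℝ => ‖T (x + s * Complex.I)‖) (uIoc (-L) L) := by
          apply ContinuousOn.norm
          apply ContinuousOn.comp (t := {ζ : ℂ | 0 < ζ.im}) hT.continuousOn (by fun_prop)
          intro x _
          simp [hs.1]
        apply ContinuousOn.pow
        apply hTc.inv₀
        intro x hx
        rw [uIoc_of_le hLL] at hx
        have := hlow x s (abs_le.mpr ⟨hx.1.le, hx.2⟩) hs.1 hs.2.le
        linarith
      · filter_upwards [Ioo_mem_nhdsGT hL] with s hs
        refine Eventually.of_forall (fun x hx => ?_)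
        rw [uIoc_of_le hLL] at hx
        have := hlow x s (abs_le.mpr ⟨hx.1.le, hx.2⟩) hs.1 hs.2.le
        rw [Real.norm_of_nonneg (by positivity)]
        apply pow_le_pow_left₀ (by positivity)
        exact inv_anti₀ hε this
      · exact continuous_const.intervalIntegrable _ _
      · filter_upwards [hae] with x hx _
        have h1 := (hx.inv₀ one_ne_zero).pow n
        simpa using h1
    have hval : (∫ x in (-L)..L, (1 : ℝ)) = 2 * L := by
      rw [intervalIntegral.integral_const, smul_eq_mul]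
      ring
    rw [hval] at hlim
    have hR : Tendsto (fun s : ℝ => (t - s)⁻¹ *
        (∫ x in (-L)..L, (‖T (x + s * Complex.I)‖⁻¹) ^ n) + 6) (𝓝[>] 0)
        (𝓝 ((t - 0)⁻¹ * (2 * L) + 6)) := by
      apply Tendsto.add_const
      apply Tendsto.mul _ hlim
      apply Tendsto.mono_left _ nhdsWithin_le_nhds
      apply ContinuousAt.tendsto (f := fun s : ℝ => (t - s)⁻¹)
      apply ContinuousAt.inv₀ (by fun_prop)
      simp [ht.ne']
    have hLft : Tendsto (fun s : ℝ => ‖G (t * Complex.I)‖ ^ n * ((t - s) / L)) (𝓝[>] 0)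
        (𝓝 (‖G (t * Complex.I)‖ ^ n * ((t - 0) / L))) := by
      apply Tendsto.mono_left _ nhdsWithin_le_nhds
      apply ContinuousAt.tendsto (f := fun s : ℝ => ‖G (t * Complex.I)‖ ^ n * ((t - s) / L))
      fun_prop
    have h3 := le_of_tendsto_of_tendsto hLft hR (by
      filter_upwards [Ioo_mem_nhdsGT ht] with s hs
      exact hs_bound s hs.1 hs.2)
    rw [sub_zero] at h3
    have h4 : ‖G (t * Complex.I)‖ ^ n = ‖G (t * Complex.I)‖ ^ n * (t / L) * (L / t) := by
      field_simp
    rw [h4]
    exact mul_le_mul_of_nonneg_right h3 (by positivity)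
  have hG1 : ‖G (t * Complex.I)‖ ≤ 1 := by
    by_contra hcon
    push Not at hcon
    have h2 := tendsto_pow_atTop_atTop_of_one_lt hcon
    obtain ⟨n, hn⟩ := (h2.eventually_gt_atTop ((t⁻¹ * (2 * L) + 6) * (L / t))).exists
    exact absurd (key n) (not_le.mpr hn)
  have h0 := hGn 0 t
  simp only [Complex.ofReal_zero, zero_add] at h0
  have hTpos : 0 < ‖T (t * Complex.I)‖ := by
    have := hlow 0 t (by simp [hL.le]) ht (by linarith)
    simp only [Complex.ofReal_zero, zero_add] at this
    linarith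
  rw [h0, div_le_one hTpos] at hG1
  refine le_trans ?_ hG1
  apply Real.exp_le_exp.mpr
  have h5 : M / L ^ 2 * (0 ^ 2 - t ^ 2 + 2 * L * t) ≤ 2 * M * t / L := by
    have h6 : 2 * M * t / L = M / L ^ 2 * (2 * L * t) := by field_simp
    rw [h6]
    apply mul_le_mul_of_nonneg_left _ hcM
    nlinarith [sq_nonneg t]
  linarith

end Pool.Agent.Helper44.BI
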