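import Mathlib

/-!
# Definitions for MP_3bea3b_an (multiplication by inner functions in Bloch-type spaces)
-/

namespace Pool.Agent.Helper44.BI

open Metric Set Filter Topology MeasureTheory

/-- A continuity modulus: a continuous, non-decreasing, positive function on `(0,1)`
(values outside `(0,1)` are irrelevant). -/
structure IsContinuityModulus (ω : ℝ → ℝ) : Prop where
  continuousOn : ContinuousOn ω (Ioo 0 1)
  monotoneOn : MonotoneOn ω (Ioo 0 1)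
  pos : ∀ t ∈ Ioo (0 : ℝ) 1, 0 < ω t

/-- `f ∈ H^∞`: `f` is analytic and bounded on the open unit disc. -/
def MemHInf (f : ℂ → ℂ) : Prop :=
  DifferentiableOn ℂ f (ball 0 1) ∧ ∃ M : ℝ, ∀ z : ℂ, ‖z‖ < 1 → ‖f z‖ ≤ M

/-- `f ∈ B_ω`: `f` is analytic on the open unit disc and there are `C > 0` and `r ∈ (0,1)` with
`(1 - |z|) |f'(z)| ≤ C ω(1 - |z|)` whenever `r < |z| < 1`. -/
def MemBloch (ω : ℝ → ℝ) (f : ℂ → ℂ) : Prop :=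
  DifferentiableOn ℂ f (ball 0 1) ∧ ∃ C > 0, ∃ r ∈ Ioo (0 : ℝ) 1, ∀ z : ℂ, r < ‖z‖ → ‖z‖ < 1 →
    (1 - ‖z‖) * ‖deriv f z‖ ≤ C * ω (1 - ‖z‖)

/-- `Θ` is inner: it is in `H^∞` and for almost every `t` its radial limit at `e^{it}` exists and
has modulus `1`. -/
def IsInner (Θ : ℂ → ℂ) : Prop :=
  MemHInf Θ ∧ ∀ᵐ t : ℝ, ∃ w : ℂ, ‖w‖ = 1 ∧
    Tendsto (fun r : ℝ => Θ (r * Complex.exp (t * Complex.I))) (𝓝[<] 1) (𝓝 w)

/-- Condition `(2_ε)`: there is `C > 0` with `|f(z)| ≤ C ω(1 - |z|)` for every `z` of the disc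
with `|Θ(z)| < ε` (and `z ≠ 0`, as `ω(1)` is not defined). -/
def Cond2 (ω : ℝ → ℝ) (f Θ : ℂ → ℂ) (ε : ℝ) : Prop :=
  ∃ C > 0, ∀ z : ℂ, z ≠ 0 → ‖z‖ < 1 → ‖Θ z‖ < ε → ‖f z‖ ≤ C * ω (1 - ‖z‖)

/-- Property (P): for every `f ∈ B_ω ∩ H^∞` and every inner `Θ` the conditions
(i) `f Θ ∈ B_ω ∩ H^∞`, (ii) `(2_ε)` for some `ε ∈ (0,1)`, (iii) `(2_ε)` for every `ε ∈ (0,1)`
are equivalent. -/
def PropertyP (ω : ℝ → ℝ) : Prop :=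
  ∀ f Θ : ℂ → ℂ, MemBloch ω f → MemHInf f → IsInner Θ →
    List.TFAE [
      MemBloch ω (fun z => f z * Θ z) ∧ MemHInf (fun z => f z * Θ z),
      ∃ ε ∈ Ioo (0 : ℝ) 1, Cond2 ω f Θ ε,
      ∀ ε ∈ Ioo (0 : ℝ) 1, Cond2 ω f Θ ε]

end Pool.Agent.Helper44.BI
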