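import Pool.Agent.Helper44.BI.Basic

/-!
# Inner functions are bounded by one
-/

namespace Pool.Agent.Helper44.BI

open Metric Set Filter Topology MeasureTheory

/-- the modulus of an inner function tends radially to one almost everywhere -/
lemma IsInner.ae_norm {Θ : ℂ → ℂ} (h : IsInner Θ) :
    ∀ᵐ t : ℝ, Tendsto (fun r : ℝ => ‖Θ (r * Complex.exp (t * Complex.I))‖) (𝓝[<] 1) (𝓝 1) := by
  filter_upwards [h.2] with t ht
  obtain ⟨w, hw, hlim⟩ := ht
  have := hlim.norm
  rwa [hw] at this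

lemma circle_pow_bound {Θ : ℂ → ℂ} (hd : DifferentiableOn ℂ Θ (ball 0 1)) {z : ℂ} {r : ℝ}
    (hzr : ‖z‖ < r) (hr1 : r < 1) (n : ℕ) :
    ‖Θ z‖ ^ n ≤ (2 * Real.pi)⁻¹ * ((r / (r - ‖z‖)) *
      ∫ θ in (0 : ℝ)..2 * Real.pi, ‖Θ (r * Complex.exp (θ * Complex.I))‖ ^ n) := by
  have hr0 : 0 < r := (norm_nonneg z).trans_lt hzr
  have hd' : DifferentiableOn ℂ (fun w => Θ w ^ n) (closedBall 0 r) :=
    (hd.mono (closedBall_subset_ball hr1)).pow n
  have hz : z ∈ ball (0 : ℂ) r := by rwa [mem_ball_zero_iff]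
  have hC := hd'.circleIntegral_sub_inv_smul hz
  have hpi : 0 < 2 * Real.pi := by positivity
  have hn : ‖∮ w in C(0, r), (w - z)⁻¹ • Θ w ^ n‖ = 2 * Real.pi * ‖Θ z‖ ^ n := by
    rw [hC, smul_eq_mul, norm_mul, norm_pow]
    simp [abs_of_pos Real.pi_pos]
  have hcont : Continuous (fun θ : ℝ => ‖Θ (r * Complex.exp (θ * Complex.I))‖ ^ n) := by
    have h1 : Continuous (fun θ : ℝ => Θ (r * Complex.exp (θ * Complex.I))) := by
      apply ContinuousOn.comp_continuous hd.continuousOn (by fun_prop)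
      intro θ
      rw [mem_ball_zero_iff, norm_mul, Complex.norm_exp_ofReal_mul_I, Complex.norm_real,
        Real.norm_of_nonneg hr0.le]
      linarith
    exact h1.norm.pow n
  have hcirc : ∀ θ : ℝ, circleMap 0 r θ = r * Complex.exp (θ * Complex.I) := by
    intro θ; simp [circleMap]
  have hb : ‖∮ w in C(0, r), (w - z)⁻¹ • Θ w ^ n‖ ≤
      ∫ θ in (0 : ℝ)..2 * Real.pi,
        (r / (r - ‖z‖)) * ‖Θ (r * Complex.exp (θ * Complex.I))‖ ^ n := by
    unfold circleIntegral
    refine intervalIntegral.norm_integral_le_of_norm_le hpi.le ?_ ?_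
    · refine Eventually.of_forall (fun θ _ => ?_)
      rw [norm_smul, norm_smul, norm_pow, hcirc, norm_inv]
      have h1 : ‖deriv (circleMap 0 r) θ‖ = r := by
        rw [deriv_circleMap, norm_mul, norm_circleMap_zero, Complex.norm_I, mul_one,
          abs_of_pos hr0]
      rw [h1]
      have h2 : r - ‖z‖ ≤ ‖(r : ℂ) * Complex.exp (θ * Complex.I) - z‖ := by
        have h3 : ‖(r : ℂ) * Complex.exp (θ * Complex.I)‖ = r := by
          rw [norm_mul, Complex.norm_exp_ofReal_mul_I, Complex.norm_real,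
            Real.norm_of_nonneg hr0.le, mul_one]
        have h4 := norm_sub_norm_le ((r : ℂ) * Complex.exp (θ * Complex.I)) z
        rw [h3] at h4
        exact h4
      have h5 : 0 < r - ‖z‖ := by linarith
      have h6 : (‖(r : ℂ) * Complex.exp (θ * Complex.I) - z‖)⁻¹ ≤ (r - ‖z‖)⁻¹ :=
        inv_anti₀ h5 h2
      have h7 : 0 ≤ ‖Θ (r * Complex.exp (θ * Complex.I))‖ ^ n := by positivity
      calc r * ((‖(r : ℂ) * Complex.exp (θ * Complex.I) - z‖)⁻¹ *
            ‖Θ (r * Complex.exp (θ * Complex.I))‖ ^ n)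
          ≤ r * ((r - ‖z‖)⁻¹ * ‖Θ (r * Complex.exp (θ * Complex.I))‖ ^ n) := by gcongr
        _ = (r / (r - ‖z‖)) * ‖Θ (r * Complex.exp (θ * Complex.I))‖ ^ n := by
            field_simp
    · exact (hcont.const_mul _).intervalIntegrable _ _
  rw [hn, intervalIntegral.integral_const_mul] at hb
  rw [inv_mul_eq_div, le_div_iff₀ hpi]
  linarith

/-- an inner function is bounded by one -/
lemma IsInner.norm_le_one {Θ : ℂ → ℂ} (h : IsInner Θ) {z : ℂ} (hz : ‖z‖ < 1) : ‖Θ z‖ ≤ 1 := by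
  obtain ⟨⟨hd, M, hM⟩, -⟩ := id h
  have hM0 : 0 ≤ M := (norm_nonneg _).trans (hM z hz)
  have hpi : 0 < 2 * Real.pi := by positivity
  have key : ∀ n : ℕ, ‖Θ z‖ ^ n ≤ 1 / (1 - ‖z‖) := by
    intro n
    have hlim : Tendsto (fun r : ℝ => ∫ θ in (0 : ℝ)..2 * Real.pi,
        ‖Θ (r * Complex.exp (θ * Complex.I))‖ ^ n) (𝓝[<] 1)
        (𝓝 (∫ θ in (0 : ℝ)..2 * Real.pi, (1 : ℝ))) := by
      refine intervalIntegral.tendsto_integral_filter_of_dominated_convergence
        (fun _ => M ^ n) ?_ ?_ ?_ ?_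
      · filter_upwards [Ioo_mem_nhdsLT (show (0 : ℝ) < 1 by norm_num)] with r hr
        apply Continuous.aestronglyMeasurable
        have h1 : Continuous (fun θ : ℝ => Θ (r * Complex.exp (θ * Complex.I))) := by
          apply ContinuousOn.comp_continuous hd.continuousOn (by fun_prop)
          intro θ
          rw [mem_ball_zero_iff, norm_mul, Complex.norm_exp_ofReal_mul_I, Complex.norm_real,
            Real.norm_of_nonneg hr.1.le]
          linarith [hr.2]
        exact h1.norm.pow n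
      · filter_upwards [Ioo_mem_nhdsLT (show (0 : ℝ) < 1 by norm_num)] with r hr
        refine Eventually.of_forall (fun θ _ => ?_)
        rw [Real.norm_of_nonneg (by positivity)]
        apply pow_le_pow_left₀ (norm_nonneg _)
        apply hM
        rw [norm_mul, Complex.norm_exp_ofReal_mul_I, Complex.norm_real,
            Real.norm_of_nonneg hr.1.le]
        linarith [hr.2]
      · exact continuous_const.intervalIntegrable _ _
      · filter_upwards [h.ae_norm] with θ hθ _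
        simpa using hθ.pow n
    have hlim2 : Tendsto (fun r : ℝ => (2 * Real.pi)⁻¹ * ((r / (r - ‖z‖)) *
        ∫ θ in (0 : ℝ)..2 * Real.pi, ‖Θ (r * Complex.exp (θ * Complex.I))‖ ^ n)) (𝓝[<] 1)
        (𝓝 ((2 * Real.pi)⁻¹ * ((1 / (1 - ‖z‖)) *
          ∫ θ in (0 : ℝ)..2 * Real.pi, (1 : ℝ)))) := by
      refine Tendsto.const_mul _ (Tendsto.mul ?_ hlim)
      apply Tendsto.mono_left _ nhdsWithin_le_nhds
      apply ContinuousAt.tendsto (f := fun r : ℝ => r / (r - ‖z‖))
      apply ContinuousAt.div continuousAt_id (continuousAt_id.sub continuousAt_const)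
      have : (0 : ℝ) < 1 - ‖z‖ := by linarith
      exact this.ne'
    have hval : (2 * Real.pi)⁻¹ * ((1 / (1 - ‖z‖)) *
          ∫ θ in (0 : ℝ)..2 * Real.pi, (1 : ℝ)) = 1 / (1 - ‖z‖) := by
      rw [intervalIntegral.integral_const, smul_eq_mul, sub_zero, mul_one]
      field_simp
    rw [hval] at hlim2
    refine ge_of_tendsto hlim2 ?_
    filter_upwards [Ioo_mem_nhdsLT hz] with r hr
    exact circle_pow_bound hd hr.1 hr.2 n
  by_contra hcon
  push Not at hcon
  have h2 := tendsto_pow_atTop_atTop_of_one_lt hcon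
  obtain ⟨n, hn⟩ := (h2.eventually_gt_atTop (1 / (1 - ‖z‖))).exists
  exact absurd (key n) (not_le.mpr hn)

end Pool.Agent.Helper44.BI
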