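import Pool.Agent.Helper44.BI.Box

/-!
# Log-polar coordinates
-/

namespace Pool.Agent.Helper44.BI

open Metric Set Filter Topology MeasureTheory

/-- the map `ζ ↦ exp(i ζ)` -/
noncomputable def E (ζ : ℂ) : ℂ := Complex.exp (Complex.I * ζ)

lemma norm_E (ζ : ℂ) : ‖E ζ‖ = Real.exp (-ζ.im) := by
  unfold E
  rw [Complex.norm_exp]
  simp

lemma norm_E_lt_one {ζ : ℂ} (h : 0 < ζ.im) : ‖E ζ‖ < 1 := by
  rw [norm_E, Real.exp_lt_one_iff]; linarith

lemma E_ne_zero (ζ : ℂ) : E ζ ≠ 0 := Complex.exp_ne_zero _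

lemma E_surj {z : ℂ} (hz : z ≠ 0) : ∃ x : ℝ, z = E (x + (-Real.log ‖z‖ : ℝ) * Complex.I) := by
  refine ⟨z.arg, ?_⟩
  unfold E
  have h1 : Complex.I * ((z.arg : ℂ) + ((-Real.log ‖z‖ : ℝ) : ℂ) * Complex.I) =
      ((Real.log ‖z‖ : ℝ) : ℂ) + z.arg * Complex.I := by
    push_cast
    ring_nf
    rw [Complex.I_sq]
    ring
  rw [h1, Complex.exp_add, ← Complex.ofReal_exp, Real.exp_log (norm_pos_iff.mpr hz)]
  exact (Complex.norm_mul_exp_arg_mul_I z).symm

lemma E_real (x y : ℝ) : E (x + y * Complex.I) =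
    (Real.exp (-y) : ℝ) * Complex.exp (x * Complex.I) := by
  unfold E
  rw [Complex.ofReal_exp, ← Complex.exp_add]
  congr 1
  push_cast
  ring_nf
  rw [Complex.I_sq]
  ring

lemma differentiable_E : Differentiable ℂ E := by
  unfold E
  fun_prop

lemma hasDerivAt_E (ζ : ℂ) : HasDerivAt E (E ζ * Complex.I) ζ := by
  unfold E
  have h : HasDerivAt (fun ζ : ℂ => Complex.I * ζ) (Complex.I * 1) ζ :=
    (hasDerivAt_id ζ).const_mul Complex.I
  rw [mul_one] at h
  exact h.cexp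

lemma diff_comp_E {f : ℂ → ℂ} (hf : DifferentiableOn ℂ f (ball 0 1)) :
    DifferentiableOn ℂ (fun ζ => f (E ζ)) {ζ | 0 < ζ.im} := by
  apply hf.comp differentiable_E.differentiableOn
  intro ζ hζ
  rw [mem_ball_zero_iff]
  exact norm_E_lt_one hζ

/-- the Bloch bound holds on the whole punctured disc -/
lemma bloch_all {ω : ℝ → ℝ} {f : ℂ → ℂ} (hω : IsContinuityModulus ω) (hf : MemBloch ω f) :
    ∃ C > 0, ∀ z : ℂ, z ≠ 0 → ‖z‖ < 1 → (1 - ‖z‖) * ‖deriv f z‖ ≤ C * ω (1 - ‖z‖) := by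
  obtain ⟨hd, C, hC, r, hr, hb⟩ := hf
  have hcd : ContinuousOn (deriv f) (closedBall 0 r) :=
    ((hd.deriv isOpen_ball).continuousOn).mono (closedBall_subset_ball hr.2)
  obtain ⟨B, hB⟩ := (isCompact_closedBall (0 : ℂ) r).exists_bound_of_continuousOn hcd
  have hB0 : 0 ≤ B := (norm_nonneg _).trans (hB 0 (mem_closedBall_self hr.1.le))
  have hωr : 0 < ω (1 - r) := hω.pos _ ⟨by linarith [hr.2], by linarith [hr.1]⟩
  refine ⟨max C (B / ω (1 - r)), lt_max_of_lt_left hC, ?_⟩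
  intro z hz hz1
  have hzpos : 0 < ‖z‖ := norm_pos_iff.mpr hz
  have hωz : 0 < ω (1 - ‖z‖) := hω.pos _ ⟨by linarith, by linarith⟩
  rcases lt_or_ge r ‖z‖ with h | h
  · refine (hb z h hz1).trans ?_
    exact mul_le_mul_of_nonneg_right (le_max_left _ _) hωz.le
  · have h1 : ‖deriv f z‖ ≤ B := hB z (mem_closedBall_zero_iff.mpr h)
    have h2 : ω (1 - r) ≤ ω (1 - ‖z‖) :=
      hω.monotoneOn ⟨by linarith [hr.2], by linarith [hr.1]⟩ ⟨by linarith, by linarith⟩
        (by linarith)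
    calc (1 - ‖z‖) * ‖deriv f z‖ ≤ 1 * B :=
          mul_le_mul (by linarith) h1 (norm_nonneg _) (by norm_num)
      _ = B / ω (1 - r) * ω (1 - r) := by field_simp
      _ ≤ B / ω (1 - r) * ω (1 - ‖z‖) := by
          apply mul_le_mul_of_nonneg_left h2
          positivity
      _ ≤ _ := mul_le_mul_of_nonneg_right (le_max_right _ _) hωz.le

/-- derivative bound in log-polar coordinates -/
lemma logpolar_deriv {ω : ℝ → ℝ} {f : ℂ → ℂ} {C : ℝ}
    (hω : IsContinuityModulus ω)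
    (hd : DifferentiableOn ℂ f (ball 0 1))
    (hb : ∀ z : ℂ, z ≠ 0 → ‖z‖ < 1 → (1 - ‖z‖) * ‖deriv f z‖ ≤ C * ω (1 - ‖z‖))
    {ζ : ℂ} (hζ : 0 < ζ.im) :
    ‖deriv (fun ζ => f (E ζ)) ζ‖ ≤ C * ω (1 - Real.exp (-ζ.im)) / ζ.im := by
  have hz1 : ‖E ζ‖ < 1 := norm_E_lt_one hζ
  have hfd : HasDerivAt f (deriv f (E ζ)) (E ζ) :=
    (hd.differentiableAt (isOpen_ball.mem_nhds (mem_ball_zero_iff.mpr hz1))).hasDerivAt
  have hcomp : HasDerivAt (fun ζ => f (E ζ)) (deriv f (E ζ) * (E ζ * Complex.I)) ζ :=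
    HasDerivAt.comp ζ hfd (hasDerivAt_E ζ)
  rw [hcomp.deriv, norm_mul, norm_mul, Complex.norm_I, mul_one]
  have h1 := hb (E ζ) (E_ne_zero ζ) hz1
  rw [norm_E] at h1 ⊢
  set y := ζ.im
  have he : 0 < Real.exp (-y) := Real.exp_pos _
  have he1 : Real.exp (-y) < 1 := by rw [Real.exp_lt_one_iff]; linarith
  have hwpos : 0 < ω (1 - Real.exp (-y)) := hω.pos _ ⟨by linarith, by linarith⟩
  have hy : y * Real.exp (-y) ≤ 1 - Real.exp (-y) := by
    have h2 := Real.add_one_le_exp y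
    have h3 : Real.exp y * Real.exp (-y) = 1 := by rw [← Real.exp_add]; simp
    nlinarith
  rw [le_div_iff₀ hζ]
  calc ‖deriv f (E ζ)‖ * Real.exp (-y) * y = ‖deriv f (E ζ)‖ * (y * Real.exp (-y)) := by ring
    _ ≤ ‖deriv f (E ζ)‖ * (1 - Real.exp (-y)) :=
        mul_le_mul_of_nonneg_left hy (norm_nonneg _)
    _ = (1 - Real.exp (-y)) * ‖deriv f (E ζ)‖ := by ring
    _ ≤ _ := h1

/-- growth conditions in log-polar coordinates -/
structure LogGrowth (w : ℝ → ℝ) (α K : ℝ) : Prop where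
  α_pos : 0 < α
  K_pos : 0 < K
  pos : ∀ y, 0 < y → y ≤ 1 / 2 → 0 < w y
  mono : ∀ y₁ y₂, 0 < y₁ → y₁ ≤ y₂ → y₂ ≤ 1 / 2 → w y₁ ≤ w y₂
  upper : ∀ y₁ y₂, 0 < y₁ → y₁ ≤ y₂ → y₂ ≤ 1 / 2 → w y₁ ≤ K * (y₁ / y₂) ^ α * w y₂
  lower : ∀ y₁ y₂, 0 < y₁ → y₁ ≤ y₂ → y₂ ≤ 1 / 2 → w y₂ ≤ K * (y₂ / y₁) * w y₁

lemma one_sub_exp_bounds {y : ℝ} (hy : 0 < y) (hy2 : y ≤ 1 / 2) :
    y / 2 ≤ 1 - Real.exp (-y) ∧ 1 - Real.exp (-y) ≤ y := by
  constructor
  · have h1 := Real.add_one_le_exp y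
    have h2 : Real.exp (-y) = (Real.exp y)⁻¹ := Real.exp_neg y
    rw [h2]
    have h3 : (Real.exp y)⁻¹ ≤ (y + 1)⁻¹ := inv_anti₀ (by linarith) h1
    have h4 : (y + 1)⁻¹ ≤ 1 - y / 2 := by
      rw [inv_le_iff_one_le_mul₀ (by linarith)]
      nlinarith
    linarith
  · have := Real.add_one_le_exp (-y)
    linarith

lemma logGrowth_of {ω : ℝ → ℝ} {α C : ℝ} (hω : IsContinuityModulus ω) (hα : 0 < α) (hC : 0 < C)
    (h : ∀ s t : ℝ, 0 < s → s ≤ t → t ≤ 1 / 2 →
      (s / t) * ω t ≤ C * ω s ∧ ω s ≤ C * (s / t) ^ α * ω t) :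
    LogGrowth (fun y => ω (1 - Real.exp (-y))) α (C * 2 ^ α + 2 * C) := by
  have hexp : ∀ y : ℝ, 0 < y → y ≤ 1 / 2 → (1 - Real.exp (-y)) ∈ Ioo (0 : ℝ) 1 := by
    intro y hy hy2
    have := (one_sub_exp_bounds hy hy2).1
    have := Real.exp_pos (-y)
    constructor <;> linarith
  have h2α : 0 < (2 : ℝ) ^ α := by positivity
  constructor
  · exact hα
  · positivity
  · intro y hy hy2
    exact hω.pos _ (hexp y hy hy2)
  · intro y₁ y₂ h1 h12 h2
    apply hω.monotoneOn (hexp _ h1 (by linarith)) (hexp _ (by linarith) h2)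
    have : Real.exp (-y₂) ≤ Real.exp (-y₁) := Real.exp_le_exp.mpr (by linarith)
    linarith
  · intro y₁ y₂ h1 h12 h2
    have hy2 : 0 < y₂ := by linarith
    obtain ⟨a1, a2⟩ := one_sub_exp_bounds h1 (by linarith)
    obtain ⟨b1, b2⟩ := one_sub_exp_bounds hy2 h2
    have hle : 1 - Real.exp (-y₁) ≤ 1 - Real.exp (-y₂) := by
      have : Real.exp (-y₂) ≤ Real.exp (-y₁) := Real.exp_le_exp.mpr (by linarith)
      linarith
    have hpos2 := hω.pos _ (hexp y₂ hy2 h2)
    have h3 := (h (1 - Real.exp (-y₁)) (1 - Real.exp (-y₂)) (hexp _ h1 (by linarith)).1 hle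
      (by linarith)).2
    refine h3.trans ?_
    apply mul_le_mul_of_nonneg_right _ hpos2.le
    have h4 : (1 - Real.exp (-y₁)) / (1 - Real.exp (-y₂)) ≤ 2 * (y₁ / y₂) := by
      rw [div_le_iff₀ (by linarith)]
      have : 2 * (y₁ / y₂) * (1 - Real.exp (-y₂)) ≥ 2 * (y₁ / y₂) * (y₂ / 2) := by
        apply mul_le_mul_of_nonneg_left b1; positivity
      have h5 : 2 * (y₁ / y₂) * (y₂ / 2) = y₁ := by field_simp
      linarith
    have h5 : ((1 - Real.exp (-y₁)) / (1 - Real.exp (-y₂))) ^ α ≤ 2 ^ α * (y₁ / y₂) ^ α := by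
      rw [← Real.mul_rpow (by norm_num) (by positivity)]
      apply Real.rpow_le_rpow _ h4 hα.le
      apply div_nonneg <;> linarith
    have h6 : 0 < (y₁ / y₂) ^ α := by positivity
    nlinarith
  · intro y₁ y₂ h1 h12 h2
    have hy2 : 0 < y₂ := by linarith
    obtain ⟨a1, a2⟩ := one_sub_exp_bounds h1 (by linarith)
    obtain ⟨b1, b2⟩ := one_sub_exp_bounds hy2 h2
    have hle : 1 - Real.exp (-y₁) ≤ 1 - Real.exp (-y₂) := by
      have : Real.exp (-y₂) ≤ Real.exp (-y₁) := Real.exp_le_exp.mpr (by linarith)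
      linarith
    have hpos1 := hω.pos _ (hexp y₁ h1 (by linarith))
    have hpos2 := hω.pos _ (hexp y₂ hy2 h2)
    have h3 := (h (1 - Real.exp (-y₁)) (1 - Real.exp (-y₂)) (hexp _ h1 (by linarith)).1 hle
      (by linarith)).1
    set s := 1 - Real.exp (-y₁)
    set t := 1 - Real.exp (-y₂)
    have hs : 0 < s := by linarith
    have ht : 0 < t := by linarith
    have h4 : ω t ≤ C * (t / s) * ω s := by
      have : ω t = (t / s) * ((s / t) * ω t) := by field_simp
      rw [this]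
      calc (t / s) * ((s / t) * ω t) ≤ (t / s) * (C * ω s) :=
            mul_le_mul_of_nonneg_left h3 (by positivity)
        _ = C * (t / s) * ω s := by ring
    have h5 : t / s ≤ 2 * (y₂ / y₁) := by
      rw [div_le_iff₀ hs]
      have : 2 * (y₂ / y₁) * s ≥ 2 * (y₂ / y₁) * (y₁ / 2) := by
        apply mul_le_mul_of_nonneg_left a1; positivity
      have h5 : 2 * (y₂ / y₁) * (y₁ / 2) = y₂ := by field_simp
      linarith
    refine h4.trans ?_
    apply mul_le_mul_of_nonneg_right _ hpos1.le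
    have h6 : 0 < y₂ / y₁ := by positivity
    have h7 : 0 < C * 2 ^ α := by positivity
    nlinarith

/-- vertical variation -/
lemma vertical {w : ℝ → ℝ} {α K : ℝ} (hw : LogGrowth w α K) {F : ℂ → ℂ} {C : ℝ} (hC : 0 < C)
    (hF : DifferentiableOn ℂ F {ζ | 0 < ζ.im})
    (hb : ∀ ζ : ℂ, 0 < ζ.im → ‖deriv F ζ‖ ≤ C * w ζ.im / ζ.im) {x y₁ y₂ : ℝ} (h1 : 0 < y₁)
    (h12 : y₁ ≤ y₂) (h2 : y₂ ≤ 1 / 2) :
    ‖F (x + y₂ * Complex.I) - F (x + y₁ * Complex.I)‖ ≤ C * K / α * w y₂ := by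
  have hα := hw.α_pos
  have hK := hw.K_pos
  have hy2 : 0 < y₂ := by linarith
  have hwy2 := hw.pos y₂ hy2 h2
  set A : ℝ := C * K * w y₂ * y₂ ^ (-α) with hA
  have hA0 : 0 < A := by positivity
  have hopen : IsOpen {ζ : ℂ | 0 < ζ.im} := isOpen_lt continuous_const Complex.continuous_im
  have hder : ∀ y : ℝ, 0 < y → HasDerivAt
      (fun y : ℝ => F (x + y * Complex.I) - F (x + y₁ * Complex.I))
      (deriv F (x + y * Complex.I) * Complex.I) y := by
    intro y hy
    have h3 : HasDerivAt F (deriv F (x + y * Complex.I)) (x + y * Complex.I) := by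
      apply (hF.differentiableAt (hopen.mem_nhds _)).hasDerivAt
      simp [hy]
    have h4 : HasDerivAt (fun y : ℝ => (x + y * Complex.I : ℂ)) Complex.I y := by
      have h5 : HasDerivAt (fun y : ℝ => ((y : ℝ) : ℂ)) 1 y := Complex.ofRealCLM.hasDerivAt
      simpa using (h5.mul_const Complex.I).const_add (x : ℂ)
    exact (HasDerivAt.comp y h3 h4).sub_const _
  have hmain := image_norm_le_of_norm_deriv_right_le_deriv_boundary'
    (f := fun y : ℝ => F (x + y * Complex.I) - F (x + y₁ * Complex.I))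
    (f' := fun y : ℝ => deriv F (x + y * Complex.I) * Complex.I) (a := y₁) (b := y₂)
    (B := fun y => A * (y ^ α / α)) (B' := fun y => A * y ^ (α - 1))
    (by
      intro y hy
      exact (hder y (by linarith [hy.1])).continuousAt.continuousWithinAt)
    (by
      intro y hy
      exact (hder y (by linarith [hy.1])).hasDerivWithinAt)
    (by
      simp only [sub_self, norm_zero]
      positivity)
    (by
      intro y hy
      have hy0 : 0 < y := by linarith [hy.1]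
      apply ContinuousAt.continuousWithinAt
      apply ContinuousAt.mul continuousAt_const
      apply ContinuousAt.div_const
      exact Real.continuousAt_rpow_const y α (Or.inl hy0.ne'))
    (by
      intro y hy
      have hy0 : 0 < y := by linarith [hy.1]
      apply HasDerivAt.hasDerivWithinAt
      have h3 := ((Real.hasDerivAt_rpow_const (x := y) (p := α) (Or.inl hy0.ne')).div_const
        α).const_mul A
      refine h3.congr_deriv ?_
      field_simp)
    (by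
      intro y hy
      have hy0 : 0 < y := by linarith [hy.1]
      have hyy : y ≤ y₂ := hy.2.le
      rw [norm_mul, Complex.norm_I, mul_one]
      have h3 := hb (x + y * Complex.I) (by simp [hy0])
      have him : (x + y * Complex.I : ℂ).im = y := by simp
      rw [him] at h3
      refine h3.trans ?_
      have h4 := hw.upper y y₂ hy0 hyy h2
      rw [div_le_iff₀ hy0]
      have h5 : y ^ (α - 1) * y = y ^ α := by
        rw [← Real.rpow_add_one hy0.ne']
        ring_nf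
      have h6 : (y / y₂) ^ α = y ^ α * y₂ ^ (-α) := by
        rw [Real.div_rpow hy0.le hy2.le, Real.rpow_neg hy2.le]
        field_simp
      rw [h6] at h4
      calc C * w y ≤ C * (K * (y ^ α * y₂ ^ (-α)) * w y₂) :=
            mul_le_mul_of_nonneg_left h4 hC.le
        _ = A * (y ^ (α - 1) * y) := by rw [h5, hA]; ring
        _ = A * y ^ (α - 1) * y := by ring)
    (right_mem_Icc.mpr h12)
  refine hmain.trans (le_of_eq ?_)
  rw [hA, Real.rpow_neg hy2.le]
  field_simp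

/-- horizontal variation -/
lemma horizontal {w : ℝ → ℝ} {F : ℂ → ℂ} {C : ℝ}
    (hF : DifferentiableOn ℂ F {ζ | 0 < ζ.im})
    (hb : ∀ ζ : ℂ, 0 < ζ.im → ‖deriv F ζ‖ ≤ C * w ζ.im / ζ.im) {x₁ x₂ y : ℝ} (h1 : 0 < y) :
    ‖F (x₂ + y * Complex.I) - F (x₁ + y * Complex.I)‖ ≤ C * w y / y * |x₂ - x₁| := by
  have hopen : IsOpen {ζ : ℂ | 0 < ζ.im} := isOpen_lt continuous_const Complex.continuous_im
  have hder : ∀ x : ℝ, HasDerivAt (fun x : ℝ => F (x + y * Complex.I))
      (deriv F (x + y * Complex.I)) x := by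
    intro x
    have h3 : HasDerivAt F (deriv F (x + y * Complex.I)) (x + y * Complex.I) := by
      apply (hF.differentiableAt (hopen.mem_nhds _)).hasDerivAt
      simp [h1]
    have h4 : HasDerivAt (fun x : ℝ => (x + y * Complex.I : ℂ)) 1 x := by
      have h5 : HasDerivAt (fun x : ℝ => ((x : ℝ) : ℂ)) 1 x := Complex.ofRealCLM.hasDerivAt
      simpa using h5.add_const (y * Complex.I : ℂ)
    have h5 := HasDerivAt.comp x h3 h4
    rw [mul_one] at h5
    exact h5
  have := Convex.norm_image_sub_le_of_norm_hasDerivWithin_le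
    (f := fun x : ℝ => F (x + y * Complex.I)) (f' := fun x => deriv F (x + y * Complex.I))
    (s := univ) (x := x₁) (y := x₂) (C := C * w y / y)
    (fun x _ => (hder x).hasDerivWithinAt)
    (fun x _ => by
      have h3 := hb (x + y * Complex.I) (by simp [h1])
      have him : (x + y * Complex.I : ℂ).im = y := by simp
      rwa [him] at h3) convex_univ (mem_univ _) (mem_univ _)
  simpa using this

end Pool.Agent.Helper44.BI
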