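import Pool.Agent.Helper44.BI.Nec1

/-!
# The automorphisms `Φ_t(z) = (z - b) / (1 - b z)`, `b = 1 - t`
-/

namespace Pool.Agent.Helper44.BI

open Metric Set Filter Topology

/-- the automorphism sending `1 - t` to `0` -/
noncomputable def Ph (t : ℝ) (z : ℂ) : ℂ :=
  (z - ((1 - t : ℝ) : ℂ)) / (1 - ((1 - t : ℝ) : ℂ) * z)

/-- its inverse -/
noncomputable def Ps (t : ℝ) (w : ℂ) : ℂ :=
  (w + ((1 - t : ℝ) : ℂ)) / (1 + ((1 - t : ℝ) : ℂ) * w)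

section
variable {t : ℝ}

lemma norm_b (_ : 0 < t) (h1 : t < 1) : ‖((1 - t : ℝ) : ℂ)‖ = 1 - t := by
  rw [Complex.norm_real, Real.norm_of_nonneg (by linarith)]

lemma norm_b_lt (h0 : 0 < t) (h1 : t < 1) : ‖((1 - t : ℝ) : ℂ)‖ < 1 := by
  rw [norm_b h0 h1]; linarith

lemma ph_den (h0 : 0 < t) (h1 : t < 1) {z : ℂ} (hz : ‖z‖ ≤ 1) :
    t ≤ ‖1 - ((1 - t : ℝ) : ℂ) * z‖ := by
  have h := den_lower (α := ((1 - t : ℝ) : ℂ)) hz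
  rw [Complex.conj_ofReal, norm_b h0 h1] at h
  linarith

lemma ph_den_ne (h0 : 0 < t) (h1 : t < 1) {z : ℂ} (hz : ‖z‖ ≤ 1) :
    1 - ((1 - t : ℝ) : ℂ) * z ≠ 0 := by
  rw [← norm_pos_iff]
  exact lt_of_lt_of_le h0 (ph_den h0 h1 hz)

lemma ps_den_ne (h0 : 0 < t) (h1 : t < 1) {w : ℂ} (hw : ‖w‖ ≤ 1) :
    1 + ((1 - t : ℝ) : ℂ) * w ≠ 0 := by
  have := ph_den_ne h0 h1 (z := -w) (by rwa [norm_neg])
  intro h
  apply this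
  rw [← h]; ring

lemma norm_ph (z : ℂ) : ‖Ph t z‖ = pd ((1 - t : ℝ) : ℂ) z := by
  unfold Ph pd
  rw [Complex.conj_ofReal, norm_div, norm_div, norm_sub_rev]

lemma norm_ps (w : ℂ) : ‖Ps t w‖ = pd (-((1 - t : ℝ) : ℂ)) w := by
  unfold Ps pd
  rw [map_neg, Complex.conj_ofReal, norm_div, norm_div]
  congr 1
  · rw [← norm_neg]; congr 1; ring
  · congr 1; ring

lemma norm_ph_le (h0 : 0 < t) (h1 : t < 1) {z : ℂ} (hz : ‖z‖ ≤ 1) : ‖Ph t z‖ ≤ 1 := by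
  rw [norm_ph]
  exact pd_le_one (norm_b_lt h0 h1) hz

lemma pd_lt_one' {α z : ℂ} (hα : ‖α‖ < 1) (hz : ‖z‖ < 1) : pd α z < 1 := by
  have h1 := one_sub_pd_sq hα hz.le
  have h2 : 0 < (1 - ‖α‖ ^ 2) * (1 - ‖z‖ ^ 2) / ‖1 - (starRingEnd ℂ) α * z‖ ^ 2 := by
    apply div_pos
    · apply mul_pos
      · nlinarith [norm_nonneg α]
      · nlinarith [norm_nonneg z]
    · have := norm_pos_iff.mpr (den_ne hα hz.le)
      positivity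
  nlinarith [pd_nonneg α z]

lemma norm_ph_lt (h0 : 0 < t) (h1 : t < 1) {z : ℂ} (hz : ‖z‖ < 1) : ‖Ph t z‖ < 1 := by
  rw [norm_ph]
  exact pd_lt_one' (norm_b_lt h0 h1) hz

lemma norm_ps_lt (h0 : 0 < t) (h1 : t < 1) {w : ℂ} (hw : ‖w‖ < 1) : ‖Ps t w‖ < 1 := by
  rw [norm_ps]
  exact pd_lt_one' (by rw [norm_neg]; exact norm_b_lt h0 h1) hw

lemma ph_one (h0 : 0 < t) : Ph t 1 = 1 := by
  unfold Ph
  rw [mul_one, div_self]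
  have : (1 : ℂ) - ((1 - t : ℝ) : ℂ) = (t : ℂ) := by push_cast; ring
  rw [this]
  exact_mod_cast h0.ne'

lemma ph_b : Ph t ((1 - t : ℝ) : ℂ) = 0 := by
  unfold Ph
  rw [sub_self, zero_div]

lemma ps_ph (h0 : 0 < t) (h1 : t < 1) {z : ℂ} (hz : ‖z‖ ≤ 1) : Ps t (Ph t z) = z := by
  have hd := ph_den_ne h0 h1 hz
  have hd2 := ps_den_ne h0 h1 (norm_ph_le h0 h1 hz)
  unfold Ps
  rw [div_eq_iff hd2]
  have key : Ph t z * (1 - ((1 - t : ℝ) : ℂ) * z) = z - ((1 - t : ℝ) : ℂ) := by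
    unfold Ph
    rw [div_mul_cancel₀ _ hd]
  linear_combination key

lemma hasDerivAt_ph (h0 : 0 < t) (h1 : t < 1) {z : ℂ} (hz : ‖z‖ ≤ 1) :
    HasDerivAt (Ph t) ((1 - ((1 - t : ℝ) : ℂ) ^ 2) / (1 - ((1 - t : ℝ) : ℂ) * z) ^ 2) z := by
  have hd := ph_den_ne h0 h1 hz
  have e1 : HasDerivAt (fun z : ℂ => z - ((1 - t : ℝ) : ℂ)) 1 z :=
    (hasDerivAt_id z).sub_const _
  have e2 : HasDerivAt (fun z : ℂ => 1 - ((1 - t : ℝ) : ℂ) * z) (-((1 - t : ℝ) : ℂ)) z := by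
    have := ((hasDerivAt_id z).const_mul ((1 - t : ℝ) : ℂ)).const_sub 1
    simpa using this
  have e3 := e1.div e2 hd
  have e4 : (1 * (1 - ((1 - t : ℝ) : ℂ) * z) - (z - ((1 - t : ℝ) : ℂ)) * -((1 - t : ℝ) : ℂ)) =
      1 - ((1 - t : ℝ) : ℂ) ^ 2 := by ring
  rw [e4] at e3
  exact e3

lemma norm_deriv_ph (h0 : 0 < t) (h1 : t < 1) {z : ℂ} (hz : ‖z‖ ≤ 1) :
    ‖deriv (Ph t) z‖ = (1 - (1 - t) ^ 2) / ‖1 - ((1 - t : ℝ) : ℂ) * z‖ ^ 2 := by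
  rw [(hasDerivAt_ph h0 h1 hz).deriv, norm_div, norm_pow]
  congr 1
  have : (1 : ℂ) - ((1 - t : ℝ) : ℂ) ^ 2 = ((1 - (1 - t) ^ 2 : ℝ) : ℂ) := by push_cast; ring
  rw [this, Complex.norm_real, Real.norm_of_nonneg (by nlinarith)]

lemma norm_deriv_ph_le (h0 : 0 < t) (h1 : t < 1) {z : ℂ} (hz : ‖z‖ ≤ 1) :
    ‖deriv (Ph t) z‖ ≤ 2 / t := by
  rw [norm_deriv_ph h0 h1 hz]
  have hd := ph_den h0 h1 hz
  calc (1 - (1 - t) ^ 2) / ‖1 - ((1 - t : ℝ) : ℂ) * z‖ ^ 2 ≤ (2 * t) / t ^ 2 := by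
        apply div_le_div₀ (by positivity) (by nlinarith) (by positivity)
        exact pow_le_pow_left₀ h0.le hd 2
    _ = 2 / t := by field_simp

lemma mul_norm_deriv_ph (h0 : 0 < t) (h1 : t < 1) {z : ℂ} (hz : ‖z‖ ≤ 1) :
    (1 - ‖z‖ ^ 2) * ‖deriv (Ph t) z‖ = 1 - ‖Ph t z‖ ^ 2 := by
  rw [norm_deriv_ph h0 h1 hz, norm_ph, one_sub_pd_sq (norm_b_lt h0 h1) hz, norm_b h0 h1,
    Complex.conj_ofReal]
  ring

lemma pd_ps (h0 : 0 < t) (h1 : t < 1) {w z : ℂ} (hw : ‖w‖ < 1) (hz : ‖z‖ ≤ 1) :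
    pd (Ps t w) z = pd w (Ph t z) := by
  have hd := ph_den_ne h0 h1 hz
  have hd1 := ps_den_ne h0 h1 hw.le
  have hwc : ‖(starRingEnd ℂ) w‖ ≤ 1 := by rw [RCLike.norm_conj]; exact hw.le
  have hd2 := ps_den_ne h0 h1 hwc
  have hn : ‖1 + ((1 - t : ℝ) : ℂ) * (starRingEnd ℂ) w‖ = ‖1 + ((1 - t : ℝ) : ℂ) * w‖ := by
    rw [← RCLike.norm_conj (1 + ((1 - t : ℝ) : ℂ) * w)]
    simp
  have hA : Ps t w - z = (w + ((1 - t : ℝ) : ℂ) - z - ((1 - t : ℝ) : ℂ) * w * z) /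
      (1 + ((1 - t : ℝ) : ℂ) * w) := by
    unfold Ps
    rw [eq_div_iff hd1, sub_mul, div_mul_cancel₀ _ hd1]
    ring
  have hB : 1 - (starRingEnd ℂ) (Ps t w) * z =
      (1 + ((1 - t : ℝ) : ℂ) * (starRingEnd ℂ) w - (starRingEnd ℂ) w * z -
        ((1 - t : ℝ) : ℂ) * z) / (1 + ((1 - t : ℝ) : ℂ) * (starRingEnd ℂ) w) := by
    unfold Ps
    rw [map_div₀, map_add, map_add, map_mul, Complex.conj_ofReal, map_one, eq_div_iff hd2,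
      sub_mul, div_mul_eq_mul_div, div_mul_cancel₀ _ hd2]
    ring
  have hC : w - Ph t z = (w + ((1 - t : ℝ) : ℂ) - z - ((1 - t : ℝ) : ℂ) * w * z) /
      (1 - ((1 - t : ℝ) : ℂ) * z) := by
    unfold Ph
    rw [eq_div_iff hd, sub_mul, div_mul_cancel₀ _ hd]
    ring
  have hD : 1 - (starRingEnd ℂ) w * Ph t z =
      (1 + ((1 - t : ℝ) : ℂ) * (starRingEnd ℂ) w - (starRingEnd ℂ) w * z -
        ((1 - t : ℝ) : ℂ) * z) / (1 - ((1 - t : ℝ) : ℂ) * z) := by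
    unfold Ph
    rw [eq_div_iff hd, sub_mul, ← mul_div_assoc, div_mul_cancel₀ _ hd]
    ring
  unfold pd
  rw [hA, hB, hC, hD, norm_div, norm_div, norm_div, hn, norm_div, norm_div, norm_div]
  have h3 : ‖1 + ((1 - t : ℝ) : ℂ) * w‖ ≠ 0 := norm_ne_zero_iff.mpr hd1
  have h4 : ‖1 - ((1 - t : ℝ) : ℂ) * z‖ ≠ 0 := norm_ne_zero_iff.mpr hd
  rw [div_div_div_cancel_right₀ h3, div_div_div_cancel_right₀ h4]

lemma one_sub_norm_ps_sq (h0 : 0 < t) (h1 : t < 1) {w : ℂ} (hw : ‖w‖ ≤ 1) :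
    1 - ‖Ps t w‖ ^ 2 = (1 - (1 - t) ^ 2) * (1 - ‖w‖ ^ 2) / ‖1 + ((1 - t : ℝ) : ℂ) * w‖ ^ 2 := by
  rw [norm_ps, one_sub_pd_sq (by rw [norm_neg]; exact norm_b_lt h0 h1) hw, norm_neg, norm_b h0 h1,
    map_neg, Complex.conj_ofReal]
  congr 2
  congr 1
  ring

lemma one_sub_ps (h0 : 0 < t) (h1 : t < 1) {w : ℂ} (hw : ‖w‖ ≤ 1) :
    1 - Ps t w = t * (1 - w) / (1 + ((1 - t : ℝ) : ℂ) * w) := by
  have hd1 := ps_den_ne h0 h1 hw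
  unfold Ps
  rw [eq_div_iff hd1, sub_mul, div_mul_cancel₀ _ hd1]
  push_cast
  ring

/-- lower bound of the denominator -/
lemma ps_den_lower (h0 : 0 < t) (h1 : t ≤ 1 / 256) {w : ℂ} (hw : ‖w‖ ≤ 1)
    (hw1 : 1 / 128 ≤ ‖1 + w‖) : 1 / 256 ≤ ‖1 + ((1 - t : ℝ) : ℂ) * w‖ := by
  have e1 : 1 + ((1 - t : ℝ) : ℂ) * w = (1 + w) - (t : ℂ) * w := by push_cast; ring
  rw [e1]
  have e2 := norm_sub_norm_le (1 + w) ((t : ℂ) * w)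
  rw [norm_mul, Complex.norm_real, Real.norm_of_nonneg h0.le] at e2
  have := norm_nonneg w
  nlinarith

lemma norm_one_sub_ps_le (h0 : 0 < t) (h1 : t ≤ 1 / 256) {w : ℂ} (hw : ‖w‖ ≤ 1)
    (hw1 : 1 / 128 ≤ ‖1 + w‖) : ‖1 - Ps t w‖ ≤ 512 * t := by
  rw [one_sub_ps h0 (by linarith) hw, norm_div, norm_mul, Complex.norm_real,
    Real.norm_of_nonneg h0.le]
  have h2 := ps_den_lower h0 h1 hw hw1
  have h3 : ‖1 - w‖ ≤ 2 := by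
    refine (norm_sub_le _ _).trans ?_
    rw [norm_one]; linarith
  rw [div_le_iff₀ (by linarith)]
  nlinarith [norm_nonneg (1 - w)]

lemma one_sub_norm_ps_le (h0 : 0 < t) (h1 : t ≤ 1 / 256) {w : ℂ} (hw : ‖w‖ < 1)
    (hw1 : 1 / 128 ≤ ‖1 + w‖) : 1 - ‖Ps t w‖ ≤ 131072 * t * (1 - ‖w‖ ^ 2) := by
  have h2 := ps_den_lower h0 h1 hw.le hw1
  have h3 := one_sub_norm_ps_sq h0 (by linarith) hw.le
  have h4 := norm_ps_lt h0 (by linarith) hw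
  have h5 : 1 - ‖Ps t w‖ ≤ 1 - ‖Ps t w‖ ^ 2 := by nlinarith [norm_nonneg (Ps t w)]
  refine h5.trans ?_
  rw [h3]
  have h6 : 0 ≤ 1 - ‖w‖ ^ 2 := by nlinarith [norm_nonneg w]
  calc (1 - (1 - t) ^ 2) * (1 - ‖w‖ ^ 2) / ‖1 + ((1 - t : ℝ) : ℂ) * w‖ ^ 2
      ≤ (2 * t) * (1 - ‖w‖ ^ 2) / (1 / 256) ^ 2 := by
        apply div_le_div₀ (by positivity)
        · exact mul_le_mul_of_nonneg_right (by nlinarith) h6
        · norm_num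
        · exact pow_le_pow_left₀ (by norm_num) h2 2
    _ = 131072 * t * (1 - ‖w‖ ^ 2) := by ring

lemma le_one_sub_norm_ps (h0 : 0 < t) (h1 : t < 1) {w : ℂ} (hw : ‖w‖ < 1) :
    t * (1 - ‖w‖) / 8 ≤ 1 - ‖Ps t w‖ := by
  have h3 := one_sub_norm_ps_sq h0 h1 hw.le
  have h4 := norm_ps_lt h0 h1 hw
  have h5 : 1 - ‖Ps t w‖ ^ 2 ≤ 2 * (1 - ‖Ps t w‖) := by nlinarith [norm_nonneg (Ps t w)]
  have h6 : ‖1 + ((1 - t : ℝ) : ℂ) * w‖ ≤ 2 := by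
    refine (norm_add_le _ _).trans ?_
    rw [norm_one, norm_mul, norm_b h0 h1]
    nlinarith [norm_nonneg w]
  have h7 : 0 < ‖1 + ((1 - t : ℝ) : ℂ) * w‖ := norm_pos_iff.mpr (ps_den_ne h0 h1 hw.le)
  have h8 : t * (1 - ‖w‖) / 4 ≤ 1 - ‖Ps t w‖ ^ 2 := by
    rw [h3, div_le_div_iff₀ (by norm_num) (by positivity)]
    have h9 : ‖1 + ((1 - t : ℝ) : ℂ) * w‖ ^ 2 ≤ 4 := by nlinarith
    have h10 : t ≤ 1 - (1 - t) ^ 2 := by nlinarith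
    have h11 : 1 - ‖w‖ ≤ 1 - ‖w‖ ^ 2 := by nlinarith [norm_nonneg w]
    have h12 : 0 < 1 - ‖w‖ := by linarith
    calc t * (1 - ‖w‖) * ‖1 + ((1 - t : ℝ) : ℂ) * w‖ ^ 2 ≤ t * (1 - ‖w‖) * 4 :=
          mul_le_mul_of_nonneg_left h9 (by positivity)
      _ ≤ (1 - (1 - t) ^ 2) * (1 - ‖w‖ ^ 2) * 4 := by
          apply mul_le_mul_of_nonneg_right _ (by norm_num)
          exact mul_le_mul h10 h11 h12.le (by nlinarith)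
  linarith

end

end Pool.Agent.Helper44.BI
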