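import Pool.Agent.Helper44.BI.Parseval

/-!
# Bounded polynomials with small Bloch norm and large `H^2` norm

A generalised Rudin–Shapiro recursion.
-/

namespace Pool.Agent.Helper44.BI

open Polynomial Metric Set

/-- the pair `(P_k, Q_k)` -/
noncomputable def RS (c s : ℝ) : ℕ → ℂ[X] × ℂ[X]
  | 0 => (0, 1)
  | k + 1 => (C (c : ℂ) * (RS c s k).1 + C (s : ℂ) * (X ^ (8 ^ (k + 1)) * (RS c s k).2),
      -(C (s : ℂ) * (RS c s k).1) + C (c : ℂ) * (X ^ (8 ^ (k + 1)) * (RS c s k).2))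

variable {c s : ℝ}

lemma RS_succ_fst (k : ℕ) : (RS c s (k + 1)).1 =
    C (c : ℂ) * (RS c s k).1 + C (s : ℂ) * (X ^ (8 ^ (k + 1)) * (RS c s k).2) := rfl

lemma RS_succ_snd (k : ℕ) : (RS c s (k + 1)).2 =
    -(C (s : ℂ) * (RS c s k).1) + C (c : ℂ) * (X ^ (8 ^ (k + 1)) * (RS c s k).2) := rfl

/-- degree bounds -/
lemma RS_degree (k : ℕ) : (RS c s k).1.natDegree ≤ 2 * 8 ^ k ∧
    (RS c s k).2.natDegree ≤ 2 * 8 ^ k := by
  induction k with
  | zero => simp [RS]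
  | succ k ih =>
    obtain ⟨h1, h2⟩ := ih
    have h3 : (X ^ (8 ^ (k + 1)) * (RS c s k).2 : ℂ[X]).natDegree ≤ 8 ^ (k + 1) + 2 * 8 ^ k := by
      refine natDegree_mul_le.trans ?_
      rw [natDegree_X_pow]
      omega
    have h4 : 8 ^ (k + 1) + 2 * 8 ^ k ≤ 2 * 8 ^ (k + 1) := by
      rw [pow_succ]; omega
    have h5 : 2 * 8 ^ k ≤ 2 * 8 ^ (k + 1) := by
      rw [pow_succ]; omega
    constructor
    · rw [RS_succ_fst]
      refine (natDegree_add_le _ _).trans (max_le ?_ ?_)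
      · exact (natDegree_C_mul_le _ _).trans (h1.trans h5)
      · exact (natDegree_C_mul_le _ _).trans (h3.trans h4)
    · rw [RS_succ_snd]
      refine (natDegree_add_le _ _).trans (max_le ?_ ?_)
      · rw [natDegree_neg]
        exact (natDegree_C_mul_le _ _).trans (h1.trans h5)
      · exact (natDegree_C_mul_le _ _).trans (h3.trans h4)

lemma RS_eval_zero (k : ℕ) : (RS c s k).1.eval 0 = 0 := by
  induction k with
  | zero => simp [RS]
  | succ k ih =>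
    rw [RS_succ_fst]
    simp [ih]

lemma rot_identity (hcs : c ^ 2 + s ^ 2 = 1) (a b : ℂ) :
    ‖(c : ℂ) * a + (s : ℂ) * b‖ ^ 2 + ‖-((s : ℂ) * a) + (c : ℂ) * b‖ ^ 2 = ‖a‖ ^ 2 + ‖b‖ ^ 2 := by
  simp only [← Complex.normSq_eq_norm_sq, Complex.normSq_apply]
  simp
  have h : (c * a.re + s * b.re) * (c * a.re + s * b.re) +
      (c * a.im + s * b.im) * (c * a.im + s * b.im) +
      ((-(s * a.re) + c * b.re) * (-(s * a.re) + c * b.re) +
      (-(s * a.im) + c * b.im) * (-(s * a.im) + c * b.im)) =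
      (c ^ 2 + s ^ 2) * (a.re * a.re + a.im * a.im + (b.re * b.re + b.im * b.im)) := by ring
  rw [h, hcs, one_mul]

/-- the pair has norm one on the circle -/
lemma RS_circle (hcs : c ^ 2 + s ^ 2 = 1) (k : ℕ) {z : ℂ} (hz : ‖z‖ = 1) :
    ‖(RS c s k).1.eval z‖ ^ 2 + ‖(RS c s k).2.eval z‖ ^ 2 = 1 := by
  induction k with
  | zero => simp [RS]
  | succ k ih =>
    rw [RS_succ_fst, RS_succ_snd]
    simp only [eval_add, eval_mul, eval_C, eval_neg, eval_pow, eval_X]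
    rw [rot_identity hcs, norm_mul, norm_pow, hz, one_pow, one_mul]
    exact ih

lemma poly_max (p : ℂ[X]) {B : ℝ} (h : ∀ z : ℂ, ‖z‖ = 1 → ‖p.eval z‖ ≤ B) {z : ℂ}
    (hz : ‖z‖ ≤ 1) : ‖p.eval z‖ ≤ B := by
  have hd : DiffContOnCl ℂ (fun z => p.eval z) (ball 0 1) := p.differentiable.diffContOnCl
  apply Complex.norm_le_of_forall_mem_frontier_norm_le isBounded_ball hd
  · intro w hw
    rw [frontier_ball _ one_ne_zero, mem_sphere_zero_iff_norm] at hw
    exact h w hw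
  · rw [closure_ball _ one_ne_zero, mem_closedBall_zero_iff]
    exact hz

lemma RS_bound (hcs : c ^ 2 + s ^ 2 = 1) (k : ℕ) {z : ℂ} (hz : ‖z‖ ≤ 1) :
    ‖(RS c s k).1.eval z‖ ≤ 1 ∧ ‖(RS c s k).2.eval z‖ ≤ 1 := by
  constructor
  · apply poly_max _ _ hz
    intro w hw
    have := RS_circle hcs k hw
    have h2 := sq_nonneg ‖(RS c s k).2.eval w‖
    nlinarith [norm_nonneg ((RS c s k).1.eval w)]
  · apply poly_max _ _ hz
    intro w hw
    have := RS_circle hcs k hw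
    have h2 := sq_nonneg ‖(RS c s k).1.eval w‖
    nlinarith [norm_nonneg ((RS c s k).2.eval w)]

lemma deriv_fst (k : ℕ) (z : ℂ) : (derivative (RS c s (k + 1)).1).eval z =
    (c : ℂ) * (derivative (RS c s k).1).eval z +
      (s : ℂ) * (((8 ^ (k + 1) : ℕ) : ℂ) * z ^ (8 ^ (k + 1) - 1) * (RS c s k).2.eval z +
        z ^ (8 ^ (k + 1)) * (derivative (RS c s k).2).eval z) := by
  rw [RS_succ_fst]
  simp only [derivative_add, derivative_mul, derivative_C, zero_mul, zero_add, derivative_X_pow,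
    eval_add, eval_mul, eval_C, eval_pow, eval_X]

lemma deriv_snd (k : ℕ) (z : ℂ) : (derivative (RS c s (k + 1)).2).eval z =
    -((s : ℂ) * (derivative (RS c s k).1).eval z) +
      (c : ℂ) * (((8 ^ (k + 1) : ℕ) : ℂ) * z ^ (8 ^ (k + 1) - 1) * (RS c s k).2.eval z +
        z ^ (8 ^ (k + 1)) * (derivative (RS c s k).2).eval z) := by
  rw [RS_succ_snd]
  simp only [derivative_add, derivative_mul, derivative_C, zero_mul, zero_add, derivative_X_pow,
    eval_add, eval_mul, eval_C, eval_pow, eval_X, derivative_neg, eval_neg]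

/-- derivative bound on the closed disc -/
lemma RS_deriv (hc0 : 0 ≤ c) (hs0 : 0 ≤ s) (hcs : c ^ 2 + s ^ 2 = 1) (k : ℕ) {z : ℂ}
    (hz : ‖z‖ ≤ 1) :
    ‖(derivative (RS c s k).1).eval z‖ ≤ 2 * 8 ^ k ∧
      ‖(derivative (RS c s k).2).eval z‖ ≤ 2 * 8 ^ k := by
  have hc1 : c ≤ 1 := by nlinarith
  have hs1 : s ≤ 1 := by nlinarith
  induction k with
  | zero => simp [RS]
  | succ k ih =>
    obtain ⟨h1, h2⟩ := ih
    obtain ⟨h3, h4⟩ := RS_bound hcs k hz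
    have h5 : ‖((8 ^ (k + 1) : ℕ) : ℂ) * z ^ (8 ^ (k + 1) - 1) * (RS c s k).2.eval z +
        z ^ (8 ^ (k + 1)) * (derivative (RS c s k).2).eval z‖ ≤ 8 ^ (k + 1) + 2 * 8 ^ k := by
      refine (norm_add_le _ _).trans ?_
      rw [norm_mul, norm_mul, norm_mul, norm_pow, norm_pow, Complex.norm_natCast]
      have h6 : ‖z‖ ^ (8 ^ (k + 1) - 1) ≤ 1 := pow_le_one₀ (norm_nonneg _) hz
      have h7 : ‖z‖ ^ (8 ^ (k + 1)) ≤ 1 := pow_le_one₀ (norm_nonneg _) hz
      push_cast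
      apply add_le_add
      · calc (8 : ℝ) ^ (k + 1) * ‖z‖ ^ (8 ^ (k + 1) - 1) * ‖(RS c s k).2.eval z‖
            ≤ (8 : ℝ) ^ (k + 1) * 1 * 1 := by gcongr
          _ = 8 ^ (k + 1) := by ring
      · calc ‖z‖ ^ (8 ^ (k + 1)) * ‖(derivative (RS c s k).2).eval z‖
            ≤ 1 * (2 * 8 ^ k) := by gcongr
          _ = 2 * 8 ^ k := by ring
    have h8 : (8 : ℝ) ^ (k + 1) = 8 * 8 ^ k := by ring
    have h9 : (0 : ℝ) < 8 ^ k := by positivity
    have hcn : ‖(c : ℂ)‖ ≤ 1 := by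
      rw [Complex.norm_real, Real.norm_of_nonneg hc0]; exact hc1
    have hsn : ‖(s : ℂ)‖ ≤ 1 := by
      rw [Complex.norm_real, Real.norm_of_nonneg hs0]; exact hs1
    constructor
    · rw [deriv_fst]
      refine (norm_add_le _ _).trans ?_
      rw [norm_mul, norm_mul (s : ℂ)]
      calc _ ≤ 1 * (2 * (8 : ℝ) ^ k) + 1 * ((8 : ℝ) ^ (k + 1) + 2 * (8 : ℝ) ^ k) := by gcongr
        _ ≤ 2 * (8 : ℝ) ^ (k + 1) := by rw [h8]; linarith
    · rw [deriv_snd]
      refine (norm_add_le _ _).trans ?_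
      rw [norm_neg, norm_mul, norm_mul (c : ℂ)]
      calc _ ≤ 1 * (2 * (8 : ℝ) ^ k) + 1 * ((8 : ℝ) ^ (k + 1) + 2 * (8 : ℝ) ^ k) := by gcongr
        _ ≤ 2 * (8 : ℝ) ^ (k + 1) := by rw [h8]; linarith

/-- elementary inequality for the Bloch norm -/
lemma bloch_step {r : ℝ} (hr0 : 0 ≤ r) (hr1 : r ≤ 1) {n : ℕ} (hn : 0 < n) :
    (1 - r) * (7 * n * r ^ (8 * n - 1)) ≤ r ^ n - r ^ (8 * n) := by
  have h1 : r ^ n - r ^ (8 * n) = r ^ n * ((1 - r) * ∑ j ∈ Finset.range (7 * n), r ^ j) := by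
    have h2 := geom_sum_mul r (7 * n)
    have h3 : r ^ (8 * n) = r ^ n * r ^ (7 * n) := by
      rw [← pow_add]; congr 1; omega
    rw [h3]
    linear_combination (r ^ n) * h2
  rw [h1]
  have h4 : (7 * n : ℝ) * r ^ (7 * n - 1) ≤ ∑ j ∈ Finset.range (7 * n), r ^ j := by
    have h5 : ∀ j ∈ Finset.range (7 * n), r ^ (7 * n - 1) ≤ r ^ j := by
      intro j hj
      rw [Finset.mem_range] at hj
      exact pow_le_pow_of_le_one hr0 hr1 (by omega)
    have h6 := Finset.card_nsmul_le_sum _ _ _ h5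
    rw [Finset.card_range, nsmul_eq_mul] at h6
    push_cast at h6
    exact h6
  have h7 : r ^ (8 * n - 1) = r ^ n * r ^ (7 * n - 1) := by
    rw [← pow_add]; congr 1; omega
  rw [h7]
  have h8 : 0 ≤ 1 - r := by linarith
  have h9 : 0 ≤ r ^ n := by positivity
  calc (1 - r) * (7 * n * (r ^ n * r ^ (7 * n - 1)))
      = r ^ n * ((1 - r) * (7 * n * r ^ (7 * n - 1))) := by ring
    _ ≤ _ := by gcongr

/-- the Bloch norm of `P_k` is at most `2 s` -/
lemma RS_bloch (hc0 : 0 ≤ c) (hs0 : 0 ≤ s) (hcs : c ^ 2 + s ^ 2 = 1) (k : ℕ) {z : ℂ}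
    (hz : ‖z‖ ≤ 1) :
    (1 - ‖z‖) * ‖(derivative (RS c s k).1).eval z‖ ≤ 2 * s * (1 - ‖z‖ ^ (8 ^ k)) := by
  have hc1 : c ≤ 1 := by nlinarith
  set r : ℝ := ‖z‖ with hr
  have hr0 : 0 ≤ r := norm_nonneg _
  induction k with
  | zero =>
    simp [RS]
    exact mul_nonneg (by positivity) (by linarith)
  | succ k ih =>
    obtain ⟨h3, h4⟩ := RS_bound hcs k hz
    obtain ⟨h1, h2⟩ := RS_deriv hc0 hs0 hcs k hz
    have h8n : 0 < 8 ^ k := by positivity
    have hstep := bloch_step hr0 hz h8n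
    have h8k : 8 * 8 ^ k = 8 ^ (k + 1) := by ring
    rw [h8k] at hstep
    push_cast at hstep
    have h5 : ‖((8 ^ (k + 1) : ℕ) : ℂ) * z ^ (8 ^ (k + 1) - 1) * (RS c s k).2.eval z +
        z ^ (8 ^ (k + 1)) * (derivative (RS c s k).2).eval z‖ ≤
          10 * 8 ^ k * r ^ (8 ^ (k + 1) - 1) := by
      refine (norm_add_le _ _).trans ?_
      rw [norm_mul, norm_mul, norm_mul, norm_pow, norm_pow, Complex.norm_natCast, ← hr]
      have h7 : r ^ (8 ^ (k + 1)) ≤ r ^ (8 ^ (k + 1) - 1) :=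
        pow_le_pow_of_le_one hr0 hz (by omega)
      push_cast
      calc (8 : ℝ) ^ (k + 1) * r ^ (8 ^ (k + 1) - 1) * ‖(RS c s k).2.eval z‖ +
            r ^ (8 ^ (k + 1)) * ‖(derivative (RS c s k).2).eval z‖
          ≤ (8 : ℝ) ^ (k + 1) * r ^ (8 ^ (k + 1) - 1) * 1 +
            r ^ (8 ^ (k + 1) - 1) * (2 * 8 ^ k) := by gcongr
        _ = 10 * 8 ^ k * r ^ (8 ^ (k + 1) - 1) := by ring
    rw [deriv_fst]
    have h1r : 0 ≤ 1 - r := by linarith
    have hcn : ‖(c : ℂ)‖ ≤ 1 := by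
      rw [Complex.norm_real, Real.norm_of_nonneg hc0]; exact hc1
    have hsn : ‖(s : ℂ)‖ = s := by
      rw [Complex.norm_real, Real.norm_of_nonneg hs0]
    calc (1 - r) * ‖(c : ℂ) * (derivative (RS c s k).1).eval z +
          (s : ℂ) * (((8 ^ (k + 1) : ℕ) : ℂ) * z ^ (8 ^ (k + 1) - 1) * (RS c s k).2.eval z +
            z ^ (8 ^ (k + 1)) * (derivative (RS c s k).2).eval z)‖
        ≤ (1 - r) * (1 * ‖(derivative (RS c s k).1).eval z‖ +
            s * (10 * 8 ^ k * r ^ (8 ^ (k + 1) - 1))) := by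
          apply mul_le_mul_of_nonneg_left _ h1r
          refine (norm_add_le _ _).trans ?_
          rw [norm_mul, norm_mul (s : ℂ), hsn]
          gcongr
      _ = (1 - r) * ‖(derivative (RS c s k).1).eval z‖ +
            (10 / 7) * s * ((1 - r) * (7 * 8 ^ k * r ^ (8 ^ (k + 1) - 1))) := by ring
      _ ≤ 2 * s * (1 - r ^ (8 ^ k)) + (10 / 7) * s * (r ^ (8 ^ k) - r ^ (8 ^ (k + 1))) := by
          gcongr
      _ ≤ 2 * s * (1 - r ^ (8 ^ k)) + 2 * s * (r ^ (8 ^ k) - r ^ (8 ^ (k + 1))) := by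
          have h9 : 0 ≤ r ^ (8 ^ k) - r ^ (8 ^ (k + 1)) := by
            have : r ^ (8 ^ (k + 1)) ≤ r ^ (8 ^ k) := by
              apply pow_le_pow_of_le_one hr0 hz
              rw [← h8k]; omega
            linarith
          have h10 : 0 ≤ s * (r ^ (8 ^ k) - r ^ (8 ^ (k + 1))) := mul_nonneg hs0 h9
          nlinarith
      _ = 2 * s * (1 - r ^ (8 ^ (k + 1))) := by ring

/-- square norm of the coefficients -/
noncomputable def nsq (p : ℂ[X]) (n : ℕ) : ℝ := ∑ k ∈ Finset.range n, ‖p.coeff k‖ ^ 2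

lemma nsq_eq_of_le {p : ℂ[X]} {m n : ℕ} (hm : p.natDegree < m) (hmn : m ≤ n) :
    nsq p n = nsq p m := by
  unfold nsq
  symm
  apply Finset.sum_subset (Finset.range_mono hmn)
  intro k _ hk
  rw [Finset.mem_range, not_lt] at hk
  rw [coeff_eq_zero_of_natDegree_lt (by omega)]
  simp

lemma nsq_comb {P Q : ℂ[X]} {m n : ℕ} (hP : P.natDegree < m) (a b : ℂ) :
    nsq (C a * P + C b * (X ^ m * Q)) (m + n) = ‖a‖ ^ 2 * nsq P m + ‖b‖ ^ 2 * nsq Q n := by
  unfold nsq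
  rw [Finset.sum_range_add, Finset.mul_sum, Finset.mul_sum]
  congr 1
  · apply Finset.sum_congr rfl
    intro k hk
    rw [Finset.mem_range] at hk
    rw [coeff_add, coeff_C_mul, coeff_C_mul, coeff_X_pow_mul', if_neg (by omega), mul_zero,
      add_zero, norm_mul, mul_pow]
  · apply Finset.sum_congr rfl
    intro k hk
    rw [coeff_add, coeff_C_mul, coeff_C_mul, coeff_X_pow_mul', if_pos (by omega),
      coeff_eq_zero_of_natDegree_lt (by omega : P.natDegree < m + k), mul_zero, zero_add,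
      norm_mul, mul_pow]
    congr 4
    omega

/-- the coefficient norms of the pair -/
lemma RS_nsq (hcs : c ^ 2 + s ^ 2 = 1) (k : ℕ) :
    ∀ n, 2 * 8 ^ k < n → nsq (RS c s k).1 n = (1 - (c ^ 2 - s ^ 2) ^ k) / 2 ∧
      nsq (RS c s k).2 n = (1 + (c ^ 2 - s ^ 2) ^ k) / 2 := by
  induction k with
  | zero =>
    intro n hn
    constructor
    · simp [RS, nsq]
    · simp only [RS, nsq]
      rw [Finset.sum_eq_single_of_mem 0 (Finset.mem_range.mpr (by omega))]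
      · simp
      · intro b _ hb
        rw [coeff_one, if_neg hb]
        simp
  | succ k ih =>
    intro n hn
    obtain ⟨hd1, hd2⟩ := RS_degree (c := c) (s := s) k
    obtain ⟨hD1, hD2⟩ := RS_degree (c := c) (s := s) (k + 1)
    have h8 : (8 : ℕ) ^ (k + 1) = 8 * 8 ^ k := by ring
    have hpos : 0 < 8 ^ k := by positivity
    set m : ℕ := 8 ^ (k + 1) with hm
    have hPm : (RS c s k).1.natDegree < m := by omega
    have ih1 := (ih m (by omega)).1
    have ih2 := (ih n (by omega)).2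
    constructor
    · have h1 : nsq (RS c s (k + 1)).1 n = nsq (RS c s (k + 1)).1 (m + n) :=
        (nsq_eq_of_le (by omega) (by omega)).symm
      rw [h1, RS_succ_fst, nsq_comb hPm, ih1, ih2, Complex.norm_real, Complex.norm_real,
        Real.norm_eq_abs, Real.norm_eq_abs, sq_abs, sq_abs, pow_succ]
      linear_combination (1 / 2 : ℝ) * hcs
    · have h1 : nsq (RS c s (k + 1)).2 n = nsq (RS c s (k + 1)).2 (m + n) :=
        (nsq_eq_of_le (by omega) (by omega)).symm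
      have h2 : (RS c s (k + 1)).2 = C (-(s : ℂ)) * (RS c s k).1 +
          C (c : ℂ) * (X ^ m * (RS c s k).2) := by
        rw [RS_succ_snd, map_neg, neg_mul]
      rw [h1, h2, nsq_comb hPm, ih1, ih2, norm_neg, Complex.norm_real, Complex.norm_real,
        Real.norm_eq_abs, Real.norm_eq_abs, sq_abs, sq_abs, pow_succ]
      linear_combination (1 / 2 : ℝ) * hcs

/-- bounded polynomials with small Bloch norm -/
theorem exists_poly {δ : ℝ} (hδ : 0 < δ) : ∃ J : ℂ[X], ∃ D : ℝ, 0 < D ∧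
    (∀ z : ℂ, ‖z‖ ≤ 1 → ‖J.eval z‖ ≤ 1) ∧
    (∀ z : ℂ, ‖z‖ ≤ 1 → ‖(derivative J).eval z‖ ≤ D) ∧
    (∀ z : ℂ, ‖z‖ ≤ 1 → (1 - ‖z‖) * ‖(derivative J).eval z‖ ≤ δ) ∧
    J.eval 0 = 0 ∧ ∃ n₀ : ℕ, ∀ n, n₀ ≤ n → 1 / 4 ≤ ∑ k ∈ Finset.range n, ‖J.coeff k‖ ^ 2 := by
  set s : ℝ := min (δ / 2) (1 / 2) with hs
  have hs0 : 0 < s := lt_min (by linarith) (by norm_num)
  have hs1 : s ≤ 1 / 2 := min_le_right _ _
  have hs2 : s ≤ δ / 2 := min_le_left _ _
  set c : ℝ := Real.sqrt (1 - s ^ 2) with hc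
  have hc0 : 0 ≤ c := Real.sqrt_nonneg _
  have hcsq : c ^ 2 = 1 - s ^ 2 := Real.sq_sqrt (by nlinarith)
  have hcs : c ^ 2 + s ^ 2 = 1 := by rw [hcsq]; ring
  have hq0 : 0 ≤ c ^ 2 - s ^ 2 := by rw [hcsq]; nlinarith
  have hq1 : c ^ 2 - s ^ 2 < 1 := by rw [hcsq]; nlinarith
  obtain ⟨K, hK⟩ := exists_pow_lt_of_lt_one (show (0 : ℝ) < 1 / 2 by norm_num) hq1
  refine ⟨(RS c s K).1, 2 * 8 ^ K, by positivity, fun z hz => (RS_bound hcs K hz).1,
    fun z hz => (RS_deriv hc0 hs0.le hcs K hz).1, ?_, RS_eval_zero K, 2 * 8 ^ K + 1, ?_⟩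
  · intro z hz
    refine (RS_bloch hc0 hs0.le hcs K hz).trans ?_
    have : 0 ≤ ‖z‖ ^ 8 ^ K := by positivity
    nlinarith
  · intro n hn
    have h1 := (RS_nsq hcs K n (by omega)).1
    unfold nsq at h1
    rw [h1]
    linarith

end Pool.Agent.Helper44.BI
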