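import Pool.Agent.Helper44.BI.Nec1
import Pool.Agent.Helper44.BI.Shapiro

/-!
# The local model
-/

namespace Pool.Agent.Helper44.BI

open Polynomial Metric Set

/-- the hyperbolic mass of the full circle of zeros -/
lemma full_sum {N : ℕ} (hN : 0 < N) {ζ : ℂ} (hζ : IsPrimitiveRoot ζ N) {w : ℂ} (hw : ‖w‖ < 1) :
    ∑ j ∈ Finset.range N, (1 - pd (((1 - 1 / N : ℝ) : ℂ) * ζ ^ j) w ^ 2) ≤ 6 := by
  have hNne : N ≠ 0 := by omega
  have hNR : (0 : ℝ) < N := by exact_mod_cast hN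
  have hN1 : (1 : ℝ) ≤ N := by exact_mod_cast hN
  have hn1 : ‖ζ‖ = 1 := hζ.norm'_eq_one hNne
  set r : ℝ := 1 - 1 / N with hr
  have hr0 : 0 ≤ r := by
    rw [hr]
    have : 1 / (N : ℝ) ≤ 1 := by rw [div_le_one hNR]; exact hN1
    linarith
  have hr1 : r < 1 := by
    rw [hr]
    have : 0 < 1 / (N : ℝ) := by positivity
    linarith
  have hηprim : IsPrimitiveRoot ζ⁻¹ N := hζ.inv
  have hconj : (starRingEnd ℂ) ζ = ζ⁻¹ := by
    rw [Complex.inv_def, Complex.normSq_eq_norm_sq, hn1]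
    simp
  set u : ℂ := (r : ℂ) * w with hu
  have hun : ‖u‖ = r * ‖w‖ := by
    rw [hu, norm_mul, Complex.norm_real, Real.norm_of_nonneg hr0]
  have hun_r : ‖u‖ ≤ r := by
    rw [hun]
    have := norm_nonneg w
    nlinarith only [hw, hr0]
  have hun_w : ‖u‖ ≤ ‖w‖ := by
    rw [hun]
    have := norm_nonneg w
    nlinarith
  have hun1 : ‖u‖ < 1 := by linarith
  -- lower bound for `1 - u ^ N`
  have hpow : r ^ N ≤ Real.exp (-1) := by
    have h1 : r ≤ Real.exp (-(1 / N)) := by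
      have := Real.add_one_le_exp (-(1 / (N : ℝ)))
      rw [hr]; linarith
    calc r ^ N ≤ (Real.exp (-(1 / N))) ^ N := pow_le_pow_left₀ hr0 h1 N
      _ = Real.exp (-1) := by
          rw [← Real.exp_nat_mul]
          congr 1
          field_simp
  have hexp : Real.exp (-1) ≤ 3 / 8 := by
    rw [Real.exp_neg]
    have := Real.exp_one_gt_d9
    rw [inv_le_comm₀ (by linarith) (by norm_num)]
    norm_num
    linarith
  have hden : 5 / 8 ≤ ‖1 - u ^ N‖ := by
    have h1 := norm_sub_norm_le (1 : ℂ) (u ^ N)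
    rw [norm_one, norm_pow] at h1
    have h2 : ‖u‖ ^ N ≤ r ^ N := pow_le_pow_left₀ (norm_nonneg _) hun_r N
    linarith
  have hdpos : 0 < ‖1 - u ^ N‖ := by linarith
  have hne : 1 - u ^ N ≠ 0 := norm_pos_iff.mp hdpos
  -- each term
  have hterm : ∀ j ∈ Finset.range N, 1 - pd ((r : ℂ) * ζ ^ j) w ^ 2 =
      (1 - r ^ 2) * (1 - ‖w‖ ^ 2) / ‖1 - u ^ N‖ ^ 2 *
        ‖∑ k ∈ Finset.range N, u ^ k * ((ζ⁻¹) ^ j) ^ k‖ ^ 2 := by
    intro j _
    have hna : ‖(r : ℂ) * ζ ^ j‖ = r := by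
      rw [norm_mul, norm_pow, hn1, one_pow, mul_one, Complex.norm_real, Real.norm_of_nonneg hr0]
    have hna1 : ‖(r : ℂ) * ζ ^ j‖ < 1 := by rw [hna]; exact hr1
    rw [one_sub_pd_sq hna1 hw.le, hna]
    have h1 : (starRingEnd ℂ) ((r : ℂ) * ζ ^ j) * w = u * (ζ⁻¹) ^ j := by
      rw [map_mul, map_pow, hconj, Complex.conj_ofReal, hu]
      ring
    rw [h1]
    have h2 : (∑ k ∈ Finset.range N, u ^ k * ((ζ⁻¹) ^ j) ^ k) * (1 - u * (ζ⁻¹) ^ j) =
        1 - u ^ N := by
      have h3 := geom_sum_mul (u * (ζ⁻¹) ^ j) N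
      have h4 : (u * (ζ⁻¹) ^ j) ^ N = u ^ N := by
        rw [mul_pow, ← pow_mul, mul_comm j N, pow_mul, hηprim.pow_eq_one, one_pow, mul_one]
      rw [h4] at h3
      have h5 : ∑ k ∈ Finset.range N, u ^ k * ((ζ⁻¹) ^ j) ^ k =
          ∑ i ∈ Finset.range N, (u * (ζ⁻¹) ^ j) ^ i := by
        apply Finset.sum_congr rfl
        intro k _
        exact (mul_pow u ((ζ⁻¹) ^ j) k).symm
      rw [h5]
      linear_combination (-1 : ℂ) * h3
    have h6 : ‖∑ k ∈ Finset.range N, u ^ k * ((ζ⁻¹) ^ j) ^ k‖ * ‖1 - u * (ζ⁻¹) ^ j‖ =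
        ‖1 - u ^ N‖ := by rw [← norm_mul, h2]
    have h7 : ‖1 - u * (ζ⁻¹) ^ j‖ ≠ 0 := by
      intro h0
      rw [h0, mul_zero] at h6
      linarith
    rw [← h6]
    have h8 : ‖∑ k ∈ Finset.range N, u ^ k * ((ζ⁻¹) ^ j) ^ k‖ ≠ 0 := by
      intro h0
      rw [h0, zero_mul] at h6
      linarith
    generalize ‖∑ k ∈ Finset.range N, u ^ k * ((ζ⁻¹) ^ j) ^ k‖ = X at h8 ⊢
    generalize ‖1 - u * (ζ⁻¹) ^ j‖ = Y at h7 ⊢
    rw [mul_pow]
    have hX2 : X ^ 2 ≠ 0 := pow_ne_zero _ h8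
    have hY2 : Y ^ 2 ≠ 0 := pow_ne_zero _ h7
    field_simp
  rw [Finset.sum_congr rfl hterm, ← Finset.mul_sum, parseval hηprim]
  have hgeom : (∑ k ∈ Finset.range N, ‖u ^ k‖ ^ 2) * (1 - ‖u‖ ^ 2) ≤ 1 := by
    have h1 : ∑ k ∈ Finset.range N, ‖u ^ k‖ ^ 2 = ∑ i ∈ Finset.range N, (‖u‖ ^ 2) ^ i := by
      apply Finset.sum_congr rfl
      intro k _
      rw [norm_pow, ← pow_mul, ← pow_mul, mul_comm]
    rw [h1]
    have h2 := geom_sum_mul (‖u‖ ^ 2) N
    have h3 : 0 ≤ (‖u‖ ^ 2) ^ N := by positivity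
    linarith only [h2, h3]
  set S : ℝ := ∑ k ∈ Finset.range N, ‖u ^ k‖ ^ 2 with hS
  have hS0 : 0 ≤ S := Finset.sum_nonneg (fun _ _ => by positivity)
  have h1 : (1 - ‖w‖ ^ 2) * S ≤ 1 := by
    have h2 : 1 - ‖w‖ ^ 2 ≤ 1 - ‖u‖ ^ 2 := by nlinarith only [hun, hr1, hw, hun_w, norm_nonneg u, norm_nonneg w]
    nlinarith only [hgeom, hS0, h2]
  have h2 : (1 - r ^ 2) * N ≤ 2 := by
    have : (1 - r ^ 2) = (1 / N) * (2 - 1 / N) := by rw [hr]; ring
    rw [this]
    have h3 : (1 / (N : ℝ)) * (2 - 1 / N) * N = 2 - 1 / N := by field_simp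
    rw [h3]
    have : 0 < 1 / (N : ℝ) := by positivity
    linarith
  have h3 : 0 ≤ (1 - r ^ 2) * N := by
    apply mul_nonneg _ hNR.le
    nlinarith only [hr1, hr0]
  have h4 : 0 ≤ (1 - ‖w‖ ^ 2) * S := mul_nonneg (by nlinarith only [hw, norm_nonneg w]) hS0
  have h5 : (1 - r ^ 2) * (1 - ‖w‖ ^ 2) / ‖1 - u ^ N‖ ^ 2 * (N * S) =
      ((1 - r ^ 2) * N) * ((1 - ‖w‖ ^ 2) * S) / ‖1 - u ^ N‖ ^ 2 := by ring
  rw [h5, div_le_iff₀ (by positivity)]
  have h6 : (25 / 64 : ℝ) ≤ ‖1 - u ^ N‖ ^ 2 := by nlinarith only [hden]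
  have h7 : ((1 - r ^ 2) * N) * ((1 - ‖w‖ ^ 2) * S) ≤ 2 * 1 := mul_le_mul h2 h1 h4 (by norm_num)
  linarith

/-- few roots of unity are close to `-1` -/
lemma count_near {N : ℕ} (hN : 256 ≤ N) :
    (((Finset.range N).filter (fun j : ℕ =>
      ‖1 + (Complex.exp (2 * Real.pi * Complex.I / N)) ^ j‖ < 1 / 64)).card : ℝ) ≤ N / 64 := by
  have hNR : (0 : ℝ) < N := by
    have : 0 < N := by omega
    exact_mod_cast this
  have hsub : (Finset.range N).filter (fun j : ℕ =>
      ‖1 + (Complex.exp (2 * Real.pi * Complex.I / N)) ^ j‖ < 1 / 64) ⊆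
      Finset.Ico (127 * N / 256) (127 * N / 256 + (N / 128 + 2)) := by
    intro j hj
    rw [Finset.mem_filter, Finset.mem_range] at hj
    obtain ⟨hjN, hj⟩ := hj
    have hjR : (j : ℝ) < N := by exact_mod_cast hjN
    have hj0 : (0 : ℝ) ≤ j := by positivity
    -- the modulus
    set x : ℝ := Real.pi * (j / N - 1 / 2) with hx
    have h1 : ‖1 + (Complex.exp (2 * Real.pi * Complex.I / N)) ^ j‖ = 2 * |Real.sin x| := by
      have e1 : (Complex.exp (2 * Real.pi * Complex.I / N)) ^ j =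
          -Complex.exp (Complex.I * ((2 * x : ℝ) : ℂ)) := by
        rw [← Complex.exp_nat_mul]
        have e2 : (j : ℂ) * (2 * Real.pi * Complex.I / N) =
            Complex.I * ((2 * x : ℝ) : ℂ) + Real.pi * Complex.I := by
          rw [hx]
          push_cast
          field_simp
          ring
        rw [e2, Complex.exp_add, Complex.exp_pi_mul_I]
        ring
      rw [e1, ← sub_eq_add_neg, norm_sub_rev, Complex.norm_exp_I_mul_ofReal_sub_one]
      have e3 : 2 * x / 2 = x := by ring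
      rw [e3, Real.norm_eq_abs, abs_mul]
      norm_num
    rw [h1] at hj
    have hpi := Real.pi_pos
    have hxabs : |x| ≤ Real.pi / 2 := by
      rw [hx, abs_le]
      have h2 : (j : ℝ) / N < 1 := by rw [div_lt_one hNR]; exact hjR
      have h3 : 0 ≤ (j : ℝ) / N := by positivity
      constructor <;> nlinarith only [hpi, h3, h2]
    have h2 : 2 / Real.pi * |x| ≤ |Real.sin x| := by
      rcases le_or_gt 0 x with h | h
      · rw [abs_of_nonneg h] at hxabs ⊢
        exact (Real.mul_le_sin h hxabs).trans (le_abs_self _)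
      · rw [abs_of_neg h] at hxabs ⊢
        have := Real.mul_le_sin (by linarith : 0 ≤ -x) hxabs
        rw [Real.sin_neg] at this
        exact this.trans (neg_le_abs _)
    have h3 : 2 / Real.pi * |x| = 2 * |(j : ℝ) / N - 1 / 2| := by
      rw [hx, abs_mul, abs_of_pos hpi]
      field_simp
    rw [h3] at h2
    have h4 : |(j : ℝ) / N - 1 / 2| < 1 / 256 := by linarith only [hj, h2]
    rw [abs_lt] at h4
    have h5 : 127 * (N : ℝ) < 256 * j := by
      have h6 : (127 / 256 : ℝ) < j / N := by linarith only [h4, h4.1]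
      rw [lt_div_iff₀ hNR] at h6
      linarith only [h6]
    have h6 : 256 * (j : ℝ) < 129 * N := by
      have h7 : (j : ℝ) / N < 129 / 256 := by linarith only [h4, h4.2]
      rw [div_lt_iff₀ hNR] at h7
      linarith only [h7]
    have h7 : 127 * N < 256 * j := by exact_mod_cast h5
    have h8 : 256 * j < 129 * N := by exact_mod_cast h6
    rw [Finset.mem_Ico]
    constructor <;> omega
  have hcard := Finset.card_le_card hsub
  have hcard' := hcard.trans (le_of_eq (Nat.card_Ico _ _))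
  have hcard'' := hcard'.trans (le_of_eq (Nat.add_sub_cancel_left (127 * N / 256)
    (N / 128 + 2)))
  refine (Nat.cast_le (α := ℝ).mpr hcard'').trans ?_
  have h2 : 64 * (N / 128 + 2) ≤ N := by omega
  have h3 : (64 : ℝ) * ((N / 128 + 2 : ℕ) : ℝ) ≤ N := by exact_mod_cast h2
  linarith only [h3]

/-- the local model: `g` is a function with small Bloch norm, large at the centre, and small near
the points `a j`, which carry a substantial part of the harmonic measure -/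
structure IsModel (M : ℝ) (g : ℂ → ℂ) (A : Finset ℕ) (a : ℕ → ℂ) (D : ℝ) : Prop where
  D_one : 1 ≤ D
  diff : Differentiable ℂ g
  one : g 1 = 0
  bloch : ∀ w : ℂ, ‖w‖ < 1 → (1 - ‖w‖ ^ 2) * ‖deriv g w‖ ≤ 1
  deriv_le : ∀ w : ℂ, ‖w‖ ≤ 1 → ‖deriv g w‖ ≤ D
  le : ∀ w : ℂ, ‖w‖ ≤ 1 → ‖g w‖ ≤ D
  zero : M ≤ ‖g 0‖
  a_lt : ∀ j ∈ A, ‖a j‖ < 1
  near : ∀ j ∈ A, ∀ w : ℂ, ‖w‖ < 1 → pd (a j) w < 1 / 4 →
    ‖g w‖ ≤ 4 ∧ 1 / D ≤ 1 - ‖w‖ ∧ 1 / 128 ≤ ‖1 + w‖
  sum_le : ∀ w : ℂ, ‖w‖ < 1 → ∑ j ∈ A, (1 - pd (a j) w ^ 2) ≤ 6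
  sum_le' : ∀ w : ℂ, ‖w‖ < 1 → ∑ j ∈ A, (1 - pd (a j) w ^ 2) ≤ D * (1 - ‖w‖ ^ 2)
  prod_le : ∏ j ∈ A, ‖a j‖ ≤ Real.exp (-(1 / 64))

theorem exists_model (M : ℝ) : ∃ g A a D, IsModel M g A a D := by
  classical
  set P : ℝ := 32 * |M| + 1 with hP
  have hP1 : 1 ≤ P := by rw [hP]; have := abs_nonneg M; linarith
  have hP0 : 0 < P := by linarith
  set B : ℝ := Real.exp (P * (1 / 32 + 1)) with hB
  have hB0 : 0 < B := Real.exp_pos _
  obtain ⟨J, DJ, hDJ, hJ1, hJ2, hJ3, hJ0, n₀, hn₀⟩ := exists_poly (δ := 1 / (2 * P * B))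
    (by positivity)
  obtain ⟨N₁, hN₁⟩ := exists_nat_ge (2 * P * DJ)
  set N : ℕ := 256 + (2 * J.natDegree + 1) + n₀ + N₁ with hNdef
  have hN256 : 256 ≤ N := by omega
  have hNpos : 0 < N := by omega
  have hNne : N ≠ 0 := by omega
  have hNR : (0 : ℝ) < N := by exact_mod_cast hNpos
  have hN256R : (256 : ℝ) ≤ N := by exact_mod_cast hN256
  have hNDJ : 2 * P * DJ ≤ N := by
    refine hN₁.trans ?_
    exact_mod_cast (by omega : N₁ ≤ N)
  set ζ : ℂ := Complex.exp (2 * Real.pi * Complex.I / N) with hζdef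
  have hζ : IsPrimitiveRoot ζ N := Complex.isPrimitiveRoot_exp N hNne
  have hn1 : ‖ζ‖ = 1 := hζ.norm'_eq_one hNne
  -- rotation
  have hc1 := count_neg hζ J (by omega) hJ0 hJ1 (hn₀ N (by omega))
  have hex : ∃ j₀, (J.eval (ζ ^ j₀)).re ≤ -(1 / 32) := by
    have hpos : 0 < ((Finset.range N).filter
        (fun j => (J.eval (ζ ^ j)).re ≤ -(1 / 32))).card := by
      have : (0 : ℝ) < (((Finset.range N).filter
        (fun j => (J.eval (ζ ^ j)).re ≤ -(1 / 32))).card : ℝ) := by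
        refine lt_of_lt_of_le ?_ hc1
        positivity
      exact_mod_cast this
    obtain ⟨j₀, hj₀⟩ := Finset.card_pos.mp hpos
    exact ⟨j₀, (Finset.mem_filter.mp hj₀).2⟩
  obtain ⟨j₀, hj₀⟩ := hex
  set ξ : ℂ := ζ ^ j₀ with hξ
  have hξ1 : ‖ξ‖ = 1 := by rw [hξ, norm_pow, hn1, one_pow]
  set T : ℂ[X] := J.comp (C ξ * X) with hT
  have hTe : ∀ z, T.eval z = J.eval (ξ * z) := by
    intro z; rw [hT]; simp
  have hξz : ∀ z : ℂ, ‖ξ * z‖ = ‖z‖ := by
    intro z; rw [norm_mul, hξ1, one_mul]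
  have hT1 : ∀ z : ℂ, ‖z‖ ≤ 1 → ‖T.eval z‖ ≤ 1 := by
    intro z hz
    rw [hTe]
    exact hJ1 _ (by rw [hξz]; exact hz)
  have hTd : ∀ z, (derivative T).eval z = ξ * (derivative J).eval (ξ * z) := by
    intro z
    rw [hT, derivative_comp]
    simp
  have hT2 : ∀ z : ℂ, ‖z‖ ≤ 1 → ‖(derivative T).eval z‖ ≤ DJ := by
    intro z hz
    rw [hTd, norm_mul, hξ1, one_mul]
    exact hJ2 _ (by rw [hξz]; exact hz)
  have hT3 : ∀ z : ℂ, ‖z‖ ≤ 1 → (1 - ‖z‖) * ‖(derivative T).eval z‖ ≤ 1 / (2 * P * B) := by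
    intro z hz
    rw [hTd, norm_mul, hξ1, one_mul]
    have := hJ3 (ξ * z) (by rw [hξz]; exact hz)
    rwa [hξz] at this
  have hT0 : T.eval 0 = 0 := by rw [hTe, mul_zero]; exact hJ0
  have hTdeg : T.natDegree ≤ J.natDegree := by
    rw [hT]
    refine natDegree_comp_le.trans ?_
    have : (C ξ * X : ℂ[X]).natDegree ≤ 1 := (natDegree_C_mul_le _ _).trans (by simp)
    calc J.natDegree * (C ξ * X : ℂ[X]).natDegree ≤ J.natDegree * 1 :=
          Nat.mul_le_mul_left _ this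
      _ = J.natDegree := mul_one _
  have hTcoef : 1 / 4 ≤ ∑ k ∈ Finset.range N, ‖T.coeff k‖ ^ 2 := by
    have h1 : ∀ k ∈ Finset.range N, ‖T.coeff k‖ ^ 2 = ‖J.coeff k‖ ^ 2 := by
      intro k _
      rw [hT, comp_C_mul_X_coeff, norm_mul, norm_pow, hξ1, one_pow, mul_one]
    rw [Finset.sum_congr rfl h1]
    exact hn₀ N (by omega)
  have hc2 := count_neg hζ T (by omega) hT0 hT1 hTcoef
  have hc3 := count_near hN256
  rw [← hζdef] at hc3
  set A : Finset ℕ := (Finset.range N).filter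
    (fun j => (T.eval (ζ ^ j)).re ≤ -(1 / 32) ∧ 1 / 64 ≤ ‖1 + ζ ^ j‖) with hA
  have hcardA : (N : ℝ) / 64 ≤ A.card := by
    have h1 : ((Finset.range N).filter (fun j => (T.eval (ζ ^ j)).re ≤ -(1 / 32))).card ≤
        A.card + ((Finset.range N).filter (fun j : ℕ => ‖1 + ζ ^ j‖ < 1 / 64)).card := by
      refine (Finset.card_le_card ?_).trans (Finset.card_union_le _ _)
      intro j hj
      rw [Finset.mem_filter] at hj
      rw [Finset.mem_union, hA, Finset.mem_filter, Finset.mem_filter]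
      rcases le_or_gt (1 / 64) ‖1 + ζ ^ j‖ with h | h
      · exact Or.inl ⟨hj.1, hj.2, h⟩
      · exact Or.inr ⟨hj.1, h⟩
    have h2 : (((Finset.range N).filter (fun j => (T.eval (ζ ^ j)).re ≤ -(1 / 32))).card : ℝ) ≤
        A.card + (((Finset.range N).filter (fun j : ℕ => ‖1 + ζ ^ j‖ < 1 / 64)).card : ℝ) := by
      exact_mod_cast h1
    linarith only [hc2, hc3, h2]
  set r : ℝ := 1 - 1 / N with hr
  have h1N : 0 < 1 / (N : ℝ) := by positivity
  have h1N' : 1 / (N : ℝ) ≤ 1 / 256 := by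
    apply div_le_div_of_nonneg_left <;> linarith only [hN256R]
  have hr0 : 0 < r := by rw [hr]; linarith only [h1N, h1N']
  have hr1 : r < 1 := by rw [hr]; linarith only [h1N]
  set a : ℕ → ℂ := fun j => (r : ℂ) * ζ ^ j with ha
  have hna : ∀ j, ‖a j‖ = r := by
    intro j
    rw [ha]
    simp only
    rw [norm_mul, norm_pow, hn1, one_pow, mul_one, Complex.norm_real, Real.norm_of_nonneg hr0.le]
  set g : ℂ → ℂ := fun w => Complex.exp (P * (1 / 32 + T.eval w)) -
    Complex.exp (P * (1 / 32 + T.eval 1)) with hg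
  have hexpn : ∀ w : ℂ, ‖Complex.exp (P * (1 / 32 + T.eval w))‖ =
      Real.exp (P * (1 / 32 + (T.eval w).re)) := by
    intro w
    rw [Complex.norm_exp]
    congr 1
    rw [Complex.re_ofReal_mul]
    simp
  have hexpB : ∀ w : ℂ, ‖w‖ ≤ 1 → ‖Complex.exp (P * (1 / 32 + T.eval w))‖ ≤ B := by
    intro w hw
    rw [hexpn, hB]
    apply Real.exp_le_exp.mpr
    apply mul_le_mul_of_nonneg_left _ hP0.le
    have := (Complex.re_le_norm (T.eval w)).trans (hT1 w hw)
    linarith only [this]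
  have hexp1 : ‖Complex.exp (P * (1 / 32 + T.eval 1))‖ ≤ 1 := by
    rw [hexpn, Real.exp_le_one_iff]
    have : (T.eval 1).re ≤ -(1 / 32) := by
      rw [hTe, mul_one]; exact hj₀
    nlinarith only [this, hP1]
  have hB1 : 1 ≤ B := by
    rw [hB]
    apply Real.one_le_exp
    positivity
  have hgd : ∀ w, HasDerivAt g (Complex.exp (P * (1 / 32 + T.eval w)) *
      (P * (derivative T).eval w)) w := by
    intro w
    have h1 : HasDerivAt (fun w => (P : ℂ) * (1 / 32 + T.eval w)) (P * (derivative T).eval w) w :=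
      ((T.hasDerivAt w).const_add (1 / 32 : ℂ)).const_mul (P : ℂ)
    exact h1.cexp.sub_const _
  have hgn : ∀ w, ‖w‖ ≤ 1 → ‖deriv g w‖ ≤ B * (P * ‖(derivative T).eval w‖) := by
    intro w hw
    rw [(hgd w).deriv, norm_mul, norm_mul, Complex.norm_real, Real.norm_of_nonneg hP0.le]
    exact mul_le_mul_of_nonneg_right (hexpB w hw) (by positivity)
  set D : ℝ := B * (P * DJ) + 2 * B + 3 * N + 2 * N ^ 2 + 1 with hD
  have hDN : 3 * (N : ℝ) ≤ D := by
    rw [hD]
    have : 0 < B * (P * DJ) := by positivity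
    nlinarith only [h1N, h1N', hB1, this]
  have hD0 : 0 < D := by linarith only [hN256R, h1N, h1N', hDN]
  refine ⟨g, A, a, D, ?_⟩
  constructor
  · rw [hD]
    have : 0 < B * (P * DJ) := by positivity
    nlinarith only [hN256R, h1N, h1N', hB1, this]
  · exact fun w => (hgd w).differentiableAt
  · rw [hg]; simp
  · intro w hw
    have h1 := hgn w hw.le
    have h2 := hT3 w hw.le
    have h3 : 1 - ‖w‖ ^ 2 ≤ 2 * (1 - ‖w‖) := by nlinarith only [hw, norm_nonneg w]
    have h4 : 0 ≤ 1 - ‖w‖ := by linarith only [hw]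
    calc (1 - ‖w‖ ^ 2) * ‖deriv g w‖
        ≤ (2 * (1 - ‖w‖)) * (B * (P * ‖(derivative T).eval w‖)) :=
          mul_le_mul h3 h1 (norm_nonneg _) (by positivity)
      _ = 2 * P * B * ((1 - ‖w‖) * ‖(derivative T).eval w‖) := by ring
      _ ≤ 2 * P * B * (1 / (2 * P * B)) := mul_le_mul_of_nonneg_left h2 (by positivity)
      _ = 1 := by field_simp
  · intro w hw
    have h1 := hgn w hw
    have h2 := hT2 w hw
    have h3 : B * (P * ‖(derivative T).eval w‖) ≤ B * (P * DJ) := by gcongr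
    rw [hD]
    nlinarith only [hN256R, h1N, h1N', hB1, h1, h3]
  · intro w hw
    have h1 := hexpB w hw
    have h2 : ‖g w‖ ≤ ‖Complex.exp (P * (1 / 32 + T.eval w))‖ +
        ‖Complex.exp (P * (1 / 32 + T.eval 1))‖ := norm_sub_le _ _
    rw [hD]
    have : 0 < B * (P * DJ) := by positivity
    nlinarith only [hN256R, h1N, h1N', hexp1, hB1, h1, h2, this]
  · have h1 : ‖Complex.exp (P * (1 / 32 + T.eval 0))‖ = Real.exp (P * (1 / 32)) := by
      rw [hexpn, hT0]; simp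
    have h2 : ‖Complex.exp (P * (1 / 32 + T.eval 0))‖ -
        ‖Complex.exp (P * (1 / 32 + T.eval 1))‖ ≤ ‖g 0‖ := norm_sub_norm_le _ _
    rw [h1] at h2
    have h3 := Real.add_one_le_exp (P * (1 / 32))
    have h4 : M ≤ P * (1 / 32) := by
      rw [hP]
      have := le_abs_self M
      linarith only [h1N, h1N', this]
    linarith only [hexp1, h2, h3, h4]
  · intro j _
    rw [hna]; exact hr1
  · intro j hj w hw hpd
    rw [hA, Finset.mem_filter] at hj
    obtain ⟨-, hjT, hjn⟩ := hj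
    have h1 := dist_of_pd (by rw [hna]; exact hr1) hw hpd
    rw [hna] at h1
    have h2 : 1 - r = 1 / N := by rw [hr]; ring
    rw [h2] at h1
    have h3 : ‖a j - ζ ^ j‖ = 1 / N := by
      have e1 : a j - ζ ^ j = -((1 / N : ℝ) : ℂ) * ζ ^ j := by
        rw [ha, hr]
        push_cast
        ring
      rw [e1, norm_mul, norm_pow, hn1, one_pow, mul_one, norm_neg, Complex.norm_real,
        Real.norm_of_nonneg h1N.le]
    have h4 : ‖w - ζ ^ j‖ ≤ 2 / N := by
      have e1 : w - ζ ^ j = (a j - ζ ^ j) - (a j - w) := by ring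
      rw [e1]
      refine (norm_sub_le _ _).trans ?_
      rw [h3]
      have : (2 : ℝ) / N = 2 * (1 / N) := by ring
      rw [this]
      linarith only [h1N, h1]
    have hζj : ‖ζ ^ j‖ = 1 := by rw [norm_pow, hn1, one_pow]
    have h5 : ‖T.eval w - T.eval (ζ ^ j)‖ ≤ DJ * ‖w - ζ ^ j‖ := by
      apply Convex.norm_image_sub_le_of_norm_deriv_le (f := fun x => T.eval x)
        (s := closedBall (0 : ℂ) 1)
      · intro x _
        exact T.differentiableAt
      · intro x hx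
        rw [Polynomial.deriv]
        exact hT2 x (mem_closedBall_zero_iff.mp hx)
      · exact convex_closedBall _ _
      · rw [mem_closedBall_zero_iff, hζj]
      · rw [mem_closedBall_zero_iff]; exact hw.le
    have h6 : DJ * ‖w - ζ ^ j‖ ≤ 1 / P := by
      calc DJ * ‖w - ζ ^ j‖ ≤ DJ * (2 / N) := mul_le_mul_of_nonneg_left h4 hDJ.le
        _ ≤ 1 / P := by
          rw [mul_div_assoc', div_le_div_iff₀ hNR hP0]
          linarith only [hNDJ]
    have h7 : (T.eval w).re ≤ -(1 / 32) + 1 / P := by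
      have e1 : (T.eval w).re - (T.eval (ζ ^ j)).re ≤ 1 / P := by
        rw [← Complex.sub_re]
        exact (Complex.re_le_norm _).trans (h5.trans h6)
      linarith only [hjT, e1]
    refine ⟨?_, ?_, ?_⟩
    · have h8 : ‖g w‖ ≤ ‖Complex.exp (P * (1 / 32 + T.eval w))‖ +
          ‖Complex.exp (P * (1 / 32 + T.eval 1))‖ := norm_sub_le _ _
      have h9 : ‖Complex.exp (P * (1 / 32 + T.eval w))‖ ≤ 3 := by
        rw [hexpn]
        have e1 : P * (1 / 32 + (T.eval w).re) ≤ 1 := by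
          calc P * (1 / 32 + (T.eval w).re) ≤ P * (1 / P) := by
                apply mul_le_mul_of_nonneg_left _ hP0.le
                linarith only [h7]
            _ = 1 := by field_simp
        calc Real.exp (P * (1 / 32 + (T.eval w).re)) ≤ Real.exp 1 := Real.exp_le_exp.mpr e1
          _ ≤ 3 := by
            have := Real.exp_one_lt_d9
            linarith only [h1N, h1N', this]
      linarith only [hexp1, h8, h9]
    · have e1 := norm_sub_norm_le w (a j)
      rw [norm_sub_rev, hna] at e1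
      have e2 : 1 / D ≤ 1 / (3 * N) := by
        apply div_le_div_of_nonneg_left (by norm_num) (by positivity) hDN
      have e3 : 1 / (3 * (N : ℝ)) = 1 / 3 * (1 / N) := by ring
      rw [e3] at e2
      have e4 : r = 1 - 1 / N := hr
      linarith only [h1, e1, e2]
    · have e1 : 1 + ζ ^ j = (1 + w) - (w - ζ ^ j) := by ring
      have e2 := norm_sub_le (1 + w) (w - ζ ^ j)
      rw [← e1] at e2
      have e3 : (2 : ℝ) / N = 2 * (1 / N) := by ring
      rw [e3] at h4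
      linarith only [h1N', hjn, h4, e2]
  · intro w hw
    have h1 := full_sum hNpos hζ hw
    refine le_trans ?_ h1
    rw [hA, ← hr]
    apply Finset.sum_le_sum_of_subset_of_nonneg (Finset.filter_subset _ _)
    intro j _ _
    have e1 := pd_le_one (α := a j) (z := w) (by rw [hna]; exact hr1) hw.le
    have e2 := pd_nonneg (a j) w
    show 0 ≤ 1 - pd (a j) w ^ 2
    nlinarith only [e1, h1N, h1N', e2]
  · intro w hw
    have hw2 : 0 ≤ 1 - ‖w‖ ^ 2 := by nlinarith only [h1N, hw, h1N', norm_nonneg w]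
    have h1 : ∀ j ∈ A, 1 - pd (a j) w ^ 2 ≤ 2 * N * (1 - ‖w‖ ^ 2) := by
      intro j _
      rw [one_sub_pd_sq (by rw [hna]; exact hr1) hw.le]
      have e1 := den_lower (α := a j) hw.le
      rw [hna] at e1 ⊢
      have e2 : 1 - r = 1 / N := by rw [hr]; ring
      rw [e2] at e1
      have e3 : (1 - r ^ 2) ≤ 2 * (1 / N) := by
        rw [hr]; nlinarith only [h1N]
      calc (1 - r ^ 2) * (1 - ‖w‖ ^ 2) / ‖1 - (starRingEnd ℂ) (a j) * w‖ ^ 2
          ≤ (2 * (1 / N)) * (1 - ‖w‖ ^ 2) / (1 / N) ^ 2 := by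
            apply div_le_div₀
            · positivity
            · exact mul_le_mul_of_nonneg_right e3 hw2
            · positivity
            · exact pow_le_pow_left₀ h1N.le e1 2
        _ = 2 * N * (1 - ‖w‖ ^ 2) := by field_simp
    calc ∑ j ∈ A, (1 - pd (a j) w ^ 2) ≤ ∑ j ∈ A, 2 * N * (1 - ‖w‖ ^ 2) := Finset.sum_le_sum h1
      _ = A.card * (2 * N * (1 - ‖w‖ ^ 2)) := by rw [Finset.sum_const, nsmul_eq_mul]
      _ ≤ N * (2 * N * (1 - ‖w‖ ^ 2)) := by
          apply mul_le_mul_of_nonneg_right _ (by positivity)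
          have : A.card ≤ N := by
            have := Finset.card_le_card (Finset.filter_subset
              (fun j => (T.eval (ζ ^ j)).re ≤ -(1 / 32) ∧ 1 / 64 ≤ ‖1 + ζ ^ j‖)
              (Finset.range N))
            rwa [Finset.card_range] at this
          exact_mod_cast this
      _ = 2 * N ^ 2 * (1 - ‖w‖ ^ 2) := by ring
      _ ≤ D * (1 - ‖w‖ ^ 2) := by
          apply mul_le_mul_of_nonneg_right _ hw2
          rw [hD]
          have : 0 < B * (P * DJ) := by positivity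
          linarith only [hN256R, h1N, h1N', hB1, this]
  · have h1 : ∏ j ∈ A, ‖a j‖ = r ^ A.card := by
      rw [Finset.prod_congr rfl (fun j _ => hna j), Finset.prod_const]
    rw [h1]
    have h2 : r ≤ Real.exp (-(1 / N)) := by
      have := Real.add_one_le_exp (-(1 / (N : ℝ)))
      rw [hr]; linarith only [this]
    calc r ^ A.card ≤ (Real.exp (-(1 / N))) ^ A.card := pow_le_pow_left₀ hr0.le h2 _
      _ = Real.exp (-(A.card / N)) := by
          rw [← Real.exp_nat_mul]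
          congr 1
          ring
      _ ≤ Real.exp (-(1 / 64)) := by
          apply Real.exp_le_exp.mpr
          have : 1 / 64 ≤ (A.card : ℝ) / N := by
            rw [le_div_iff₀ hNR]
            linarith only [hcardA]
          linarith only [this]

end Pool.Agent.Helper44.BI
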