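import Mathlib

/-!
# Auxiliary lemmas: recursive choice of sequences, sums with one large term
-/

namespace Pool.Agent.Helper44.BI

lemma exists_seq {X β : Type*} (Pos : X → Prop) (Q : ℕ → X → β → Prop) (T : ℕ → X → β → X)
    (x0 : X) (h0 : Pos x0) (hT : ∀ n x y, Pos x → Q n x y → Pos (T n x y))
    (hQ : ∀ n x, Pos x → ∃ y, Q n x y) :
    ∃ (x : ℕ → X) (y : ℕ → β), x 0 = x0 ∧ ∀ n, Q n (x n) (y n) ∧ x (n + 1) = T n (x n) (y n) := by
  classical
  choose g hg using hQ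
  let F : ℕ → {x : X // Pos x} := fun n => Nat.rec ⟨x0, h0⟩
    (fun n p => ⟨T n p.1 (g n p.1 p.2), hT n p.1 _ p.2 (hg n p.1 p.2)⟩) n
  refine ⟨fun n => (F n).1, fun n => g n (F n).1 (F n).2, rfl, fun n => ⟨hg _ _ _, rfl⟩⟩

lemma sum_geom_le (N : ℕ) : ∑ n ∈ Finset.range N, (1 / 2 : ℝ) ^ (n + 1) ≤ 1 := by
  have h : ∀ N : ℕ, ∑ n ∈ Finset.range N, (1 / 2 : ℝ) ^ (n + 1) = 1 - (1 / 2) ^ N := by
    intro N
    induction N with
    | zero => simp
    | succ N ih =>
      rw [Finset.sum_range_succ, ih]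
      ring
  rw [h]
  have : (0 : ℝ) ≤ (1 / 2) ^ N := by positivity
  linarith

/-- if all terms but possibly one are at most `2^{-(n+1)}` then the sum is at most `C + 1` -/
lemma sum_le_of_window {e : ℕ → ℝ} {C : ℝ} (h0 : ∀ n, 0 ≤ e n) (hC : ∀ n, e n ≤ C)
    (hw : ∀ m n, m ≠ n → e m ≤ (1 / 2) ^ (m + 1) ∨ e n ≤ (1 / 2) ^ (n + 1)) (N : ℕ) :
    ∑ n ∈ Finset.range N, e n ≤ C + 1 := by
  have hC0 : 0 ≤ C := (h0 0).trans (hC 0)
  by_cases hall : ∀ n, e n ≤ (1 / 2) ^ (n + 1)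
  · calc ∑ n ∈ Finset.range N, e n ≤ ∑ n ∈ Finset.range N, (1 / 2 : ℝ) ^ (n + 1) :=
          Finset.sum_le_sum (fun n _ => hall n)
      _ ≤ 1 := sum_geom_le N
      _ ≤ C + 1 := by linarith
  · push Not at hall
    obtain ⟨n₀, hn₀⟩ := hall
    have h1 : ∀ m, e m ≤ (1 / 2) ^ (m + 1) + (if m = n₀ then C else 0) := by
      intro m
      by_cases hm : m = n₀
      · rw [if_pos hm]
        have := hC m
        have : (0 : ℝ) ≤ (1 / 2) ^ (m + 1) := by positivity
        linarith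
      · rw [if_neg hm, add_zero]
        rcases hw m n₀ hm with h | h
        · exact h
        · exact absurd h (not_le.mpr hn₀)
    calc ∑ n ∈ Finset.range N, e n
        ≤ ∑ m ∈ Finset.range N, ((1 / 2 : ℝ) ^ (m + 1) + (if m = n₀ then C else 0)) :=
          Finset.sum_le_sum (fun n _ => h1 n)
      _ = ∑ m ∈ Finset.range N, (1 / 2 : ℝ) ^ (m + 1) +
          ∑ m ∈ Finset.range N, (if m = n₀ then C else 0) := Finset.sum_add_distrib
      _ ≤ 1 + C := by
          apply add_le_add (sum_geom_le N)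
          rw [Finset.sum_ite_eq']
          split_ifs <;> linarith
      _ = C + 1 := by ring

/-- windows `(l n, u n)` which are stacked downwards are disjoint -/
lemma window_disjoint {l u : ℕ → ℝ} (hlu : ∀ n, l n ≤ u n) (hul : ∀ n, u (n + 1) ≤ l n)
    {x : ℝ} {m n : ℕ} (hmn : m ≠ n) : ¬ (l m < x ∧ x < u m) ∨ ¬ (l n < x ∧ x < u n) := by
  have hanti : ∀ m n, m < n → u n ≤ l m := by
    intro m n hmn
    obtain ⟨k, rfl⟩ := Nat.exists_eq_add_of_lt hmn
    induction k with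
    | zero => exact hul m
    | succ k ih =>
      have h1 := ih (by omega)
      have h2 := hul (m + k + 1)
      have h3 := hlu (m + k + 1)
      have h4 : m + (k + 1) + 1 = m + k + 1 + 1 := by omega
      rw [h4]
      linarith
  by_contra hcon
  push Not at hcon
  obtain ⟨⟨h1, h2⟩, ⟨h3, h4⟩⟩ := hcon
  rcases lt_or_gt_of_ne hmn with h | h
  · have := hanti m n h
    linarith
  · have := hanti n m h
    linarith

end Pool.Agent.Helper44.BI
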