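import Pool.Agent.Helper44.BI.Suff
import Pool.Agent.Helper44.BI.Blaschke
import Pool.Agent.Helper44.BI.Seq

/-!
# Necessity, part one: `ω(t) ≥ c t` and `ω(t)/t` is almost decreasing
-/

namespace Pool.Agent.Helper44.BI

open Metric Set Filter Topology MeasureTheory

lemma memBloch_const {ω : ℝ → ℝ} (hω : IsContinuityModulus ω) (c : ℂ) :
    MemBloch ω (fun _ => c) := by
  refine ⟨differentiableOn_const _, 1, one_pos, 1 / 2, by norm_num, ?_⟩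
  intro z hz1 hz2
  have : 0 < ω (1 - ‖z‖) := hω.pos _ ⟨by linarith, by linarith⟩
  simp
  linarith

lemma isInner_id : IsInner (fun z => z) := by
  refine ⟨⟨differentiableOn_id, 1, fun z hz => hz.le⟩, Eventually.of_forall (fun t => ?_)⟩
  refine ⟨Complex.exp (t * Complex.I), Complex.norm_exp_ofReal_mul_I t, ?_⟩
  apply Tendsto.mono_left _ nhdsWithin_le_nhds
  have : Tendsto (fun r : ℝ => (r : ℂ) * Complex.exp (t * Complex.I)) (𝓝 1)
      (𝓝 (((1 : ℝ) : ℂ) * Complex.exp (t * Complex.I))) :=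
    Continuous.tendsto (by fun_prop) 1
  simpa using this

/-- necessity of `ω(t) ≥ c t` -/
lemma nec_linear {ω : ℝ → ℝ} (hω : IsContinuityModulus ω) (hP : PropertyP ω) :
    ∃ c > 0, ∀ t ∈ Ioo (0 : ℝ) 1, c * t ≤ ω t := by
  have h := hP (fun _ => 1) (fun z => z) (memBloch_const hω 1)
    ⟨differentiableOn_const _, 1, by simp⟩ isInner_id
  have hhalf : 0 < ω (1 / 2) := hω.pos _ (by norm_num)
  have h2 : ∃ ε ∈ Ioo (0 : ℝ) 1, Cond2 ω (fun _ => (1 : ℂ)) (fun z => z) ε := by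
    refine ⟨1 / 2, by norm_num, 1 / ω (1 / 2), by positivity, ?_⟩
    intro z hz0 hz1 hz2
    have hzpos : 0 < ‖z‖ := norm_pos_iff.mpr hz0
    have h3 : ω (1 / 2) ≤ ω (1 - ‖z‖) :=
      hω.monotoneOn (by norm_num) ⟨by linarith, by linarith⟩ (by linarith)
    rw [norm_one, one_div, inv_mul_eq_div, le_div_iff₀ hhalf]
    linarith
  have h10 : (∃ ε ∈ Ioo (0 : ℝ) 1, Cond2 ω (fun _ => (1 : ℂ)) (fun z => z) ε) ↔
      (MemBloch ω (fun z => (1 : ℂ) * z) ∧ MemHInf (fun z => (1 : ℂ) * z)) := h.out 1 0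
  have h1 := (h10.mp h2).1
  obtain ⟨C, hC, hb⟩ := bloch_all hω h1
  refine ⟨1 / C, by positivity, ?_⟩
  intro t ht
  have h4 := hb ((1 - t : ℝ) : ℂ) (by
      intro h0
      have h5 : (1 - t : ℝ) = 0 := by exact_mod_cast h0
      linarith [ht.2]) (by
      rw [Complex.norm_real, Real.norm_of_nonneg (by linarith [ht.2])]
      linarith [ht.1])
  rw [Complex.norm_real, Real.norm_of_nonneg (by linarith [ht.2])] at h4
  have h5 : deriv (fun z : ℂ => (1 : ℂ) * z) ((1 - t : ℝ) : ℂ) = 1 := by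
    simp
  rw [h5, norm_one] at h4
  have h7 : 1 - (1 - t) = t := by ring
  rw [h7, mul_one] at h4
  rw [one_div, inv_mul_eq_div, div_le_iff₀ hC]
  linarith

/-! ### Estimates for a single zero -/

/-- distance estimate from the pseudo-hyperbolic distance -/
lemma dist_of_pd {a z : ℂ} (ha : ‖a‖ < 1) (hz : ‖z‖ < 1) (h : pd a z < 1 / 4) :
    ‖a - z‖ ≤ 2 / 3 * (1 - ‖a‖) := by
  have hne := den_ne ha hz.le
  have hpos : 0 < ‖1 - (starRingEnd ℂ) a * z‖ := norm_pos_iff.mpr hne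
  unfold pd at h
  rw [norm_div, div_lt_iff₀ hpos] at h
  have hc : (starRingEnd ℂ) a * a = ((‖a‖ ^ 2 : ℝ) : ℂ) := by
    rw [← Complex.normSq_eq_conj_mul_self, Complex.normSq_eq_norm_sq]
  have h1 : 1 - (starRingEnd ℂ) a * z = ((1 - ‖a‖ ^ 2 : ℝ) : ℂ) + (starRingEnd ℂ) a * (a - z) := by
    have : ((1 - ‖a‖ ^ 2 : ℝ) : ℂ) = 1 - (starRingEnd ℂ) a * a := by
      rw [hc]; push_cast; ring
    rw [this]; ring
  have h2 : ‖1 - (starRingEnd ℂ) a * z‖ ≤ (1 - ‖a‖ ^ 2) + ‖a - z‖ := by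
    rw [h1]
    refine (norm_add_le _ _).trans ?_
    rw [Complex.norm_real, Real.norm_of_nonneg (by nlinarith [norm_nonneg a]), norm_mul,
      RCLike.norm_conj]
    have := norm_nonneg (a - z)
    nlinarith
  nlinarith [norm_nonneg a, norm_nonneg (a - z)]

lemma e_high {a z : ℂ} (ha : ‖a‖ < 1) (hz : ‖z‖ < 1) (h : 2 * ‖1 - a‖ ≤ ‖1 - z‖) :
    1 - pd a z ^ 2 ≤ 16 * (1 - ‖a‖) / ‖1 - z‖ := by
  have hz1 : 0 < ‖1 - z‖ := by
    apply norm_pos_iff.mpr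
    intro h0
    have : z = 1 := (sub_eq_zero.mp h0).symm
    rw [this] at hz
    simp at hz
  rw [one_sub_pd_sq ha hz.le]
  have h1 : ‖1 - z‖ / 2 ≤ ‖1 - (starRingEnd ℂ) a * z‖ := by
    have e1 : 1 - z = (1 - (starRingEnd ℂ) a * z) - (1 - (starRingEnd ℂ) a) * z := by ring
    have e2 : ‖(1 - (starRingEnd ℂ) a) * z‖ ≤ ‖1 - a‖ := by
      rw [norm_mul]
      have e3 : ‖1 - (starRingEnd ℂ) a‖ = ‖1 - a‖ := by
        rw [← RCLike.norm_conj (1 - a)]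
        simp
      rw [e3]
      have := norm_nonneg (1 - a)
      nlinarith
    have e4 := norm_sub_le (1 - (starRingEnd ℂ) a * z) ((1 - (starRingEnd ℂ) a) * z)
    rw [← e1] at e4
    linarith
  have h2 : (1 - ‖a‖ ^ 2) ≤ 2 * (1 - ‖a‖) := by nlinarith [norm_nonneg a]
  have h3 : (1 - ‖z‖ ^ 2) ≤ 2 * ‖1 - z‖ := by
    have e1 := norm_sub_norm_le (1 : ℂ) z
    rw [norm_one] at e1
    nlinarith [norm_nonneg z]
  have h4 : 0 ≤ 1 - ‖a‖ := by linarith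
  have h5 : 0 ≤ 1 - ‖z‖ ^ 2 := by nlinarith [norm_nonneg z]
  calc (1 - ‖a‖ ^ 2) * (1 - ‖z‖ ^ 2) / ‖1 - (starRingEnd ℂ) a * z‖ ^ 2
      ≤ (2 * (1 - ‖a‖)) * (2 * ‖1 - z‖) / (‖1 - z‖ / 2) ^ 2 := by
        apply div_le_div₀
        · positivity
        · exact mul_le_mul h2 h3 h5 (by positivity)
        · positivity
        · exact pow_le_pow_left₀ (by positivity) h1 2
    _ = 16 * (1 - ‖a‖) / ‖1 - z‖ := by field_simp; ring

lemma e_low {a z : ℂ} (ha : ‖a‖ < 1) (hz : ‖z‖ < 1) (h : ‖1 - z‖ ≤ ‖1 - a‖ / 2) :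
    1 - pd a z ^ 2 ≤ 16 * ‖1 - z‖ / (1 - ‖a‖) := by
  have ha0 : 0 < 1 - ‖a‖ := by linarith
  have hd : 1 - ‖a‖ ≤ ‖1 - a‖ := by
    have e1 := norm_sub_norm_le (1 : ℂ) a
    rwa [norm_one] at e1
  rw [one_sub_pd_sq ha hz.le]
  have h1 : ‖1 - a‖ / 2 ≤ ‖1 - (starRingEnd ℂ) a * z‖ := by
    have e1 : 1 - (starRingEnd ℂ) a = (1 - (starRingEnd ℂ) a * z) -
      (starRingEnd ℂ) a * (1 - z) := by ring
    have e2 : ‖(starRingEnd ℂ) a * (1 - z)‖ ≤ ‖1 - z‖ := by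
      rw [norm_mul, RCLike.norm_conj]
      have := norm_nonneg (1 - z)
      nlinarith
    have e3 : ‖1 - (starRingEnd ℂ) a‖ = ‖1 - a‖ := by
      rw [← RCLike.norm_conj (1 - a)]
      simp
    have e4 := norm_sub_le (1 - (starRingEnd ℂ) a * z) ((starRingEnd ℂ) a * (1 - z))
    rw [← e1, e3] at e4
    linarith
  have h2 : (1 - ‖a‖ ^ 2) ≤ 2 * (1 - ‖a‖) := by nlinarith [norm_nonneg a]
  have h3 : (1 - ‖z‖ ^ 2) ≤ 2 * ‖1 - z‖ := by
    have e1 := norm_sub_norm_le (1 : ℂ) z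
    rw [norm_one] at e1
    nlinarith [norm_nonneg z]
  have h5 : 0 ≤ 1 - ‖z‖ ^ 2 := by nlinarith [norm_nonneg z]
  calc (1 - ‖a‖ ^ 2) * (1 - ‖z‖ ^ 2) / ‖1 - (starRingEnd ℂ) a * z‖ ^ 2
      ≤ (2 * (1 - ‖a‖)) * (2 * ‖1 - z‖) / ((1 - ‖a‖) / 2) ^ 2 := by
        apply div_le_div₀
        · positivity
        · exact mul_le_mul h2 h3 h5 (by positivity)
        · positivity
        · exact pow_le_pow_left₀ (by positivity) (by linarith) 2
    _ = 16 * ‖1 - z‖ / (1 - ‖a‖) := by field_simp; ring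

/-- modulus monotonicity near zero when the infimum vanishes -/
lemma tends_zero {ω : ℝ → ℝ} (hω : IsContinuityModulus ω)
    (hinf : ¬ ∃ c > 0, ∀ t ∈ Ioo (0 : ℝ) 1, c ≤ ω t) {η : ℝ} (hη : 0 < η) :
    ∃ δ > 0, δ < 1 ∧ ∀ t, 0 < t → t < δ → ω t < η := by
  by_contra hcon
  push Not at hcon
  apply hinf
  refine ⟨η, hη, ?_⟩
  intro t ht
  obtain ⟨s, hs0, hst, hs⟩ := hcon t ht.1 ht.2
  exact hs.trans (hω.monotoneOn ⟨hs0, by linarith [ht.2]⟩ ht hst.le)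

end Pool.Agent.Helper44.BI
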