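import Pool.Agent.Helper44.BI.Nec1

/-!
# Necessity, part two: `ω(t)/t` is almost decreasing
-/

namespace Pool.Agent.Helper44.BI

open Metric Set Filter Topology MeasureTheory

/-- the maximum principle for the derivative -/
lemma bloch_max {ω : ℝ → ℝ} {F : ℂ → ℂ} {C : ℝ} (hd : DifferentiableOn ℂ F (ball 0 1))
    (hb : ∀ z : ℂ, z ≠ 0 → ‖z‖ < 1 → (1 - ‖z‖) * ‖deriv F z‖ ≤ C * ω (1 - ‖z‖))
    {s : ℝ} (hs : s ∈ Ioo (0 : ℝ) 1) {z : ℂ} (hz : ‖z‖ ≤ 1 - s) :
    ‖deriv F z‖ ≤ C * ω s / s := by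
  have h1s : 0 < 1 - s := by linarith [hs.2]
  have hsub : closedBall (0 : ℂ) (1 - s) ⊆ ball 0 1 :=
    closedBall_subset_ball (by linarith [hs.1])
  have hdd : DiffContOnCl ℂ (deriv F) (ball 0 (1 - s)) := by
    apply DifferentiableOn.diffContOnCl
    rw [closure_ball _ h1s.ne']
    exact (hd.deriv isOpen_ball).mono hsub
  apply Complex.norm_le_of_forall_mem_frontier_norm_le isBounded_ball hdd
  · intro w hw
    rw [frontier_ball _ h1s.ne', mem_sphere_zero_iff_norm] at hw
    have hw0 : w ≠ 0 := by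
      rintro rfl
      rw [norm_zero] at hw
      linarith
    have h1 := hb w hw0 (by rw [hw]; linarith [hs.1])
    rw [hw] at h1
    have h2 : 1 - (1 - s) = s := by ring
    rw [h2] at h1
    rw [le_div_iff₀ hs.1]
    linarith
  · rw [closure_ball _ h1s.ne', mem_closedBall_zero_iff]
    exact hz

lemma norm_one_sub_polar_le {r θ : ℝ} (hr : r ≤ 1) (hr0 : 0 ≤ r) (hθ : 0 ≤ θ) :
    ‖1 - (r : ℂ) * Complex.exp (Complex.I * θ)‖ ≤ (1 - r) + θ := by
  have h1 := Real.norm_exp_I_mul_ofReal_sub_one_le (x := θ)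
  have h2 : 1 - (r : ℂ) * Complex.exp (Complex.I * θ) =
      ((1 - r : ℝ) : ℂ) - (r : ℂ) * (Complex.exp (Complex.I * θ) - 1) := by
    push_cast; ring
  rw [h2]
  refine (norm_sub_le _ _).trans ?_
  rw [norm_mul, Complex.norm_real, Complex.norm_real, Real.norm_of_nonneg (by linarith),
    Real.norm_of_nonneg hr0]
  rw [Real.norm_of_nonneg hθ] at h1
  have := norm_nonneg (Complex.exp (Complex.I * θ) - 1)
  nlinarith

lemma le_norm_one_sub_polar {r θ : ℝ} (hr : 1 / 2 ≤ r) (hθ : 0 ≤ θ) (hθ1 : θ ≤ 1) :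
    θ / 4 ≤ ‖1 - (r : ℂ) * Complex.exp (Complex.I * θ)‖ := by
  have h1 := Complex.abs_im_le_norm (1 - (r : ℂ) * Complex.exp (Complex.I * θ))
  have h2 : (1 - (r : ℂ) * Complex.exp (Complex.I * θ)).im = -(r * Real.sin θ) := by
    rw [mul_comm Complex.I, Complex.exp_mul_I]
    simp [Complex.sin_ofReal_re, Complex.cos_ofReal_im]
  rw [h2, abs_neg] at h1
  have hpi := Real.pi_gt_three
  have hpi4 := Real.pi_le_four
  have h3 := Real.mul_le_sin hθ (by linarith)
  have h4 : 1 / 2 * θ ≤ 2 / Real.pi * θ := by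
    apply mul_le_mul_of_nonneg_right _ hθ
    rw [div_le_div_iff₀ (by norm_num) (by linarith)]
    linarith
  have h5 : 0 ≤ Real.sin θ := by
    have : 0 ≤ 1 / 2 * θ := by positivity
    linarith
  have h6 : r * Real.sin θ ≤ |r * Real.sin θ| := le_abs_self _
  nlinarith

lemma norm_polar {r θ : ℝ} (hr : 0 ≤ r) : ‖(r : ℂ) * Complex.exp (Complex.I * θ)‖ = r := by
  rw [norm_mul, mul_comm Complex.I, Complex.norm_exp_ofReal_mul_I, mul_one, Complex.norm_real,
    Real.norm_of_nonneg hr]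

/-- necessity of the almost monotonicity of `ω(t)/t` -/
theorem nec_lower {ω : ℝ → ℝ} (hω : IsContinuityModulus ω) (hP : PropertyP ω) :
    ∃ K > 0, ∀ s t : ℝ, 0 < s → s ≤ t → t ≤ 1 / 2 → s * ω t ≤ K * (t * ω s) := by
  by_contra hcon
  push Not at hcon
  obtain ⟨c, hc, hlin⟩ := nec_linear hω hP
  have hhalf : 0 < ω (1 / 2) := hω.pos _ (by norm_num)
  have hmem : ∀ t : ℝ, 0 < t → t ≤ 1 / 2 → t ∈ Ioo (0 : ℝ) 1 := fun t h1 h2 =>
    ⟨h1, by linarith⟩
  have hle_half : ∀ t : ℝ, 0 < t → t ≤ 1 / 2 → ω t ≤ ω (1 / 2) := fun t h1 h2 =>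
    hω.monotoneOn (hmem t h1 h2) (by norm_num) h2
  -- the infimum vanishes
  have hinf : ¬ ∃ c > 0, ∀ t ∈ Ioo (0 : ℝ) 1, c ≤ ω t := by
    rintro ⟨c₀, hc₀, h⟩
    obtain ⟨s, t, hs, hst, ht, hlt⟩ := hcon (ω (1 / 2) / c₀) (by positivity)
    have h1 := h s (hmem s hs (by linarith))
    have h2 := hle_half t (by linarith) ht
    have h3 : ω (1 / 2) / c₀ * (t * ω s) ≥ ω (1 / 2) / c₀ * (s * c₀) := by
      apply mul_le_mul_of_nonneg_left _ (by positivity)
      exact mul_le_mul hst h1 hc₀.le (by linarith)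
    have h4 : ω (1 / 2) / c₀ * (s * c₀) = s * ω (1 / 2) := by field_simp
    have h5 : s * ω t ≤ s * ω (1 / 2) := mul_le_mul_of_nonneg_left h2 hs.le
    linarith
  -- bad pairs at arbitrarily small scales
  have small : ∀ M : ℝ, 0 < M → ∀ δ : ℝ, 0 < δ → ∃ s t : ℝ, 0 < s ∧ s ≤ t ∧ t < δ ∧ t ≤ 1 / 2 ∧
      M * (t * ω s) < s * ω t := by
    intro M hM δ hδ
    obtain ⟨s, t, hs, hst, ht, hlt⟩ := hcon (M + ω (1 / 2) / (δ * c)) (by positivity)
    have ht0 : 0 < t := by linarith
    have hωs : 0 < ω s := hω.pos s (hmem s hs (by linarith))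
    refine ⟨s, t, hs, hst, ?_, ht, ?_⟩
    · by_contra hge
      push Not at hge
      have h1 := hlin s (hmem s hs (by linarith))
      have h2 := hle_half t ht0 ht
      have h3 : ω (1 / 2) / (δ * c) * (t * ω s) ≥ ω (1 / 2) / (δ * c) * (δ * (c * s)) := by
        apply mul_le_mul_of_nonneg_left _ (by positivity)
        exact mul_le_mul hge h1 (by positivity) ht0.le
      have h4 : ω (1 / 2) / (δ * c) * (δ * (c * s)) = s * ω (1 / 2) := by field_simp
      have h5 : s * ω t ≤ s * ω (1 / 2) := mul_le_mul_of_nonneg_left h2 hs.le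
      have h6 : 0 < M * (t * ω s) := by positivity
      nlinarith
    · have h6 : 0 < ω (1 / 2) / (δ * c) * (t * ω s) := by positivity
      nlinarith
  set θ : ℝ → ℝ := fun t => ω t / ω (1 / 2) with hθdef
  -- the sequence
  obtain ⟨x, y, hx0, hxy⟩ := exists_seq (X := ℝ) (β := ℝ × ℝ) (fun x => 0 < x)
    (fun n x p => 0 < p.1 ∧ p.1 ≤ p.2 ∧ p.2 ≤ 1 / 16 ∧
      ((n : ℝ) + 1) * (p.2 * ω p.1) < p.1 * ω p.2 ∧
      2 ^ (n + 10) * (p.2 + θ p.2) ≤ x)
    (fun n _ p => (1 / 2) ^ (n + 3) * p.2) 1 one_pos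
    (by
      rintro n x p _ ⟨h1, h2, -⟩
      have : 0 < p.2 := by linarith
      positivity)
    (by
      intro n x hx
      have h2n : (0 : ℝ) < 2 ^ (n + 10) := by positivity
      obtain ⟨δ, hδ, hδ1, hδω⟩ := tends_zero hω hinf
        (η := x * ω (1 / 2) / (2 * 2 ^ (n + 10))) (by positivity)
      obtain ⟨s, t, hs, hst, htδ, ht2, hlt⟩ := small ((n : ℝ) + 1) (by positivity)
        (min (min δ (1 / 16)) (x / (2 * 2 ^ (n + 10)))) (by positivity)
      have ht0 : 0 < t := by linarith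
      have htδ' : t < δ := lt_of_lt_of_le htδ ((min_le_left _ _).trans (min_le_left _ _))
      have ht16 : t < 1 / 16 := lt_of_lt_of_le htδ ((min_le_left _ _).trans (min_le_right _ _))
      have htx : t < x / (2 * 2 ^ (n + 10)) := lt_of_lt_of_le htδ (min_le_right _ _)
      refine ⟨(s, t), hs, hst, ht16.le, hlt, ?_⟩
      have h1 := hδω t ht0 htδ'
      have h2 : θ t ≤ x / (2 * 2 ^ (n + 10)) := by
        rw [hθdef]
        simp only
        rw [div_le_iff₀ hhalf]
        refine h1.le.trans (le_of_eq ?_)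
        field_simp
      calc 2 ^ (n + 10) * (t + θ t) ≤ 2 ^ (n + 10) * (x / (2 * 2 ^ (n + 10)) +
            x / (2 * 2 ^ (n + 10))) := by
            apply mul_le_mul_of_nonneg_left _ h2n.le
            linarith
        _ = x := by field_simp; ring)
  set s : ℕ → ℝ := fun n => (y n).1 with hsdef
  set t : ℕ → ℝ := fun n => (y n).2 with htdef
  have hs0 : ∀ n, 0 < s n := fun n => (hxy n).1.1
  have hst : ∀ n, s n ≤ t n := fun n => (hxy n).1.2.1
  have ht16 : ∀ n, t n ≤ 1 / 16 := fun n => (hxy n).1.2.2.1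
  have ht0 : ∀ n, 0 < t n := fun n => by have := hs0 n; have := hst n; linarith
  have hlt : ∀ n : ℕ, ((n : ℝ) + 1) * (t n * ω (s n)) < s n * ω (t n) :=
    fun n => (hxy n).1.2.2.2.1
  have hux : ∀ n, 2 ^ (n + 10) * (t n + θ (t n)) ≤ x n := fun n => (hxy n).1.2.2.2.2
  have hxs : ∀ n, x (n + 1) = (1 / 2) ^ (n + 3) * t n := fun n => (hxy n).2
  have hωt : ∀ n, 0 < ω (t n) := fun n => hω.pos _ (hmem _ (ht0 n) (by linarith [ht16 n]))
  have hωs : ∀ n, 0 < ω (s n) := fun n => hω.pos _ (hmem _ (hs0 n) (by linarith [ht16 n, hst n]))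
  have hθ0 : ∀ n, 0 < θ (t n) := fun n => by rw [hθdef]; exact div_pos (hωt n) hhalf
  have hθ1 : ∀ n, θ (t n) ≤ 1 := fun n => by
    rw [hθdef]
    simp only
    rw [div_le_one hhalf]
    exact hle_half _ (ht0 n) (by linarith [ht16 n])
  have hx1 : ∀ n, x n ≤ 1 := by
    intro n
    cases n with
    | zero => rw [hx0]
    | succ n =>
      rw [hxs]
      have h1 : (1 / 2 : ℝ) ^ (n + 3) ≤ 1 := pow_le_one₀ (by norm_num) (by norm_num)
      have h2 := ht16 n
      have h3 := ht0 n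
      nlinarith
  -- the zeros
  set a : ℕ → ℂ := fun n => ((1 - 4 * t n : ℝ) : ℂ) * Complex.exp (Complex.I * (θ (t n) : ℝ))
    with hadef
  have hna : ∀ n, ‖a n‖ = 1 - 4 * t n := fun n => norm_polar (by linarith [ht16 n])
  have hna1 : ∀ n, ‖a n‖ < 1 := fun n => by rw [hna]; linarith [ht0 n]
  have hd_le : ∀ n, ‖1 - a n‖ ≤ 4 * t n + θ (t n) := fun n => by
    have := norm_one_sub_polar_le (r := 1 - 4 * t n) (θ := θ (t n)) (by linarith [ht0 n])
      (by linarith [ht16 n]) (hθ0 n).le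
    refine this.trans (le_of_eq ?_)
    ring
  have hd_ge : ∀ n, 4 * t n ≤ ‖1 - a n‖ := fun n => by
    have e1 := norm_sub_norm_le (1 : ℂ) (a n)
    rw [norm_one, hna] at e1
    linarith
  have hsmall : ∀ n, t n + θ (t n) ≤ (1 / 2) ^ (n + 10) := by
    intro n
    have h1 := (hux n).trans (hx1 n)
    have h2 : (1 / 2 : ℝ) ^ (n + 10) = 1 / 2 ^ (n + 10) := by
      rw [div_pow, one_pow]
    rw [h2, le_div_iff₀ (by positivity)]
    linarith
  have hBD : BData (κ := Unit) (fun _ => {()}) (fun n _ => a n) (fun n => (1 / 2) ^ (n + 8)) := by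
    constructor
    · intro n j _ h0
      have := hna n
      rw [h0, norm_zero] at this
      linarith [ht16 n]
    · intro n j _
      exact hna1 n
    · simp only [Finset.sum_singleton, hna]
      have hg : Summable (fun n : ℕ => (1 / 2 : ℝ) ^ (n + 8)) := by
        have := (summable_geometric_of_lt_one (r := (1 / 2 : ℝ)) (by norm_num) (by norm_num))
        exact (summable_nat_add_iff 8).mpr this
      refine Summable.of_nonneg_of_le (fun n => by linarith [ht0 n]) (fun n => ?_) hg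
      have h1 := hsmall n
      have h2 := hθ0 n
      have h3 : (1 / 2 : ℝ) ^ (n + 8) = 4 * (1 / 2) ^ (n + 10) := by ring
      rw [h3]
      linarith
    · have := tendsto_pow_atTop_nhds_zero_of_lt_one (r := (1 / 2 : ℝ)) (by norm_num) (by norm_num)
      exact (tendsto_add_atTop_iff_nat 8).mpr this
    · intro n j _
      refine (hd_le n).trans ?_
      have h1 := hsmall n
      have h2 := hθ0 n
      have h3 : (1 / 2 : ℝ) ^ (n + 8) = 4 * (1 / 2) ^ (n + 10) := by ring
      rw [h3]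
      linarith
  set Θ : ℂ → ℂ := Th (fun _ => {()}) (fun n (_ : Unit) => a n) with hΘdef
  have hΘ : IsInner Θ := hBD.isInner
  -- windows
  set l : ℕ → ℝ := fun n => (1 / 2) ^ (n + 3) * t n with hldef
  set u : ℕ → ℝ := fun n => 2 ^ (n + 10) * (t n + θ (t n)) with hudef
  have hlu : ∀ n, l n ≤ u n := by
    intro n
    have h1 : (1 / 2 : ℝ) ^ (n + 3) ≤ 1 := pow_le_one₀ (by norm_num) (by norm_num)
    have h2 : (1 : ℝ) ≤ 2 ^ (n + 10) := one_le_pow₀ (by norm_num)
    have h3 := ht0 n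
    have h4 := hθ0 n
    calc l n ≤ 1 * t n := mul_le_mul_of_nonneg_right h1 h3.le
      _ ≤ 1 * (t n + θ (t n)) := by linarith
      _ ≤ u n := mul_le_mul_of_nonneg_right h2 (by linarith)
  have hul : ∀ n, u (n + 1) ≤ l n := by
    intro n
    have h1 := hux (n + 1)
    rw [hxs] at h1
    exact h1
  have hwin : ∀ n, ∀ z : ℂ, ‖z‖ < 1 → ¬ (l n < ‖1 - z‖ ∧ ‖1 - z‖ < u n) →
      1 - pd (a n) z ^ 2 ≤ (1 / 2) ^ (n + 1) := by
    intro n z hz hnot
    have h3 := ht0 n
    have h4 := hθ0 n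
    have h2n : (1 : ℝ) ≤ 2 ^ n := one_le_pow₀ (by norm_num)
    rcases le_or_gt ‖1 - z‖ (l n) with hle | hgt
    · have h5 : l n ≤ ‖1 - a n‖ / 2 := by
        have h6 : (1 / 2 : ℝ) ^ (n + 3) ≤ 1 := pow_le_one₀ (by norm_num) (by norm_num)
        have h7 := hd_ge n
        have : l n ≤ 1 * t n := mul_le_mul_of_nonneg_right h6 h3.le
        linarith
      have h6 := e_low (hna1 n) hz (hle.trans h5)
      rw [hna] at h6
      refine h6.trans ?_
      have h7 : 1 - (1 - 4 * t n) = 4 * t n := by ring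
      rw [h7, div_le_iff₀ (by linarith)]
      have h8 : (1 / 2 : ℝ) ^ (n + 1) * (4 * t n) = 16 * l n := by
        rw [hldef]; simp only; ring
      rw [h8]
      linarith
    · have hge : u n ≤ ‖1 - z‖ := by
        by_contra h
        push Not at h
        exact hnot ⟨hgt, h⟩
      have h10 : (2 : ℝ) ^ (n + 10) = 1024 * 2 ^ n := by ring
      have hu8 : 8 * (t n + θ (t n)) ≤ u n := by
        rw [hudef]; simp only
        rw [h10]
        have : 0 < t n + θ (t n) := by linarith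
        nlinarith
      have h5 : 2 * ‖1 - a n‖ ≤ ‖1 - z‖ := by
        have := hd_le n
        linarith
      have h6 := e_high (hna1 n) hz h5
      rw [hna] at h6
      refine h6.trans ?_
      have hzpos : 0 < ‖1 - z‖ := by linarith
      rw [div_le_iff₀ hzpos]
      have h7 : (1 / 2 : ℝ) ^ (n + 1) * u n = 512 * (t n + θ (t n)) := by
        rw [hudef]; simp only
        rw [h10]
        have h8 : (1 / 2 : ℝ) ^ (n + 1) * 2 ^ n = 1 / 2 := by
          rw [pow_succ, mul_assoc, mul_comm (1 / 2 : ℝ) (2 ^ n), ← mul_assoc, ← mul_pow]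
          norm_num
        calc (1 / 2 : ℝ) ^ (n + 1) * (1024 * 2 ^ n * (t n + θ (t n)))
            = ((1 / 2 : ℝ) ^ (n + 1) * 2 ^ n) * (1024 * (t n + θ (t n))) := by ring
          _ = 512 * (t n + θ (t n)) := by rw [h8]; ring
      have h8 : (1 / 2 : ℝ) ^ (n + 1) * u n ≤ (1 / 2 : ℝ) ^ (n + 1) * ‖1 - z‖ :=
        mul_le_mul_of_nonneg_left hge (by positivity)
      linarith
  have he0 : ∀ z : ℂ, ‖z‖ < 1 → ∀ n, 0 ≤ 1 - pd (a n) z ^ 2 := by
    intro z hz n
    have h1 := pd_le_one (hna1 n) hz.le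
    have h2 := pd_nonneg (a n) z
    nlinarith
  have he1 : ∀ z : ℂ, ∀ n, 1 - pd (a n) z ^ 2 ≤ 1 := by
    intro z n
    have := sq_nonneg (pd (a n) z)
    linarith
  have hsum : ∀ z : ℂ, ‖z‖ < 1 → ∀ N, ∑ n ∈ Finset.range N,
      ∑ j ∈ ({()} : Finset Unit), (1 - pd (a n) z ^ 2) ≤ 2 := by
    intro z hz N
    simp only [Finset.sum_singleton]
    have h1 := sum_le_of_window (e := fun n => 1 - pd (a n) z ^ 2) (C := 1) (he0 z hz) (he1 z)
      (by
        intro m n hmn
        rcases window_disjoint hlu hul (x := ‖1 - z‖) hmn with h | h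
        · exact Or.inl (hwin m z hz h)
        · exact Or.inr (hwin n z hz h)) N
    linarith
  have hne1 : ∀ z : ℂ, ‖z‖ < 1 → z ≠ 1 := by
    rintro z hz rfl
    simp at hz
  -- `f = 1 - z`
  have hf : MemBloch ω (fun z => 1 - z) := by
    refine ⟨by fun_prop, 1 / c, by positivity, 1 / 2, by norm_num, ?_⟩
    intro z hz1 hz2
    have h1 := hlin (1 - ‖z‖) ⟨by linarith, by linarith⟩
    have h2 : deriv (fun z : ℂ => 1 - z) z = -1 := by
      simp
    rw [h2, norm_neg, norm_one, mul_one, one_div, inv_mul_eq_div, le_div_iff₀ hc]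
    linarith
  have hfb : MemHInf (fun z => 1 - z) := by
    refine ⟨by fun_prop, 2, ?_⟩
    intro z hz
    refine (norm_sub_le _ _).trans ?_
    rw [norm_one]
    linarith
  have hcond : ∃ ε ∈ Ioo (0 : ℝ) 1, Cond2 ω (fun z => 1 - z) Θ ε := by
    refine ⟨Real.exp (-(8 * 2)), ⟨Real.exp_pos _, by rw [Real.exp_lt_one_iff]; norm_num⟩,
      7 / c + 1 / ω (1 / 2), by positivity, ?_⟩
    intro z hz0 hz1 hzΘ
    have hex : ∃ n, pd (a n) z < 1 / 4 := by
      by_contra hno
      push Not at hno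
      have := hBD.lower hz1.le (hne1 z hz1) (K := 2) (hsum z hz1) (fun n j _ => hno n)
      linarith
    obtain ⟨n, hn⟩ := hex
    have h1 := dist_of_pd (hna1 n) hz1 hn
    rw [hna] at h1
    have h2 : ‖1 - z‖ ≤ 7 * t n + θ (t n) := by
      have e1 : (1 : ℂ) - z = (1 - a n) + (a n - z) := by ring
      rw [e1]
      refine (norm_add_le _ _).trans ?_
      have := hd_le n
      linarith [ht0 n]
    have hzpos : 0 < ‖z‖ := norm_pos_iff.mpr hz0
    have h3 : t n ≤ 1 - ‖z‖ := by
      have e1 := norm_sub_norm_le z (a n)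
      rw [norm_sub_rev, hna] at e1
      linarith [ht0 n]
    have h4 : ω (t n) ≤ ω (1 - ‖z‖) :=
      hω.monotoneOn (hmem _ (ht0 n) (by linarith [ht16 n])) ⟨by linarith, by linarith⟩ h3
    have h5 : t n ≤ 1 / c * ω (t n) := by
      rw [one_div, inv_mul_eq_div, le_div_iff₀ hc]
      have := hlin (t n) (hmem _ (ht0 n) (by linarith [ht16 n]))
      linarith
    calc ‖1 - z‖ ≤ 7 * t n + θ (t n) := h2
      _ ≤ 7 * (1 / c * ω (t n)) + ω (t n) / ω (1 / 2) := by
          have : θ (t n) = ω (t n) / ω (1 / 2) := rfl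
          rw [this]
          linarith
      _ = (7 / c + 1 / ω (1 / 2)) * ω (t n) := by ring
      _ ≤ (7 / c + 1 / ω (1 / 2)) * ω (1 - ‖z‖) := mul_le_mul_of_nonneg_left h4 (by positivity)
  have htfae := hP _ _ hf hfb hΘ
  have h10 : (∃ ε ∈ Ioo (0 : ℝ) 1, Cond2 ω (fun z => 1 - z) Θ ε) ↔
      (MemBloch ω (fun z => (1 - z) * Θ z) ∧ MemHInf (fun z => (1 - z) * Θ z)) := htfae.out 1 0
  have hFB := (h10.mp hcond).1
  obtain ⟨C, hC, hCb⟩ := bloch_all hω hFB
  -- the contradiction
  have hfinal : ∀ n : ℕ, ((n : ℝ) + 1) * (1 / (4 * ω (1 / 2)) * Real.exp (-(8 * 2))) ≤ 4 * C := by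
    intro n
    have h3 := ht0 n
    have h4 := hθ0 n
    set z' : ℂ := ((1 - 8 * t n : ℝ) : ℂ) * Complex.exp (Complex.I * (θ (t n) : ℝ)) with hz'
    have hnz : ‖z'‖ = 1 - 8 * t n := norm_polar (by linarith [ht16 n])
    have hz1 : ‖z'‖ < 1 := by rw [hnz]; linarith
    have hlow1 : 8 * t n ≤ ‖1 - z'‖ := by
      have e1 := norm_sub_norm_le (1 : ℂ) z'
      rw [norm_one, hnz] at e1
      linarith
    have hlow2 : θ (t n) / 4 ≤ ‖1 - z'‖ :=
      le_norm_one_sub_polar (by linarith [ht16 n]) h4.le (hθ1 n)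
    have hup : ‖1 - z'‖ ≤ 8 * t n + θ (t n) := by
      have := norm_one_sub_polar_le (r := 1 - 8 * t n) (θ := θ (t n)) (by linarith [ht0 n])
        (by linarith [ht16 n]) (hθ0 n).le
      refine this.trans (le_of_eq ?_)
      ring
    have hin : l n < ‖1 - z'‖ ∧ ‖1 - z'‖ < u n := by
      constructor
      · have h6 : (1 / 2 : ℝ) ^ (n + 3) ≤ 1 := pow_le_one₀ (by norm_num) (by norm_num)
        have : l n ≤ 1 * t n := mul_le_mul_of_nonneg_right h6 h3.le
        linarith
      · have h2n : (1 : ℝ) ≤ 2 ^ n := one_le_pow₀ (by norm_num)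
        have h10 : (2 : ℝ) ^ (n + 10) = 1024 * 2 ^ n := by ring
        have : 1024 * (t n + θ (t n)) ≤ u n := by
          rw [hudef]; simp only
          rw [h10]
          have : 0 < t n + θ (t n) := by linarith
          nlinarith
        linarith
    have hpds : ∀ m, ∀ j ∈ ({()} : Finset Unit), 1 / 4 ≤ pd (a m) z' := by
      intro m j _
      by_cases hmn : m = n
      · subst hmn
        unfold pd
        rw [norm_div]
        have e1 : a m - z' = ((4 * t m : ℝ) : ℂ) * Complex.exp (Complex.I * (θ (t m) : ℝ)) := by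
          rw [hadef, hz']
          push_cast
          ring
        have e2 : ‖a m - z'‖ = 4 * t m := by
          rw [e1]; exact norm_polar (by linarith)
        have e3 : ‖1 - (starRingEnd ℂ) (a m) * z'‖ ≤ 12 * t m := by
          have e4 : (starRingEnd ℂ) (a m) * z' = (((1 - 4 * t m) * (1 - 8 * t m) : ℝ) : ℂ) := by
            rw [hadef, hz']
            simp only
            rw [map_mul, Complex.conj_ofReal, ← Complex.exp_conj, map_mul, Complex.conj_I,
              Complex.conj_ofReal]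
            have e5 : Complex.exp (-Complex.I * (θ (t m) : ℝ)) *
                Complex.exp (Complex.I * (θ (t m) : ℝ)) = 1 := by
              rw [← Complex.exp_add]
              simp
            push_cast
            linear_combination ((1 - 4 * (t m : ℂ)) * (1 - 8 * (t m : ℂ))) * e5
          rw [e4, ← Complex.ofReal_one, ← Complex.ofReal_sub, Complex.norm_real,
            Real.norm_of_nonneg (by nlinarith [ht16 m])]
          nlinarith
        have e6 : 0 < ‖1 - (starRingEnd ℂ) (a m) * z'‖ :=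
          norm_pos_iff.mpr (den_ne (hna1 m) hz1.le)
        rw [e2, le_div_iff₀ e6]
        linarith
      · have h6 : 1 - pd (a m) z' ^ 2 ≤ (1 / 2) ^ (m + 1) := by
          apply hwin m z' hz1
          rcases window_disjoint hlu hul (x := ‖1 - z'‖) hmn with h | h
          · exact h
          · exact absurd hin h
        have h7 : (1 / 2 : ℝ) ^ (m + 1) ≤ 1 / 2 := by
          rw [pow_succ]
          have : (1 / 2 : ℝ) ^ m ≤ 1 := pow_le_one₀ (by norm_num) (by norm_num)
          linarith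
        have h8 := pd_nonneg (a m) z'
        nlinarith
    have hΘlow := hBD.lower hz1.le (hne1 z' hz1) (K := 2) (hsum z' hz1) hpds
    -- the zero
    have hΘa : Θ (a n) = 0 := by
      have h6 := hBD.Th_le (hna1 n).le (hne1 _ (hna1 n)) n
      have h7 : ∏ j ∈ ({()} : Finset Unit), pd (a n) (a n) = 0 := by
        simp [pd]
      rw [h7] at h6
      exact norm_le_zero_iff.mp h6
    -- mean value inequality
    have hs1 : s n ∈ Ioo (0 : ℝ) 1 := ⟨hs0 n, by linarith [hst n, ht16 n]⟩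
    have hmv := Convex.norm_image_sub_le_of_norm_deriv_le
      (f := fun z : ℂ => (1 - z) * Θ z) (s := closedBall 0 (1 - s n)) (x := a n) (y := z')
      (C := C * ω (s n) / s n)
      (by
        intro w hw
        have : w ∈ ball (0 : ℂ) 1 := closedBall_subset_ball (by linarith [hs0 n]) hw
        exact hFB.1.differentiableAt (isOpen_ball.mem_nhds this))
      (by
        intro w hw
        exact bloch_max hFB.1 hCb hs1 (mem_closedBall_zero_iff.mp hw))
      (convex_closedBall _ _)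
      (by rw [mem_closedBall_zero_iff, hna]; linarith [hst n])
      (by rw [mem_closedBall_zero_iff, hnz]; linarith [hst n])
    rw [hΘa, mul_zero, sub_zero, norm_mul] at hmv
    have e1 : z' - a n = -(((4 * t n : ℝ) : ℂ) * Complex.exp (Complex.I * (θ (t n) : ℝ))) := by
      rw [hadef, hz']
      push_cast
      ring
    have e2 : ‖z' - a n‖ = 4 * t n := by
      rw [e1, norm_neg]; exact norm_polar (by linarith)
    rw [e2] at hmv
    have h8 : ‖1 - z'‖ * Real.exp (-(8 * 2)) ≤ C * ω (s n) / s n * (4 * t n) :=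
      (mul_le_mul_of_nonneg_left hΘlow (norm_nonneg _)).trans hmv
    have h9 : θ (t n) / 4 * Real.exp (-(8 * 2)) ≤ C * ω (s n) / s n * (4 * t n) :=
      (mul_le_mul_of_nonneg_right hlow2 (Real.exp_pos _).le).trans h8
    have h11 := hlt n
    have hsn := hs0 n
    have h12 : ((n : ℝ) + 1) * (C * ω (s n) / s n * (4 * t n)) ≤ 4 * C * ω (t n) := by
      have : ((n : ℝ) + 1) * (C * ω (s n) / s n * (4 * t n)) =
          4 * C / s n * (((n : ℝ) + 1) * (t n * ω (s n))) := by field_simp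
      rw [this]
      calc 4 * C / s n * (((n : ℝ) + 1) * (t n * ω (s n)))
          ≤ 4 * C / s n * (s n * ω (t n)) := mul_le_mul_of_nonneg_left h11.le (by positivity)
        _ = 4 * C * ω (t n) := by field_simp
    have hωtn := hωt n
    have h13 : ((n : ℝ) + 1) * (θ (t n) / 4 * Real.exp (-(8 * 2))) ≤ 4 * C * ω (t n) :=
      (mul_le_mul_of_nonneg_left h9 (by positivity)).trans h12
    have h14 : ((n : ℝ) + 1) * (θ (t n) / 4 * Real.exp (-(8 * 2))) =
        (((n : ℝ) + 1) * (1 / (4 * ω (1 / 2)) * Real.exp (-(8 * 2)))) * ω (t n) := by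
      have : θ (t n) = ω (t n) / ω (1 / 2) := rfl
      rw [this]
      field_simp
    rw [h14] at h13
    exact le_of_mul_le_mul_right h13 hωtn
  have hq : 0 < 1 / (4 * ω (1 / 2)) * Real.exp (-(8 * 2)) := by positivity
  obtain ⟨n, hn⟩ := exists_nat_gt (4 * C / (1 / (4 * ω (1 / 2)) * Real.exp (-(8 * 2))))
  have h1 := hfinal n
  rw [div_lt_iff₀ hq] at hn
  nlinarith

end Pool.Agent.Helper44.BI
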