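import Pool.Agent.Helper44.BI.Slow
import Pool.Agent.Helper44.BI.Mobius
import Pool.Agent.Helper44.BI.Model
import Pool.Agent.Helper44.BI.Nec2

/-!
# Necessity, part three: the power bound
-/

namespace Pool.Agent.Helper44.BI

open Metric Set Filter Topology MeasureTheory

/-- a sum with a distinguished index -/
lemma sum_split {e : ℕ → ℝ} {n : ℕ} {A B G : ℝ} (h0 : ∀ m, 0 ≤ e m)
    (hA : ∑ m ∈ Finset.range n, e m ≤ A) (hB : e n ≤ B) (hG : 0 ≤ G)
    (h : ∀ m, n < m → e m ≤ (1 / 2) ^ (m + 1) * G) (N : ℕ) :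
    ∑ m ∈ Finset.range N, e m ≤ A + B + G := by
  calc ∑ m ∈ Finset.range N, e m ≤ ∑ m ∈ Finset.range (max N (n + 1)), e m :=
        Finset.sum_le_sum_of_subset_of_nonneg
          (Finset.range_subset_range.mpr (le_max_left _ _)) (fun m _ _ => h0 m)
    _ = ∑ m ∈ Finset.range (n + 1), e m + ∑ m ∈ Finset.Ico (n + 1) (max N (n + 1)), e m :=
        (Finset.sum_range_add_sum_Ico _ (le_max_right _ _)).symm
    _ ≤ (A + B) + ∑ m ∈ Finset.Ico (n + 1) (max N (n + 1)), (1 / 2 : ℝ) ^ (m + 1) * G := by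
        rw [Finset.sum_range_succ]
        apply add_le_add (add_le_add hA hB)
        apply Finset.sum_le_sum
        intro m hm
        rw [Finset.mem_Ico] at hm
        exact h m (by omega)
    _ ≤ (A + B) + ∑ m ∈ Finset.range (max N (n + 1)), (1 / 2 : ℝ) ^ (m + 1) * G := by
        apply add_le_add le_rfl
        apply Finset.sum_le_sum_of_subset_of_nonneg
        · intro m hm
          rw [Finset.mem_Ico] at hm
          exact Finset.mem_range.mpr hm.2
        · intro m _ _
          positivity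
    _ ≤ (A + B) + G := by
        apply add_le_add le_rfl
        rw [← Finset.sum_mul]
        have := sum_geom_le (max N (n + 1))
        nlinarith

lemma norm_le_of_hasSum {v : ℕ → ℂ} {s : ℂ} {B : ℝ} (h : HasSum v s)
    (hB : ∀ N, ∑ m ∈ Finset.range N, ‖v m‖ ≤ B) : ‖s‖ ≤ B :=
  le_of_tendsto h.tendsto_sum_nat.norm
    (Eventually.of_forall (fun N => (norm_sum_le _ _).trans (hB N)))

theorem nec_power {ω : ℝ → ℝ} (hω : IsContinuityModulus ω) (hP : PropertyP ω)
    (hinf : ¬ ∃ c > 0, ∀ t ∈ Ioo (0 : ℝ) 1, c ≤ ω t) :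
    ∃ α : ℝ, 0 < α ∧ ∃ C : ℝ, 0 < C ∧ ∀ s t : ℝ, 0 < s → s ≤ t → t ≤ 1 / 2 →
      ω s ≤ C * (s / t) ^ α * ω t := by
  by_cases hyes : ∃ L : ℝ, 1 < L ∧ ∀ t, 0 < t → t ≤ 1 / 2 → ω (t / L) ≤ ω t / 2
  · obtain ⟨L, hL, h⟩ := hyes
    exact power_of_decay hω hL h
  exfalso
  obtain ⟨c, hc, hlin⟩ := nec_linear hω hP
  obtain ⟨K, hK, hlow⟩ := nec_lower hω hP
  have hmem : ∀ x : ℝ, 0 < x → x ≤ 1 / 2 → x ∈ Ioo (0 : ℝ) 1 := fun x h1 h2 => ⟨h1, by linarith⟩
  choose g A a D hM using fun n : ℕ => exists_model (n : ℝ)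
  have hD1 : ∀ n, 1 ≤ D n := fun n => (hM n).D_one
  have hD0 : ∀ n, 0 < D n := fun n => by linarith [hD1 n]
  obtain ⟨x, t, hx0, hxt⟩ := exists_seq (X := ℝ × ℝ) (β := ℝ)
    (fun p => 0 < p.1 ∧ 0 ≤ p.2)
    (fun n p t => 0 < t ∧ t ≤ 1 / 256 ∧ ω t < 2 * ω (t / (100 * D n)) ∧
      2 ^ (n + 10) * (D n * t) ≤ p.1 ∧ 2 ^ (n + 1) * (D n * ω t) ≤ p.1 ∧ 512 * t * p.2 ≤ ω t)
    (fun n p t => (min p.1 (min ((1 / 2) ^ (n + 5) * (t / D n)) (ω (t / (100 * D n)))),
      p.2 + 2 * D n * ω t / t))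
    (1, 0) ⟨one_pos, le_rfl⟩
    (by
      rintro n p t ⟨hp1, hp2⟩ ⟨h1, h2, -⟩
      have hD := hD0 n
      have hD' := hD1 n
      have h3 : t / (100 * D n) ≤ t := div_le_self h1.le (by linarith)
      have h4 : 0 < ω (t / (100 * D n)) := hω.pos _ (hmem _ (by positivity) (by linarith))
      have h5 : 0 < ω t := hω.pos _ (hmem _ h1 (by linarith))
      refine ⟨?_, ?_⟩
      · simp only [lt_min_iff]
        exact ⟨hp1, by positivity, h4⟩
      · simp only
        positivity)
    (by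
      rintro n ⟨X, S⟩ ⟨hX, hS⟩
      simp only at hX hS ⊢
      have hD := hD0 n
      have hD' := hD1 n
      obtain ⟨δ₁, hδ₁, hδ₁1, hδω⟩ := tends_zero hω hinf
        (η := X / (2 ^ (n + 1) * D n)) (by positivity)
      obtain ⟨δ₂, hδ₂, hδ₂ω⟩ := slow_linear hω hinf hyes hc hlin hK hlow
        (M := 512 * S + 1) (by positivity)
      obtain ⟨t, ht0, htδ, ht2, hlt⟩ := slow_scales hω hinf hyes (L := 100 * D n)
        (δ := min (min δ₁ δ₂) (min (1 / 256) (X / (2 ^ (n + 10) * D n)))) (by linarith)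
        (by positivity)
      have h1 : t < δ₁ := lt_of_lt_of_le htδ ((min_le_left _ _).trans (min_le_left _ _))
      have h2 : t < δ₂ := lt_of_lt_of_le htδ ((min_le_left _ _).trans (min_le_right _ _))
      have h3 : t < 1 / 256 := lt_of_lt_of_le htδ ((min_le_right _ _).trans (min_le_left _ _))
      have h4 : t < X / (2 ^ (n + 10) * D n) :=
        lt_of_lt_of_le htδ ((min_le_right _ _).trans (min_le_right _ _))
      refine ⟨t, ht0, h3.le, hlt, ?_, ?_, ?_⟩
      · rw [lt_div_iff₀ (by positivity)] at h4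
        linarith
      · have h5 := hδω t ht0 h1
        rw [lt_div_iff₀ (by positivity)] at h5
        linarith
      · have h5 := hδ₂ω t ht0 h2
        linarith)
  set X : ℕ → ℝ := fun n => (x n).1 with hXdef
  set S : ℕ → ℝ := fun n => (x n).2 with hSdef
  set τ : ℕ → ℝ := fun n => t n / (100 * D n) with hτdef
  set lam : ℕ → ℝ := fun n => 2 * D n * ω (t n) / t n with hlamdef
  have ht0 : ∀ n, 0 < t n := fun n => (hxt n).1.1
  have ht256 : ∀ n, t n ≤ 1 / 256 := fun n => (hxt n).1.2.1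
  have ht1 : ∀ n, t n < 1 := fun n => by linarith [ht256 n]
  have hslow : ∀ n, ω (t n) < 2 * ω (τ n) := fun n => (hxt n).1.2.2.1
  have hX1 : ∀ n, 2 ^ (n + 10) * (D n * t n) ≤ X n := fun n => (hxt n).1.2.2.2.1
  have hX2 : ∀ n, 2 ^ (n + 1) * (D n * ω (t n)) ≤ X n := fun n => (hxt n).1.2.2.2.2.1
  have hS : ∀ n, 512 * t n * S n ≤ ω (t n) := fun n => (hxt n).1.2.2.2.2.2
  have hXs : ∀ n, X (n + 1) = min (X n) (min ((1 / 2) ^ (n + 5) * (t n / D n)) (ω (τ n))) :=
    fun n => by
      have := (hxt n).2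
      simp only [hXdef, this]
      rfl
  have hSs : ∀ n, S (n + 1) = S n + lam n := fun n => by
      have := (hxt n).2
      simp only [hSdef, this]
      rfl
  have hX0 : X 0 = 1 := by simp only [hXdef, hx0]
  have hS0 : S 0 = 0 := by simp only [hSdef, hx0]
  have hXanti : Antitone X := antitone_nat_of_succ_le (fun n => by
    rw [hXs]; exact min_le_left _ _)
  have hXle1 : ∀ n, X n ≤ 1 := fun n => by rw [← hX0]; exact hXanti (Nat.zero_le n)
  have hτ0 : ∀ n, 0 < τ n := fun n => by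
    have := ht0 n
    have := hD0 n
    simp only [hτdef]
    positivity
  have hτt : ∀ n, τ n ≤ t n := fun n => div_le_self (ht0 n).le (by linarith [hD1 n])
  have hXτ : ∀ n, X (n + 1) ≤ ω (τ n) := fun n => by
    rw [hXs]; exact (min_le_right _ _).trans (min_le_right _ _)
  have hXl : ∀ n, X (n + 1) ≤ (1 / 2) ^ (n + 5) * (t n / D n) := fun n => by
    rw [hXs]; exact (min_le_right _ _).trans (min_le_left _ _)
  have hωt : ∀ n, 0 < ω (t n) := fun n => hω.pos _ (hmem _ (ht0 n) (by linarith [ht256 n]))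
  have hωτ : ∀ n, 0 < ω (τ n) := fun n =>
    hω.pos _ (hmem _ (hτ0 n) (by linarith [ht256 n, hτt n]))
  have hωττ : ∀ n, ω (τ n) ≤ ω (t n) := fun n =>
    hω.monotoneOn (hmem _ (hτ0 n) (by linarith [ht256 n, hτt n]))
      (hmem _ (ht0 n) (by linarith [ht256 n])) (hτt n)
  have hlam0 : ∀ n, 0 < lam n := fun n => by
    have h1 := hD0 n
    have h2 := hωt n
    have h3 := ht0 n
    simp only [hlamdef]
    positivity
  have hSsum : ∀ n, S n = ∑ m ∈ Finset.range n, lam m := by
    intro n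
    induction n with
    | zero => rw [hS0]; simp
    | succ n ih => rw [hSs, ih, Finset.sum_range_succ]
  have hpow : ∀ n : ℕ, (1 / 2 : ℝ) ^ n * 2 ^ n = 1 := fun n => by
    rw [← mul_pow]; norm_num
  have hωD : ∀ n, ω (t n) * D n ≤ (1 / 2) ^ (n + 1) * X n := fun n => by
    have h1 := hX2 n
    have h2 : (1 / 2 : ℝ) ^ (n + 1) * (2 ^ (n + 1) * (D n * ω (t n))) ≤ (1 / 2) ^ (n + 1) * X n :=
      mul_le_mul_of_nonneg_left h1 (by positivity)
    rw [← mul_assoc, hpow, one_mul] at h2
    linarith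
  have htpow : ∀ n, D n * t n ≤ (1 / 2) ^ (n + 10) := fun n => by
    have h1 := (hX1 n).trans (hXle1 n)
    have h2 : (1 / 2 : ℝ) ^ (n + 10) * (2 ^ (n + 10) * (D n * t n)) ≤ (1 / 2) ^ (n + 10) * 1 :=
      mul_le_mul_of_nonneg_left h1 (by positivity)
    rw [← mul_assoc, hpow, one_mul, mul_one] at h2
    exact h2
  have htpow' : ∀ n, t n ≤ (1 / 2) ^ (n + 10) := fun n => by
    have h1 := htpow n
    have h2 := hD1 n
    have h3 := ht0 n
    nlinarith
  -- the terms of `f`
  set F : ℕ → ℂ → ℂ := fun n z => (ω (t n) : ℂ) * g n (Ph (t n) z) with hFdef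
  have hFn : ∀ n z, ‖F n z‖ = ω (t n) * ‖g n (Ph (t n) z)‖ := fun n z => by
    simp only [hFdef]
    rw [norm_mul, Complex.norm_real, Real.norm_of_nonneg (hωt n).le]
  have hFbound : ∀ n, ∀ z : ℂ, ‖z‖ ≤ 1 → ‖F n z‖ ≤ ω (t n) * D n := fun n z hz => by
    rw [hFn]
    exact mul_le_mul_of_nonneg_left ((hM n).le _ (norm_ph_le (ht0 n) (ht1 n) hz)) (hωt n).le
  have hFbound' : ∀ n, ∀ z : ℂ, ‖z‖ ≤ 1 → ‖F n z‖ ≤ (1 / 2) ^ (n + 1) * X n := fun n z hz =>
    (hFbound n z hz).trans (hωD n)
  have hFhas : ∀ n, ∀ z : ℂ, ‖z‖ ≤ 1 → HasDerivAt (F n)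
      ((ω (t n) : ℂ) * (deriv (g n) (Ph (t n) z) * deriv (Ph (t n)) z)) z := fun n z hz => by
    have h1 : HasDerivAt (Ph (t n)) (deriv (Ph (t n)) z) z :=
      (hasDerivAt_ph (ht0 n) (ht1 n) hz).differentiableAt.hasDerivAt
    have h2 : HasDerivAt (g n) (deriv (g n) (Ph (t n) z)) (Ph (t n) z) :=
      ((hM n).diff _).hasDerivAt
    exact (h2.comp z h1).const_mul _
  have hFderiv : ∀ n, ∀ z : ℂ, ‖z‖ ≤ 1 → ‖deriv (F n) z‖ =
      ω (t n) * (‖deriv (g n) (Ph (t n) z)‖ * ‖deriv (Ph (t n)) z‖) := fun n z hz => by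
    rw [(hFhas n z hz).deriv, norm_mul, norm_mul, Complex.norm_real,
      Real.norm_of_nonneg (hωt n).le]
  have hFd1 : ∀ n, ∀ z : ℂ, ‖z‖ ≤ 1 → ‖deriv (F n) z‖ ≤ lam n := fun n z hz => by
    rw [hFderiv n z hz]
    have h1 := (hM n).deriv_le _ (norm_ph_le (ht0 n) (ht1 n) hz)
    have h2 := norm_deriv_ph_le (ht0 n) (ht1 n) hz
    calc ω (t n) * (‖deriv (g n) (Ph (t n) z)‖ * ‖deriv (Ph (t n)) z‖)
        ≤ ω (t n) * (D n * (2 / t n)) := by
          apply mul_le_mul_of_nonneg_left _ (hωt n).le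
          exact mul_le_mul h1 h2 (norm_nonneg _) (hD0 n).le
      _ = lam n := by simp only [hlamdef]; ring
  have hFd2 : ∀ n, ∀ z : ℂ, ‖z‖ < 1 → (1 - ‖z‖) * ‖deriv (F n) z‖ ≤ ω (t n) := fun n z hz => by
    rw [hFderiv n z hz.le]
    have h1 := (hM n).bloch _ (norm_ph_lt (ht0 n) (ht1 n) hz)
    have h2 := mul_norm_deriv_ph (ht0 n) (ht1 n) hz.le
    rw [← h2] at h1
    have h3 : 1 - ‖z‖ ≤ 1 - ‖z‖ ^ 2 := by nlinarith [norm_nonneg z]
    have h4 : 0 ≤ ‖deriv (g n) (Ph (t n) z)‖ * ‖deriv (Ph (t n)) z‖ := by positivity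
    have h5 : (1 - ‖z‖) * (‖deriv (g n) (Ph (t n) z)‖ * ‖deriv (Ph (t n)) z‖) ≤ 1 := by
      calc (1 - ‖z‖) * (‖deriv (g n) (Ph (t n) z)‖ * ‖deriv (Ph (t n)) z‖)
          ≤ (1 - ‖z‖ ^ 2) * (‖deriv (g n) (Ph (t n) z)‖ * ‖deriv (Ph (t n)) z‖) :=
            mul_le_mul_of_nonneg_right h3 h4
        _ = (1 - ‖z‖ ^ 2) * ‖deriv (Ph (t n)) z‖ * ‖deriv (g n) (Ph (t n) z)‖ := by ring
        _ ≤ 1 := h1
    have h6 := hωt n
    nlinarith
  have hFlin : ∀ n, ∀ z : ℂ, ‖z‖ ≤ 1 → ‖F n z‖ ≤ lam n * ‖1 - z‖ := fun n z hz => by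
    have h1 := Convex.norm_image_sub_le_of_norm_deriv_le (f := F n) (s := closedBall (0 : ℂ) 1)
      (x := 1) (y := z) (C := lam n)
      (fun w hw => (hFhas n w (mem_closedBall_zero_iff.mp hw)).differentiableAt)
      (fun w hw => hFd1 n w (mem_closedBall_zero_iff.mp hw))
      (convex_closedBall _ _) (by simp) (mem_closedBall_zero_iff.mpr hz)
    have h2 : F n 1 = 0 := by
      simp only [hFdef]
      rw [ph_one (ht0 n), (hM n).one, mul_zero]
    rw [h2, sub_zero, norm_sub_rev z 1] at h1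
    exact h1
  -- the function `f`
  set f : ℂ → ℂ := fun z => ∑' n, F n z with hfdef
  have hgeom : Summable (fun n : ℕ => (1 / 2 : ℝ) ^ (n + 1)) := by
    have := (summable_geometric_of_lt_one (r := (1 / 2 : ℝ)) (by norm_num) (by norm_num))
    exact (summable_nat_add_iff 1).mpr this
  have hFgeom : ∀ n, ∀ z : ℂ, ‖z‖ ≤ 1 → ‖F n z‖ ≤ (1 / 2) ^ (n + 1) := fun n z hz => by
    refine (hFbound' n z hz).trans ?_
    have h1 := hXle1 n
    have h2 : (0 : ℝ) < (1 / 2) ^ (n + 1) := by positivity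
    nlinarith
  have hFsum : ∀ z : ℂ, ‖z‖ ≤ 1 → Summable (fun n => F n z) := fun z hz =>
    Summable.of_norm_bounded hgeom (fun n => hFgeom n z hz)
  have hFdiff : ∀ n, DifferentiableOn ℂ (F n) (ball 0 1) := fun n z hz =>
    (hFhas n z (mem_ball_zero_iff.mp hz).le).differentiableAt.differentiableWithinAt
  have hFle : ∀ n, ∀ z ∈ ball (0 : ℂ) 1, ‖F n z‖ ≤ (1 / 2) ^ (n + 1) := fun n z hz =>
    hFgeom n z (mem_ball_zero_iff.mp hz).le
  have hfdiff : DifferentiableOn ℂ f (ball 0 1) :=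
    Complex.differentiableOn_tsum_of_summable_norm hgeom hFdiff isOpen_ball hFle
  have hfderiv : ∀ z : ℂ, ‖z‖ < 1 → HasSum (fun n => deriv (F n) z) (deriv f z) := fun z hz =>
    Complex.hasSum_deriv_of_summable_norm hgeom hFdiff isOpen_ball hFle (mem_ball_zero_iff.mpr hz)
  have hfb : MemHInf f := by
    refine ⟨hfdiff, 1, fun z hz => ?_⟩
    apply norm_le_of_hasSum (hFsum z hz.le).hasSum
    intro N
    exact (Finset.sum_le_sum (fun n _ => hFgeom n z hz.le)).trans (sum_geom_le N)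
  have htail : ∀ n m, n < m → ω (t m) * D m ≤ (1 / 2) ^ (m + 1) * ω (τ n) := fun n m hnm => by
    refine (hωD m).trans ?_
    apply mul_le_mul_of_nonneg_left _ (by positivity)
    exact (hXanti (by omega : n + 1 ≤ m)).trans (hXτ n)
  have htail' : ∀ n m, n < m → ω (t m) ≤ (1 / 2) ^ (m + 1) * ω (τ n) := fun n m hnm => by
    refine le_trans ?_ (htail n m hnm)
    have h1 := hD1 m
    have h2 := hωt m
    nlinarith
  have hfB : MemBloch ω f := by
    refine ⟨hfdiff, 2 * K + 4, by positivity, 1 / 2, by norm_num, ?_⟩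
    intro z hz1 hz2
    set s : ℝ := 1 - ‖z‖ with hs
    have hs0 : 0 < s := by rw [hs]; linarith
    have hs2 : s ≤ 1 / 2 := by rw [hs]; linarith
    have hωs : 0 < ω s := hω.pos _ (hmem _ hs0 hs2)
    have hKωs : 0 < K * ω s := by positivity
    set e : ℕ → ℝ := fun m => s * ‖deriv (F m) z‖ with he
    have he0 : ∀ m, 0 ≤ e m := fun m => by simp only [he]; positivity
    have he1 : ∀ m, e m ≤ ω (t m) := fun m => hFd2 m z hz2
    have he2 : ∀ m, e m ≤ s * lam m := fun m =>
      mul_le_mul_of_nonneg_left (hFd1 m z hz2.le) hs0.le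
    have hex : ∃ n, t n ≤ s := by
      obtain ⟨n, hn⟩ := exists_pow_lt_of_lt_one hs0 (show (1 / 2 : ℝ) < 1 by norm_num)
      refine ⟨n, (htpow' n).trans ?_⟩
      refine le_trans ?_ hn.le
      exact pow_le_pow_of_le_one (by norm_num) (by norm_num) (by omega)
    have hmain : ∀ N, ∑ m ∈ Finset.range N, e m ≤ (2 * K + 4) * ω s := by
      classical
      set n := Nat.find hex with hn
      have hnle : t n ≤ s := Nat.find_spec hex
      have hωn : ω (t n) ≤ ω s :=
        hω.monotoneOn (hmem _ (ht0 n) (by linarith [ht256 n])) (hmem _ hs0 hs2) hnle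
      have hωτn : ω (τ n) ≤ ω s := (hωττ n).trans hωn
      have hA : ∑ m ∈ Finset.range n, e m ≤ K * ω s + (2 + K) * ω s := by
        rcases Nat.eq_zero_or_pos n with h0 | hpos
        · rw [h0, Finset.sum_range_zero]
          positivity
        · obtain ⟨k, hk⟩ := Nat.exists_eq_succ_of_ne_zero hpos.ne'
          have hsk : s < t k := by
            have := Nat.find_min hex (m := k) (by omega)
            exact not_le.mp this
          have htk2 : t k ≤ 1 / 2 := by linarith [ht256 k]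
          rw [hk, Nat.succ_eq_add_one, Finset.sum_range_succ]
          apply add_le_add
          · have h1 : ∑ m ∈ Finset.range k, e m ≤ s * S k := by
              rw [hSsum, Finset.mul_sum]
              exact Finset.sum_le_sum (fun m _ => he2 m)
            refine h1.trans ?_
            have h2 := hS k
            have h3 := hlow s (t k) hs0 hsk.le htk2
            have h4 : s * (512 * t k * S k) ≤ s * ω (t k) := mul_le_mul_of_nonneg_left h2 hs0.le
            have h5 : t k * (512 * (s * S k)) ≤ t k * (K * ω s) := by linarith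
            have h6 := le_of_mul_le_mul_left h5 (ht0 k)
            have h7 : 0 ≤ S k := by
              rw [hSsum]; exact Finset.sum_nonneg (fun m _ => (hlam0 m).le)
            have h8 : 0 ≤ s * S k := by positivity
            linarith
          · rcases le_or_gt (τ k) s with h | h
            · have h1 : ω (τ k) ≤ ω s :=
                hω.monotoneOn (hmem _ (hτ0 k) (by linarith)) (hmem _ hs0 hs2) h
              have h2 := he1 k
              have h3 := hslow k
              linarith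
            · have h1 := hlow s (τ k) hs0 h.le (by linarith [hτt k])
              have h2 := he2 k
              have h3 := hslow k
              have htk := ht0 k
              have hDk := hD0 k
              have h4 : s * lam k ≤ 4 * D k / t k * (s * ω (τ k)) := by
                have e1 : s * lam k = 2 * D k / t k * (s * ω (t k)) := by
                  simp only [hlamdef]; ring
                rw [e1]
                have e2 : 2 * D k / t k * (s * ω (t k)) ≤ 2 * D k / t k * (s * (2 * ω (τ k))) := by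
                  apply mul_le_mul_of_nonneg_left _ (by positivity)
                  exact mul_le_mul_of_nonneg_left h3.le hs0.le
                refine e2.trans (le_of_eq ?_)
                ring
              have h5 : 4 * D k / t k * (s * ω (τ k)) ≤ 4 * D k / t k * (K * (τ k * ω s)) :=
                mul_le_mul_of_nonneg_left h1 (by positivity)
              have h6 : 4 * D k / t k * (K * (τ k * ω s)) = 1 / 25 * (K * ω s) := by
                simp only [hτdef]
                field_simp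
                norm_num
              linarith
      intro N
      have h1 := sum_split (e := e) (n := n) (A := K * ω s + (2 + K) * ω s) (B := ω s)
        (G := ω s) he0 hA ((he1 n).trans hωn) hωs.le
        (fun m hm => (he1 m).trans ((htail' n m hm).trans
          (mul_le_mul_of_nonneg_left hωτn (by positivity)))) N
      linarith
    have hnorm : ‖deriv f z‖ ≤ (2 * K + 4) * ω s / s := by
      apply norm_le_of_hasSum (hfderiv z hz2)
      intro N
      rw [le_div_iff₀ hs0, Finset.sum_mul]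
      have := hmain N
      simp only [he] at this
      refine le_trans (le_of_eq ?_) this
      apply Finset.sum_congr rfl
      intro m _
      ring
    rw [le_div_iff₀ hs0] at hnorm
    linarith
  -- the zeros
  set al : ℕ → ℕ → ℂ := fun n j => Ps (t n) (a n j) with haldef
  have ha_lt : ∀ n, ∀ j ∈ A n, ‖a n j‖ < 1 := fun n j hj => (hM n).a_lt j hj
  have ha_far : ∀ n, ∀ j ∈ A n, 1 / 128 ≤ ‖1 + a n j‖ := fun n j hj => by
    have h1 : pd (a n j) (a n j) < 1 / 4 := by
      unfold pd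
      rw [sub_self, zero_div, norm_zero]
      norm_num
    exact ((hM n).near j hj (a n j) (ha_lt n j hj) h1).2.2
  have hal_lt : ∀ n, ∀ j ∈ A n, ‖al n j‖ < 1 := fun n j hj =>
    norm_ps_lt (ht0 n) (ht1 n) (ha_lt n j hj)
  have hal_near : ∀ n, ∀ j ∈ A n, ‖1 - al n j‖ ≤ 512 * t n := fun n j hj =>
    norm_one_sub_ps_le (ht0 n) (ht256 n) (ha_lt n j hj).le (ha_far n j hj)
  have h512 : ∀ n, 512 * t n ≤ (1 / 2) ^ (n + 1) := fun n => by
    have h1 := htpow' n
    have h2 : (1 / 2 : ℝ) ^ (n + 10) = (1 / 2) ^ (n + 1) / 512 := by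
      have : n + 10 = (n + 1) + 9 := by ring
      rw [this, pow_add]
      norm_num
      ring
    rw [h2] at h1
    linarith
  have hphlt : ∀ n, ∀ z : ℂ, ‖z‖ < 1 → ‖Ph (t n) z‖ < 1 := fun n z hz =>
    norm_ph_lt (ht0 n) (ht1 n) hz
  have hpd : ∀ n, ∀ j ∈ A n, ∀ z : ℂ, ‖z‖ < 1 → pd (al n j) z = pd (a n j) (Ph (t n) z) :=
    fun n j hj z hz => pd_ps (ht0 n) (ht1 n) (ha_lt n j hj) hz.le
  have hBD : BData A al (fun n => (1 / 2) ^ (n + 1)) := by
    constructor
    · intro n j hj h0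
      have h1 := (hal_near n j hj).trans (h512 n)
      rw [h0, sub_zero, norm_one] at h1
      have h2 : (1 / 2 : ℝ) ^ (n + 1) ≤ 1 / 2 := by
        rw [pow_succ]
        have : (1 / 2 : ℝ) ^ n ≤ 1 := pow_le_one₀ (by norm_num) (by norm_num)
        linarith
      linarith
    · exact hal_lt
    · refine Summable.of_nonneg_of_le (fun n => Finset.sum_nonneg (fun j hj => by
        linarith [hal_lt n j hj])) (fun n => ?_) (hgeom.mul_left 2048)
      have h1 : ∀ j ∈ A n, 1 - ‖al n j‖ ≤ 131072 * t n * (1 - pd (a n j) 0 ^ 2) := by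
        intro j hj
        have h2 := one_sub_norm_ps_le (ht0 n) (ht256 n) (ha_lt n j hj) (ha_far n j hj)
        have h3 : pd (a n j) 0 = ‖a n j‖ := by
          unfold pd
          simp
        rw [h3]
        exact h2
      refine (Finset.sum_le_sum h1).trans ?_
      rw [← Finset.mul_sum]
      have h4 := (hM n).sum_le 0 (by simp)
      have h5 := ht0 n
      have h6 := h512 n
      have h7 : 131072 * t n * ∑ j ∈ A n, (1 - pd (a n j) 0 ^ 2) ≤ 131072 * t n * 6 :=
        mul_le_mul_of_nonneg_left h4 (by positivity)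
      refine h7.trans ?_
      linarith
    · have := tendsto_pow_atTop_nhds_zero_of_lt_one (r := (1 / 2 : ℝ)) (by norm_num) (by norm_num)
      exact (tendsto_add_atTop_iff_nat 1).mpr this
    · intro n j hj
      exact (hal_near n j hj).trans (h512 n)
  set Θ : ℂ → ℂ := Th A al with hΘdef
  have hΘ : IsInner Θ := hBD.isInner
  -- windows
  set l : ℕ → ℝ := fun n => (1 / 2) ^ (n + 5) * (t n / D n) with hldef
  set u : ℕ → ℝ := fun n => 2 ^ (n + 5) * (D n * t n) with hudef
  have hlu : ∀ n, l n ≤ u n := by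
    intro n
    have h1 : (1 / 2 : ℝ) ^ (n + 5) ≤ 1 := pow_le_one₀ (by norm_num) (by norm_num)
    have h2 : (1 : ℝ) ≤ 2 ^ (n + 5) := one_le_pow₀ (by norm_num)
    have h3 := ht0 n
    have h4 := hD1 n
    have h5 := hD0 n
    have h6 : 0 < t n / D n := by positivity
    have h7 : t n / D n ≤ t n := div_le_self h3.le h4
    have h8 : t n ≤ D n * t n := by nlinarith
    calc l n ≤ 1 * (t n / D n) := mul_le_mul_of_nonneg_right h1 h6.le
      _ ≤ 1 * (D n * t n) := by linarith
      _ ≤ u n := mul_le_mul_of_nonneg_right h2 (by positivity)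
  have hul : ∀ n, u (n + 1) ≤ l n := by
    intro n
    have h1 := (hX1 (n + 1)).trans (hXl n)
    have h2 : (2 : ℝ) ^ (n + 1 + 5) ≤ 2 ^ (n + 1 + 10) :=
      pow_le_pow_right₀ (by norm_num) (by omega)
    have h3 : 0 < D (n + 1) * t (n + 1) := mul_pos (hD0 _) (ht0 _)
    calc u (n + 1) ≤ 2 ^ (n + 1 + 10) * (D (n + 1) * t (n + 1)) :=
          mul_le_mul_of_nonneg_right h2 h3.le
      _ ≤ l n := h1
  set e : ℂ → ℕ → ℝ := fun z n => ∑ j ∈ A n, (1 - pd (al n j) z ^ 2) with hedef
  have he_eq : ∀ z : ℂ, ‖z‖ < 1 → ∀ n, e z n = ∑ j ∈ A n, (1 - pd (a n j) (Ph (t n) z) ^ 2) := by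
    intro z hz n
    simp only [hedef]
    apply Finset.sum_congr rfl
    intro j hj
    rw [hpd n j hj z hz]
  have he0 : ∀ z : ℂ, ‖z‖ < 1 → ∀ n, 0 ≤ e z n := by
    intro z hz n
    apply Finset.sum_nonneg
    intro j hj
    have h1 := pd_le_one (hal_lt n j hj) hz.le
    have h2 := pd_nonneg (al n j) z
    nlinarith
  have he6 : ∀ z : ℂ, ‖z‖ < 1 → ∀ n, e z n ≤ 6 := by
    intro z hz n
    rw [he_eq z hz n]
    exact (hM n).sum_le _ (hphlt n z hz)
  have heD : ∀ z : ℂ, ‖z‖ < 1 → ∀ n, e z n ≤ D n * (1 - pd ((1 - t n : ℝ) : ℂ) z ^ 2) := by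
    intro z hz n
    rw [he_eq z hz n, ← norm_ph]
    exact (hM n).sum_le' _ (hphlt n z hz)
  have hb_lt : ∀ n, ‖((1 - t n : ℝ) : ℂ)‖ < 1 := fun n => norm_b_lt (ht0 n) (ht1 n)
  have hb_n : ∀ n, ‖((1 - t n : ℝ) : ℂ)‖ = 1 - t n := fun n => norm_b (ht0 n) (ht1 n)
  have hb_1 : ∀ n, ‖1 - ((1 - t n : ℝ) : ℂ)‖ = t n := fun n => by
    have : (1 : ℂ) - ((1 - t n : ℝ) : ℂ) = ((t n : ℝ) : ℂ) := by push_cast; ring
    rw [this, Complex.norm_real, Real.norm_of_nonneg (ht0 n).le]
  have hwin : ∀ n, ∀ z : ℂ, ‖z‖ < 1 → ¬ (l n < ‖1 - z‖ ∧ ‖1 - z‖ < u n) →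
      e z n ≤ (1 / 2) ^ (n + 1) := by
    intro n z hz hnot
    have h3 := ht0 n
    have h4 := hD1 n
    have h5 := hD0 n
    refine (heD z hz n).trans ?_
    rcases le_or_gt ‖1 - z‖ (l n) with hle | hgt
    · have h6 : l n ≤ t n / 2 := by
        have h7 : (1 / 2 : ℝ) ^ (n + 5) ≤ 1 / 2 := by
          have : (1 / 2 : ℝ) ^ (n + 5) = (1 / 2) ^ (n + 4) * (1 / 2) := by rw [pow_succ]
          rw [this]
          have : (1 / 2 : ℝ) ^ (n + 4) ≤ 1 := pow_le_one₀ (by norm_num) (by norm_num)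
          linarith
        have h8 : t n / D n ≤ t n := div_le_self h3.le h4
        have h9 : 0 < t n / D n := by positivity
        calc l n ≤ 1 / 2 * (t n / D n) := mul_le_mul_of_nonneg_right h7 h9.le
          _ ≤ t n / 2 := by linarith
      have h7 := e_low (hb_lt n) hz (by rw [hb_1]; linarith)
      rw [hb_n] at h7
      have h8 : 1 - (1 - t n) = t n := by ring
      rw [h8] at h7
      calc D n * (1 - pd ((1 - t n : ℝ) : ℂ) z ^ 2) ≤ D n * (16 * ‖1 - z‖ / t n) :=
            mul_le_mul_of_nonneg_left h7 h5.le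
        _ ≤ D n * (16 * l n / t n) := by gcongr
        _ = (1 / 2) ^ (n + 1) := by
          simp only [hldef]
          have : (1 / 2 : ℝ) ^ (n + 5) = (1 / 2) ^ (n + 1) / 16 := by
            have : n + 5 = (n + 1) + 4 := by ring
            rw [this, pow_add]
            norm_num
            ring
          rw [this]
          field_simp
    · have hge : u n ≤ ‖1 - z‖ := by
        by_contra h
        push Not at h
        exact hnot ⟨hgt, h⟩
      have h10 : (2 : ℝ) ^ (n + 5) = 16 * 2 ^ (n + 1) := by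
        have : n + 5 = (n + 1) + 4 := by ring
        rw [this, pow_add]
        norm_num
        ring
      have h2n : (1 : ℝ) ≤ 2 ^ (n + 1) := one_le_pow₀ (by norm_num)
      have hDt : 0 < D n * t n := mul_pos h5 h3
      have hu : u n = 16 * 2 ^ (n + 1) * (D n * t n) := by
        simp only [hudef]; rw [h10]
      have hupos : 0 < u n := by rw [hu]; positivity
      have h6 : 2 * t n ≤ u n := by
        rw [hu]
        have : t n ≤ D n * t n := by nlinarith
        nlinarith
      have h7 := e_high (hb_lt n) hz (by rw [hb_1]; linarith)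
      rw [hb_n] at h7
      have h8 : 1 - (1 - t n) = t n := by ring
      rw [h8] at h7
      calc D n * (1 - pd ((1 - t n : ℝ) : ℂ) z ^ 2) ≤ D n * (16 * t n / ‖1 - z‖) :=
            mul_le_mul_of_nonneg_left h7 h5.le
        _ ≤ D n * (16 * t n / u n) := by gcongr
        _ = (1 / 2) ^ (n + 1) := by
          rw [hu]
          have : (1 / 2 : ℝ) ^ (n + 1) = 1 / 2 ^ (n + 1) := by rw [div_pow, one_pow]
          rw [this]
          field_simp
  have hsum : ∀ z : ℂ, ‖z‖ < 1 → ∀ N, ∑ n ∈ Finset.range N,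
      ∑ j ∈ A n, (1 - pd (al n j) z ^ 2) ≤ 7 := by
    intro z hz N
    have h1 := sum_le_of_window (e := e z) (C := 6) (he0 z hz) (he6 z hz)
      (by
        intro m n hmn
        rcases window_disjoint hlu hul (x := ‖1 - z‖) hmn with h | h
        · exact Or.inl (hwin m z hz h)
        · exact Or.inr (hwin n z hz h)) N
    simp only [hedef] at h1
    linarith
  have hne1 : ∀ z : ℂ, ‖z‖ < 1 → z ≠ 1 := by
    rintro z hz rfl
    simp at hz
  -- `(2_ε)` holds for a small `ε`
  have hcond : ∃ ε ∈ Ioo (0 : ℝ) 1, Cond2 ω f Θ ε := by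
    refine ⟨Real.exp (-(8 * 7)), ⟨Real.exp_pos _, by rw [Real.exp_lt_one_iff]; norm_num⟩,
      12, by norm_num, ?_⟩
    intro z hz0 hz1 hzΘ
    have hex : ∃ n, ∃ j ∈ A n, pd (al n j) z < 1 / 4 := by
      by_contra hno
      push Not at hno
      have := hBD.lower hz1.le (hne1 z hz1) (K := 7) (hsum z hz1) hno
      linarith
    obtain ⟨n, j, hj, hnj⟩ := hex
    rw [hpd n j hj z hz1] at hnj
    set w : ℂ := Ph (t n) z with hw
    have hw1 : ‖w‖ < 1 := hphlt n z hz1
    have hzw : Ps (t n) w = z := ps_ph (ht0 n) (ht1 n) hz1.le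
    obtain ⟨hg4, hDw, hwfar⟩ := (hM n).near j hj w hw1 hnj
    have h1z : ‖1 - z‖ ≤ 512 * t n := by
      rw [← hzw]
      exact norm_one_sub_ps_le (ht0 n) (ht256 n) hw1.le hwfar
    have hτz : τ n ≤ 1 - ‖z‖ := by
      have h1 := le_one_sub_norm_ps (ht0 n) (ht1 n) hw1
      rw [hzw] at h1
      refine le_trans ?_ h1
      have h2 := ht0 n
      have h3 := hD0 n
      have h4 : t n * (1 / D n) / 8 ≤ t n * (1 - ‖w‖) / 8 := by gcongr
      refine le_trans ?_ h4
      simp only [hτdef]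
      rw [div_le_iff₀ (by positivity)]
      have : t n * (1 / D n) / 8 * (100 * D n) = t n * (100 / 8) := by field_simp
      rw [this]
      linarith
    have hzpos : 0 < ‖z‖ := norm_pos_iff.mpr hz0
    have hωz : ω (τ n) ≤ ω (1 - ‖z‖) :=
      hω.monotoneOn (hmem _ (hτ0 n) (by linarith [ht256 n, hτt n])) ⟨by linarith, by linarith⟩ hτz
    have hA : ∑ m ∈ Finset.range n, ‖F m z‖ ≤ ω (t n) := by
      calc ∑ m ∈ Finset.range n, ‖F m z‖ ≤ ∑ m ∈ Finset.range n, lam m * ‖1 - z‖ :=
            Finset.sum_le_sum (fun m _ => hFlin m z hz1.le)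
        _ = S n * ‖1 - z‖ := by rw [← Finset.sum_mul, hSsum]
        _ ≤ S n * (512 * t n) := by
            apply mul_le_mul_of_nonneg_left h1z
            rw [hSsum]; exact Finset.sum_nonneg (fun m _ => (hlam0 m).le)
        _ ≤ ω (t n) := by
            have := hS n
            linarith
    have hB : ‖F n z‖ ≤ 4 * ω (t n) := by
      rw [hFn]
      have := hωt n
      nlinarith
    have h1 : ‖f z‖ ≤ ω (t n) + 4 * ω (t n) + ω (τ n) := by
      apply norm_le_of_hasSum (hFsum z hz1.le).hasSum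
      exact sum_split (fun m => norm_nonneg _) hA hB (hωτ n).le
        (fun m hm => (hFbound m z hz1.le).trans (htail n m hm))
    have h2 := hslow n
    have h3 := hωτ n
    linarith
  -- the contradiction
  have htfae := hP _ _ hfB hfb hΘ
  have h12 : (∃ ε ∈ Ioo (0 : ℝ) 1, Cond2 ω f Θ ε) ↔ (∀ ε ∈ Ioo (0 : ℝ) 1, Cond2 ω f Θ ε) :=
    htfae.out 1 2
  obtain ⟨C, hC, hCb⟩ := (h12.mp hcond) (Real.exp (-(1 / 128)))
    ⟨Real.exp_pos _, by rw [Real.exp_lt_one_iff]; norm_num⟩
  have hfinal : ∀ n : ℕ, (n : ℝ) ≤ C + 2 := by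
    intro n
    set z : ℂ := ((1 - t n : ℝ) : ℂ) with hz
    have hz1 : ‖z‖ < 1 := hb_lt n
    have hz0 : z ≠ 0 := by
      intro h0
      have := hb_n n
      rw [← hz, h0, norm_zero] at this
      linarith [ht256 n]
    have hphz : Ph (t n) z = 0 := ph_b
    have hΘz : ‖Θ z‖ < Real.exp (-(1 / 128)) := by
      have h1 := hBD.Th_le hz1.le (hne1 z hz1) n
      have h2 : ∏ j ∈ A n, pd (al n j) z = ∏ j ∈ A n, ‖a n j‖ := by
        apply Finset.prod_congr rfl
        intro j hj
        rw [hpd n j hj z hz1, hphz]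
        unfold pd
        simp
      rw [h2] at h1
      refine (h1.trans (hM n).prod_le).trans_lt ?_
      apply Real.exp_lt_exp.mpr
      norm_num
    have h1 := hCb z hz0 hz1 hΘz
    have h2 : 1 - ‖z‖ = t n := by rw [hz, hb_n]; ring
    rw [h2] at h1
    -- lower bound
    have h3 : f z = F n z + ∑' m, (if m = n then 0 else F m z) :=
      (hFsum z hz1.le).tsum_eq_add_tsum_ite n
    have h4 : ‖∑' m, (if m = n then 0 else F m z)‖ ≤ ω (t n) + 0 + ω (τ n) := by
      have hsm : Summable (fun m => (if m = n then 0 else F m z)) := by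
        refine Summable.of_norm_bounded hgeom (fun m => ?_)
        split_ifs
        · rw [norm_zero]; positivity
        · exact hFgeom m z hz1.le
      apply norm_le_of_hasSum hsm.hasSum
      apply sum_split (fun m => norm_nonneg _) _ _ (hωτ n).le _
      · exact n
      · calc ∑ m ∈ Finset.range n, ‖(if m = n then 0 else F m z)‖
            ≤ ∑ m ∈ Finset.range n, lam m * ‖1 - z‖ := by
              apply Finset.sum_le_sum
              intro m hm
              have : m ≠ n := by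
                have := Finset.mem_range.mp hm
                omega
              rw [if_neg this]
              exact hFlin m z hz1.le
          _ = S n * t n := by rw [← Finset.sum_mul, hSsum, hz, hb_1]
          _ ≤ ω (t n) := by
              have h5 := hS n
              have h6 : 0 ≤ S n := by
                rw [hSsum]; exact Finset.sum_nonneg (fun m _ => (hlam0 m).le)
              have h7 : 0 ≤ S n * t n := mul_nonneg h6 (ht0 n).le
              linarith
      · rw [if_pos rfl, norm_zero]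
      · intro m hm
        have : m ≠ n := by omega
        rw [if_neg this]
        exact (hFbound m z hz1.le).trans (htail n m hm)
    have h5 : (n : ℝ) * ω (t n) ≤ ‖F n z‖ := by
      rw [hFn, hphz]
      have := (hM n).zero
      have := hωt n
      nlinarith
    have h6 : ‖F n z‖ ≤ ‖f z‖ + ‖∑' m, (if m = n then 0 else F m z)‖ := by
      have : F n z = f z - ∑' m, (if m = n then 0 else F m z) := by rw [h3]; ring
      rw [this]
      exact norm_sub_le _ _
    have h7 := hωττ n
    have h8 := hωt n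
    have h9 : (n : ℝ) * ω (t n) ≤ (C + 2) * ω (t n) := by linarith
    exact le_of_mul_le_mul_right h9 h8
  obtain ⟨n, hn⟩ := exists_nat_gt (C + 2)
  have := hfinal n
  linarith

end Pool.Agent.Helper44.BI
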