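import Mathlib

/-!
# Discrete Parseval identity on the roots of unity
-/

namespace Pool.Agent.Helper44.BI

open Polynomial

/-- powers of a primitive root: orthogonality -/
lemma root_sum {N : ℕ} {ζ : ℂ} (hζ : IsPrimitiveRoot ζ N) {i k : ℕ} (hi : i < N)
    (hk : k < N) : ∑ j ∈ Finset.range N, (ζ ^ k * (ζ ^ i)⁻¹) ^ j = if i = k then (N : ℂ) else 0 := by
  have hN : N ≠ 0 := by omega
  have hζ0 : ζ ≠ 0 := hζ.ne_zero hN
  split_ifs with h
  · subst h
    have : ζ ^ i * (ζ ^ i)⁻¹ = 1 := mul_inv_cancel₀ (pow_ne_zero _ hζ0)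
    rw [this]
    simp
  · set x : ℂ := ζ ^ k * (ζ ^ i)⁻¹ with hx
    have hxN : x ^ N = 1 := by
      rw [hx, mul_pow, inv_pow, ← pow_mul, ← pow_mul, mul_comm k, mul_comm i, pow_mul, pow_mul,
        hζ.pow_eq_one]
      simp
    have hx1 : x ≠ 1 := by
      intro h1
      apply h
      have h2 : ζ ^ k = ζ ^ i := by
        have h3 : ζ ^ k * (ζ ^ i)⁻¹ * ζ ^ i = 1 * ζ ^ i := by rw [← hx, h1]
        rwa [inv_mul_cancel_right₀ (pow_ne_zero _ hζ0), one_mul] at h3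
      exact hζ.pow_inj hi hk h2.symm
    have h3 := geom_sum_mul x N
    rw [hxN, sub_self] at h3
    rcases mul_eq_zero.mp h3 with h4 | h4
    · exact h4
    · exact absurd (sub_eq_zero.mp h4) hx1

/-- discrete Parseval -/
lemma parseval {N : ℕ} {ζ : ℂ} (hζ : IsPrimitiveRoot ζ N) (c : ℕ → ℂ) :
    ∑ j ∈ Finset.range N, ‖∑ k ∈ Finset.range N, c k * (ζ ^ j) ^ k‖ ^ 2 =
      N * ∑ k ∈ Finset.range N, ‖c k‖ ^ 2 := by
  rcases Nat.eq_zero_or_pos N with hN0 | hN
  · subst hN0; simp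
  have hNne : N ≠ 0 := by omega
  have hn1 : ‖ζ‖ = 1 := hζ.norm'_eq_one hNne
  have hconj : (starRingEnd ℂ) ζ = ζ⁻¹ := by
    rw [Complex.inv_def, Complex.normSq_eq_norm_sq, hn1]
    simp
  have hC : ((∑ j ∈ Finset.range N, ‖∑ k ∈ Finset.range N, c k * (ζ ^ j) ^ k‖ ^ 2 : ℝ) : ℂ) =
      ((N * ∑ k ∈ Finset.range N, ‖c k‖ ^ 2 : ℝ) : ℂ) := by
    push_cast
    have h1 : ∀ j ∈ Finset.range N, ((‖∑ k ∈ Finset.range N, c k * (ζ ^ j) ^ k‖ : ℂ)) ^ 2 =
        ∑ i ∈ Finset.range N, ∑ k ∈ Finset.range N, ((starRingEnd ℂ) (c i) * c k) *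
          (ζ ^ k * (ζ ^ i)⁻¹) ^ j := by
      intro j _
      rw [← Complex.conj_mul', map_sum, Finset.sum_mul_sum]
      apply Finset.sum_congr rfl
      intro i _
      apply Finset.sum_congr rfl
      intro k _
      rw [map_mul, map_pow, map_pow, hconj, mul_pow, inv_pow, inv_pow, inv_pow, ← pow_mul,
        ← pow_mul, ← pow_mul, ← pow_mul, mul_comm j i, mul_comm j k]
      ring
    rw [Finset.sum_congr rfl h1, Finset.sum_comm, Finset.mul_sum]
    apply Finset.sum_congr rfl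
    intro i hi
    rw [Finset.sum_comm]
    have h2 : ∀ k ∈ Finset.range N, ∑ j ∈ Finset.range N, ((starRingEnd ℂ) (c i) * c k) *
        (ζ ^ k * (ζ ^ i)⁻¹) ^ j = ((starRingEnd ℂ) (c i) * c k) * (if i = k then (N : ℂ) else 0) := by
      intro k hk
      rw [← Finset.mul_sum, root_sum hζ (Finset.mem_range.mp hi) (Finset.mem_range.mp hk)]
    rw [Finset.sum_congr rfl h2]
    simp only [mul_ite, mul_zero]
    rw [Finset.sum_ite_eq, if_pos hi, Complex.conj_mul']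
    ring
  exact_mod_cast hC

/-- the mean of a polynomial over the roots of unity -/
lemma mean_eval {N : ℕ} {ζ : ℂ} (hζ : IsPrimitiveRoot ζ N) (p : ℂ[X]) (hp : p.natDegree < N) :
    ∑ j ∈ Finset.range N, p.eval (ζ ^ j) = N * p.eval 0 := by
  have hN : 0 < N := by omega
  have h1 : ∀ j ∈ Finset.range N, p.eval (ζ ^ j) =
      ∑ k ∈ Finset.range N, p.coeff k * (ζ ^ k * (ζ ^ 0)⁻¹) ^ j := by
    intro j _
    rw [Polynomial.eval_eq_sum_range' hp]
    apply Finset.sum_congr rfl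
    intro k _
    simp only [pow_zero, inv_one, mul_one]
    rw [← pow_mul, ← pow_mul, mul_comm j k]
  rw [Finset.sum_congr rfl h1, Finset.sum_comm]
  have h2 : ∀ k ∈ Finset.range N, ∑ j ∈ Finset.range N, p.coeff k * (ζ ^ k * (ζ ^ 0)⁻¹) ^ j =
      p.coeff k * (if 0 = k then (N : ℂ) else 0) := by
    intro k hk
    rw [← Finset.mul_sum, root_sum hζ hN (Finset.mem_range.mp hk)]
  rw [Finset.sum_congr rfl h2]
  simp only [mul_ite, mul_zero]
  rw [Finset.sum_ite_eq, if_pos (Finset.mem_range.mpr hN), ← Polynomial.coeff_zero_eq_eval_zero]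
  ring

/-- Parseval for polynomials -/
lemma parseval_poly {N : ℕ} {ζ : ℂ} (hζ : IsPrimitiveRoot ζ N) (p : ℂ[X])
    (hp : p.natDegree < N) :
    ∑ j ∈ Finset.range N, ‖p.eval (ζ ^ j)‖ ^ 2 =
      N * ∑ k ∈ Finset.range N, ‖p.coeff k‖ ^ 2 := by
  rw [← parseval hζ (fun k => p.coeff k)]
  apply Finset.sum_congr rfl
  intro j _
  rw [Polynomial.eval_eq_sum_range' hp]

/-- counting: many roots of unity at which the real part is at most `-1/32` -/
lemma count_neg {N : ℕ} {ζ : ℂ} (hζ : IsPrimitiveRoot ζ N) (p : ℂ[X])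
    (hp : 2 * p.natDegree < N) (h0 : p.eval 0 = 0) (hb : ∀ z : ℂ, ‖z‖ ≤ 1 → ‖p.eval z‖ ≤ 1)
    (hsq : 1 / 4 ≤ ∑ k ∈ Finset.range N, ‖p.coeff k‖ ^ 2) :
    (N : ℝ) / 32 ≤ ((Finset.range N).filter (fun j => (p.eval (ζ ^ j)).re ≤ -(1 / 32))).card := by
  have hNne : N ≠ 0 := by omega
  have hN0 : (0 : ℝ) < N := by
    have : 0 < N := by omega
    exact_mod_cast this
  have hn1 : ‖ζ‖ = 1 := hζ.norm'_eq_one hNne
  have hx1 : ∀ j, |(p.eval (ζ ^ j)).re| ≤ 1 := by
    intro j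
    refine (Complex.abs_re_le_norm _).trans (hb _ ?_)
    rw [norm_pow, hn1, one_pow]
  have hs1 : ∑ j ∈ Finset.range N, (p.eval (ζ ^ j)).re = 0 := by
    have h1 := mean_eval hζ p (by omega)
    rw [h0, mul_zero] at h1
    have h2 := congrArg Complex.re h1
    rw [Complex.re_sum] at h2
    simpa using h2
  have hs2 : ∑ j ∈ Finset.range N, ((p.eval (ζ ^ j)) ^ 2).re = 0 := by
    have h1 := mean_eval hζ (p ^ 2) (by
      have := Polynomial.natDegree_pow_le (p := p) (n := 2)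
      omega)
    rw [Polynomial.eval_pow, h0] at h1
    have h2 := congrArg Complex.re h1
    rw [Complex.re_sum] at h2
    simpa using h2
  have hs3 := parseval_poly hζ p (by omega)
  have hs4 : (N : ℝ) / 8 ≤ ∑ j ∈ Finset.range N, (p.eval (ζ ^ j)).re ^ 2 := by
    have h1 : ∀ j ∈ Finset.range N, (p.eval (ζ ^ j)).re ^ 2 =
        1 / 2 * ‖p.eval (ζ ^ j)‖ ^ 2 + 1 / 2 * ((p.eval (ζ ^ j)) ^ 2).re := by
      intro j _
      rw [← Complex.normSq_eq_norm_sq, Complex.normSq_apply, pow_two (p.eval (ζ ^ j)),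
        Complex.mul_re]
      ring
    rw [Finset.sum_congr rfl h1, Finset.sum_add_distrib, ← Finset.mul_sum, ← Finset.mul_sum, hs2,
      hs3]
    nlinarith
  classical
  have hpt : ∀ j ∈ Finset.range N, (p.eval (ζ ^ j)).re ^ 2 ≤ (p.eval (ζ ^ j)).re +
      2 * (if (p.eval (ζ ^ j)).re ≤ -(1 / 32) then (1 : ℝ) else 0) + 1 / 16 := by
    intro j _
    have h1 := abs_le.mp (hx1 j)
    split_ifs with h
    · nlinarith
    · push Not at h
      rcases le_or_gt 0 (p.eval (ζ ^ j)).re with h2 | h2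
      · nlinarith
      · nlinarith
  have h5 := Finset.sum_le_sum hpt
  rw [Finset.sum_add_distrib, Finset.sum_add_distrib, hs1, ← Finset.mul_sum, Finset.sum_const,
    Finset.card_range, nsmul_eq_mul, Finset.sum_boole] at h5
  linarith

end Pool.Agent.Helper44.BI
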