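import Pool.Agent.Helper44.BI.InnerBound

/-!
# A Cauchy integral estimate on a rectangle
-/

namespace Pool.Agent.Helper44.BI

open Metric Set Filter Topology MeasureTheory

lemma im_inv_eq (a b : ℝ) : ((a + b * Complex.I : ℂ)⁻¹).im = -b / (a ^ 2 + b ^ 2) := by
  rw [Complex.inv_im]
  simp [Complex.normSq_apply]
  ring_nf

lemma re_inv_eq (a b : ℝ) : ((a + b * Complex.I : ℂ)⁻¹).re = a / (a ^ 2 + b ^ 2) := by
  rw [Complex.inv_re]
  simp [Complex.normSq_apply]
  ring_nf

lemma rect_bound {G : ℂ → ℂ} {L s t : ℝ} (hst : s < t) (ht0 : 0 < t) (hs : 0 < s)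
    (htL : t ≤ L / 2)
    (hG : DifferentiableOn ℂ G (uIcc (-L) L ×ℂ uIcc s L))
    (htop : ∀ x ∈ Icc (-L) L, ‖G (x + L * Complex.I)‖ ≤ 1)
    (hright : ∀ y ∈ Icc s L, ‖G (L + y * Complex.I)‖ ≤ 1)
    (hleft : ∀ y ∈ Icc s L, ‖G (-L + y * Complex.I)‖ ≤ 1) :
    ‖G (t * Complex.I)‖ * ((t - s) / L) ≤
      (t - s)⁻¹ * (∫ x in (-L)..L, ‖G (x + s * Complex.I)‖) + 6 := by
  have hL : 0 < L := by linarith
  set c : ℂ := t * Complex.I with hc
  have hsL : s ≤ L := by linarith
  have hLL : -L ≤ L := by linarith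
  have hcmem : (uIcc (-L) L ×ℂ uIcc s L) ∈ 𝓝 c := by
    rw [uIcc_of_le hLL, uIcc_of_le hsL]
    have h1 : (Ioo (-L) L ×ℂ Ioo s L) ∈ 𝓝 c := by
      apply (isOpen_Ioo.reProdIm isOpen_Ioo).mem_nhds
      rw [Complex.mem_reProdIm]
      simp only [hc, Complex.mul_re, Complex.ofReal_re, Complex.I_re, Complex.ofReal_im,
        Complex.I_im, Complex.mul_im, mem_Ioo]
      constructor <;> constructor <;> linarith
    filter_upwards [h1] with ζ hζ
    rw [Complex.mem_reProdIm] at hζ ⊢
    exact ⟨Ioo_subset_Icc_self hζ.1, Ioo_subset_Icc_self hζ.2⟩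
  have hD : DifferentiableOn ℂ (dslope G c) (uIcc (-L) L ×ℂ uIcc s L) :=
    (Complex.differentiableOn_dslope hcmem).mpr hG
  have hCG := Complex.integral_boundary_rect_eq_zero_of_differentiableOn (dslope G c)
    (⟨-L, s⟩ : ℂ) (⟨L, L⟩ : ℂ) hD
  simp only [smul_eq_mul] at hCG
  -- continuity along the four sides
  have memb : ∀ x ∈ uIcc (-L) L, (x + s * Complex.I : ℂ) ∈ (uIcc (-L) L ×ℂ uIcc s L) := by
    intro x hx
    rw [Complex.mem_reProdIm]; simp [hx]
  have memt : ∀ x ∈ uIcc (-L) L, (x + L * Complex.I : ℂ) ∈ (uIcc (-L) L ×ℂ uIcc s L) := by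
    intro x hx
    rw [Complex.mem_reProdIm]; simp [hx]
  have memr : ∀ y ∈ uIcc s L, (L + y * Complex.I : ℂ) ∈ (uIcc (-L) L ×ℂ uIcc s L) := by
    intro x hx
    rw [Complex.mem_reProdIm]; simp [hx]
  have meml : ∀ y ∈ uIcc s L, (-L + y * Complex.I : ℂ) ∈ (uIcc (-L) L ×ℂ uIcc s L) := by
    intro x hx
    rw [Complex.mem_reProdIm]; simp [hx]
  have hGc := hG.continuousOn
  have neb : ∀ x : ℝ, (x + s * Complex.I : ℂ) - c = x + ((s - t : ℝ) : ℂ) * Complex.I := by
    intro x; rw [hc]; push_cast; ring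
  have net : ∀ x : ℝ, (x + L * Complex.I : ℂ) - c = x + ((L - t : ℝ) : ℂ) * Complex.I := by
    intro x; rw [hc]; push_cast; ring
  have ner : ∀ y : ℝ, (L + y * Complex.I : ℂ) - c = L + ((y - t : ℝ) : ℂ) * Complex.I := by
    intro x; rw [hc]; push_cast; ring
  have nel : ∀ y : ℝ, (-L + y * Complex.I : ℂ) - c =
      ((-L : ℝ) : ℂ) + ((y - t : ℝ) : ℂ) * Complex.I := by
    intro x; rw [hc]; push_cast; ring
  have nz : ∀ a b : ℝ, (a ≠ 0 ∨ b ≠ 0) → (a + b * Complex.I : ℂ) ≠ 0 := by
    intro a b hab h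
    have h1 := congrArg Complex.re h
    have h2 := congrArg Complex.im h
    simp at h1 h2
    rcases hab with hab | hab
    · exact hab h1
    · exact hab h2
  have nzb : ∀ x : ℝ, (x + s * Complex.I : ℂ) - c ≠ 0 := fun x => by
    rw [neb]; exact nz _ _ (Or.inr (by linarith))
  have nzt : ∀ x : ℝ, (x + L * Complex.I : ℂ) - c ≠ 0 := fun x => by
    rw [net]; exact nz _ _ (Or.inr (by linarith))
  have nzr : ∀ x : ℝ, (L + x * Complex.I : ℂ) - c ≠ 0 := fun x => by
    rw [ner]; exact nz _ _ (Or.inl (by linarith))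
  have nzl : ∀ x : ℝ, (-L + x * Complex.I : ℂ) - c ≠ 0 := fun x => by
    rw [nel]; exact nz _ _ (Or.inl (by linarith))
  have ds : ∀ ζ : ℂ, ζ - c ≠ 0 → dslope G c ζ = G ζ * (ζ - c)⁻¹ - G c * (ζ - c)⁻¹ := by
    intro ζ hζ
    rw [dslope_of_ne _ (sub_ne_zero.mp hζ), slope_def_field]
    field_simp
  -- integrability
  have iGb : IntervalIntegrable (fun x : ℝ => G (x + s * Complex.I) *
      ((x + s * Complex.I : ℂ) - c)⁻¹) volume (-L) L := by
    apply ContinuousOn.intervalIntegrable
    apply ContinuousOn.mul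
    · exact hGc.comp (by fun_prop) (fun x hx => memb x hx)
    · exact ContinuousOn.inv₀ (by fun_prop) (fun x _ => nzb x)
  have iKb : IntervalIntegrable (fun x : ℝ => ((x + s * Complex.I : ℂ) - c)⁻¹) volume (-L) L := by
    apply ContinuousOn.intervalIntegrable
    exact ContinuousOn.inv₀ (by fun_prop) (fun x _ => nzb x)
  have iGt : IntervalIntegrable (fun x : ℝ => G (x + L * Complex.I) *
      ((x + L * Complex.I : ℂ) - c)⁻¹) volume (-L) L := by
    apply ContinuousOn.intervalIntegrable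
    apply ContinuousOn.mul
    · exact hGc.comp (by fun_prop) (fun x hx => memt x hx)
    · exact ContinuousOn.inv₀ (by fun_prop) (fun x _ => nzt x)
  have iKt : IntervalIntegrable (fun x : ℝ => ((x + L * Complex.I : ℂ) - c)⁻¹) volume (-L) L := by
    apply ContinuousOn.intervalIntegrable
    exact ContinuousOn.inv₀ (by fun_prop) (fun x _ => nzt x)
  have iGr : IntervalIntegrable (fun y : ℝ => G (L + y * Complex.I) *
      ((L + y * Complex.I : ℂ) - c)⁻¹) volume s L := by
    apply ContinuousOn.intervalIntegrable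
    apply ContinuousOn.mul
    · exact hGc.comp (by fun_prop) (fun x hx => memr x hx)
    · exact ContinuousOn.inv₀ (by fun_prop) (fun x _ => nzr x)
  have iKr : IntervalIntegrable (fun y : ℝ => ((L + y * Complex.I : ℂ) - c)⁻¹) volume s L := by
    apply ContinuousOn.intervalIntegrable
    exact ContinuousOn.inv₀ (by fun_prop) (fun x _ => nzr x)
  have iGl : IntervalIntegrable (fun y : ℝ => G (-L + y * Complex.I) *
      ((-L + y * Complex.I : ℂ) - c)⁻¹) volume s L := by
    apply ContinuousOn.intervalIntegrable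
    apply ContinuousOn.mul
    · exact hGc.comp (by fun_prop) (fun x hx => meml x hx)
    · exact ContinuousOn.inv₀ (by fun_prop) (fun x _ => nzl x)
  have iKl : IntervalIntegrable (fun y : ℝ => ((-L + y * Complex.I : ℂ) - c)⁻¹) volume s L := by
    apply ContinuousOn.intervalIntegrable
    exact ContinuousOn.inv₀ (by fun_prop) (fun x _ => nzl x)
  set Bb : ℂ := ∫ x in (-L)..L, G (x + s * Complex.I) * ((x + s * Complex.I : ℂ) - c)⁻¹ with hBb
  set Bt : ℂ := ∫ x in (-L)..L, G (x + L * Complex.I) * ((x + L * Complex.I : ℂ) - c)⁻¹ with hBt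
  set Br : ℂ := ∫ y in s..L, G (L + y * Complex.I) * ((L + y * Complex.I : ℂ) - c)⁻¹ with hBr
  set Bl : ℂ := ∫ y in s..L, G (-L + y * Complex.I) * ((-L + y * Complex.I : ℂ) - c)⁻¹ with hBl
  set Ab : ℂ := ∫ x in (-L)..L, ((x + s * Complex.I : ℂ) - c)⁻¹ with hAb
  set At : ℂ := ∫ x in (-L)..L, ((x + L * Complex.I : ℂ) - c)⁻¹ with hAt
  set Ar : ℂ := ∫ y in s..L, ((L + y * Complex.I : ℂ) - c)⁻¹ with hAr
  set Al : ℂ := ∫ y in s..L, ((-L + y * Complex.I : ℂ) - c)⁻¹ with hAl
  have eb : (∫ x in (-L)..L, dslope G c (x + s * Complex.I)) = Bb - G c * Ab := by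
    rw [hBb, hAb, ← intervalIntegral.integral_const_mul,
      ← intervalIntegral.integral_sub iGb (iKb.const_mul _)]
    exact intervalIntegral.integral_congr (fun x _ => ds _ (nzb x))
  have et : (∫ x in (-L)..L, dslope G c (x + L * Complex.I)) = Bt - G c * At := by
    rw [hBt, hAt, ← intervalIntegral.integral_const_mul,
      ← intervalIntegral.integral_sub iGt (iKt.const_mul _)]
    exact intervalIntegral.integral_congr (fun x _ => ds _ (nzt x))
  have er : (∫ y in s..L, dslope G c (L + y * Complex.I)) = Br - G c * Ar := by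
    rw [hBr, hAr, ← intervalIntegral.integral_const_mul,
      ← intervalIntegral.integral_sub iGr (iKr.const_mul _)]
    exact intervalIntegral.integral_congr (fun x _ => ds _ (nzr x))
  have el : (∫ y in s..L, dslope G c (-L + y * Complex.I)) = Bl - G c * Al := by
    rw [hBl, hAl, ← intervalIntegral.integral_const_mul,
      ← intervalIntegral.integral_sub iGl (iKl.const_mul _)]
    exact intervalIntegral.integral_congr (fun x _ => ds _ (nzl x))
  have hCG2 : (Bb - G c * Ab) - (Bt - G c * At) + Complex.I * (Br - G c * Ar) -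
      Complex.I * (Bl - G c * Al) = 0 := by
    rw [← eb, ← et, ← er, ← el]
    simpa using hCG
  have hJ : G c * (Ab - At + Complex.I * Ar - Complex.I * Al) =
      Bb - Bt + Complex.I * Br - Complex.I * Bl := by
    linear_combination (-1 : ℂ) * hCG2
  -- lower bound for the imaginary part
  have im_int : ∀ (F : ℝ → ℂ) (a b : ℝ), IntervalIntegrable F volume a b →
      (∫ x in a..b, F x).im = ∫ x in a..b, (F x).im := by
    intro F a b hF
    have := (Complex.imCLM.intervalIntegral_comp_comm hF).symm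
    simpa using this
  have re_int : ∀ (F : ℝ → ℂ) (a b : ℝ), IntervalIntegrable F volume a b →
      (∫ x in a..b, F x).re = ∫ x in a..b, (F x).re := by
    intro F a b hF
    have := (Complex.reCLM.intervalIntegral_comp_comm hF).symm
    simpa using this
  have hJb : (t - s) / L ≤ Ab.im := by
    rw [hAb, im_int _ _ _ iKb]
    have h1 : ∀ x ∈ Icc (-L) L, (t - s) / (2 * L ^ 2) ≤ (((x + s * Complex.I : ℂ) - c)⁻¹).im := by
      intro x hx
      rw [neb, im_inv_eq]
      have h2 : -(s - t) = t - s := by ring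
      rw [h2]
      apply div_le_div_of_nonneg_left (by linarith)
      · have : 0 < (s - t) ^ 2 := by
          have : s - t ≠ 0 := by linarith
          positivity
        positivity
      · have h3 : x ^ 2 ≤ L ^ 2 := by
          apply sq_le_sq'
          · linarith [hx.1]
          · exact hx.2
        have h4 : (s - t) ^ 2 ≤ L ^ 2 := by
          apply sq_le_sq'
          · linarith
          · linarith
        linarith
    have h2 := intervalIntegral.integral_mono_on hLL
      (continuous_const.intervalIntegrable (μ := volume) (-L) L)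
      (by
        have := Complex.imCLM.continuous
        exact ((ContinuousOn.intervalIntegrable (by
          apply ContinuousOn.comp (t := univ) Complex.continuous_im.continuousOn
          · exact ContinuousOn.inv₀ (by fun_prop) (fun x _ => nzb x)
          · exact fun _ _ => mem_univ _)))) h1
    rw [intervalIntegral.integral_const, smul_eq_mul] at h2
    refine le_trans (le_of_eq ?_) h2
    field_simp
    ring
  have hJt : At.im ≤ 0 := by
    rw [hAt, im_int _ _ _ iKt, ← neg_nonneg, ← intervalIntegral.integral_neg]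
    apply intervalIntegral.integral_nonneg hLL
    intro x _
    rw [net, im_inv_eq, ← neg_div, neg_neg]
    have : 0 ≤ L - t := by linarith
    positivity
  have hJr : 0 ≤ Ar.re := by
    rw [hAr, re_int _ _ _ iKr]
    apply intervalIntegral.integral_nonneg hsL
    intro x _
    rw [ner, re_inv_eq]
    positivity
  have hJl : Al.re ≤ 0 := by
    rw [hAl, re_int _ _ _ iKl, ← neg_nonneg, ← intervalIntegral.integral_neg]
    apply intervalIntegral.integral_nonneg hsL
    intro x _
    rw [nel, re_inv_eq, ← neg_div, neg_neg]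
    positivity
  have hJim : (t - s) / L ≤ ‖Ab - At + Complex.I * Ar - Complex.I * Al‖ := by
    have h1 : (Ab - At + Complex.I * Ar - Complex.I * Al).im =
        Ab.im - At.im + Ar.re - Al.re := by
      simp
    have h2 := Complex.abs_im_le_norm (Ab - At + Complex.I * Ar - Complex.I * Al)
    have h3 := le_abs_self (Ab - At + Complex.I * Ar - Complex.I * Al).im
    rw [h1] at h2 h3
    linarith
  -- upper bounds of the four integrals
  have uB : ‖Bb‖ ≤ (t - s)⁻¹ * (∫ x in (-L)..L, ‖G (x + s * Complex.I)‖) := by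
    rw [hBb, ← intervalIntegral.integral_const_mul]
    refine intervalIntegral.norm_integral_le_of_norm_le hLL ?_ ?_
    · refine Eventually.of_forall (fun x _ => ?_)
      rw [norm_mul, norm_inv, mul_comm]
      apply mul_le_mul_of_nonneg_right _ (norm_nonneg _)
      apply inv_anti₀ (by linarith)
      rw [neb]
      have h1 := Complex.abs_im_le_norm ((x : ℂ) + ((s - t : ℝ) : ℂ) * Complex.I)
      have h2 : ((x : ℂ) + ((s - t : ℝ) : ℂ) * Complex.I).im = s - t := by simp
      rw [h2, abs_of_neg (by linarith)] at h1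
      linarith
    · apply ContinuousOn.intervalIntegrable
      apply ContinuousOn.mul continuousOn_const
      apply ContinuousOn.norm
      exact hGc.comp (by fun_prop) (fun x hx => memb x hx)
  have uT : ‖Bt‖ ≤ 4 := by
    have h1 : ∀ x ∈ uIoc (-L) L, ‖G (x + L * Complex.I) * ((x + L * Complex.I : ℂ) - c)⁻¹‖ ≤
        2 / L := by
      intro x hx
      rw [uIoc_of_le hLL] at hx
      rw [norm_mul, norm_inv]
      have h2 : L / 2 ≤ ‖(x + L * Complex.I : ℂ) - c‖ := by
        rw [net]
        have h1 := Complex.abs_im_le_norm ((x : ℂ) + ((L - t : ℝ) : ℂ) * Complex.I)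
        have h2 : ((x : ℂ) + ((L - t : ℝ) : ℂ) * Complex.I).im = L - t := by simp
        rw [h2, abs_of_pos (by linarith)] at h1
        linarith
      have h3 : ‖(x + L * Complex.I : ℂ) - c‖⁻¹ ≤ (L / 2)⁻¹ := inv_anti₀ (by positivity) h2
      have h4 : ‖G (x + L * Complex.I)‖ ≤ 1 := htop x ⟨hx.1.le, hx.2⟩
      calc ‖G (x + L * Complex.I)‖ * ‖(x + L * Complex.I : ℂ) - c‖⁻¹
          ≤ 1 * (L / 2)⁻¹ := mul_le_mul h4 h3 (by positivity) (by norm_num)
        _ = 2 / L := by field_simp
    have h2 := intervalIntegral.norm_integral_le_of_norm_le_const h1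
    refine h2.trans (le_of_eq ?_)
    rw [abs_of_nonneg (by linarith)]
    field_simp
    ring
  have uR : ‖Br‖ ≤ 1 := by
    have h1 : ∀ y ∈ uIoc s L, ‖G (L + y * Complex.I) * ((L + y * Complex.I : ℂ) - c)⁻¹‖ ≤
        1 / L := by
      intro y hy
      rw [uIoc_of_le hsL] at hy
      rw [norm_mul, norm_inv]
      have h2 : L ≤ ‖(L + y * Complex.I : ℂ) - c‖ := by
        rw [ner]
        have h1 := Complex.abs_re_le_norm ((L : ℂ) + ((y - t : ℝ) : ℂ) * Complex.I)
        have h2 : ((L : ℂ) + ((y - t : ℝ) : ℂ) * Complex.I).re = L := by simp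
        rw [h2, abs_of_pos hL] at h1
        linarith
      have h3 : ‖(L + y * Complex.I : ℂ) - c‖⁻¹ ≤ L⁻¹ := inv_anti₀ (by positivity) h2
      have h4 : ‖G (L + y * Complex.I)‖ ≤ 1 := hright y ⟨hy.1.le, hy.2⟩
      calc ‖G (L + y * Complex.I)‖ * ‖(L + y * Complex.I : ℂ) - c‖⁻¹
          ≤ 1 * L⁻¹ := mul_le_mul h4 h3 (by positivity) (by norm_num)
        _ = 1 / L := by field_simp
    have h2 := intervalIntegral.norm_integral_le_of_norm_le_const h1
    refine h2.trans ?_
    rw [abs_of_nonneg (by linarith), div_mul_eq_mul_div, one_mul, div_le_one hL]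
    linarith
  have uL : ‖Bl‖ ≤ 1 := by
    have h1 : ∀ y ∈ uIoc s L, ‖G (-L + y * Complex.I) * ((-L + y * Complex.I : ℂ) - c)⁻¹‖ ≤
        1 / L := by
      intro y hy
      rw [uIoc_of_le hsL] at hy
      rw [norm_mul, norm_inv]
      have h2 : L ≤ ‖(-L + y * Complex.I : ℂ) - c‖ := by
        rw [nel]
        have h1 := Complex.abs_re_le_norm (((-L : ℝ) : ℂ) + ((y - t : ℝ) : ℂ) * Complex.I)
        have h2 : (((-L : ℝ) : ℂ) + ((y - t : ℝ) : ℂ) * Complex.I).re = -L := by simp
        rw [h2, abs_of_neg (by linarith)] at h1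
        linarith
      have h3 : ‖(-L + y * Complex.I : ℂ) - c‖⁻¹ ≤ L⁻¹ := inv_anti₀ (by positivity) h2
      have h4 : ‖G (-L + y * Complex.I)‖ ≤ 1 := hleft y ⟨hy.1.le, hy.2⟩
      calc ‖G (-L + y * Complex.I)‖ * ‖(-L + y * Complex.I : ℂ) - c‖⁻¹
          ≤ 1 * L⁻¹ := mul_le_mul h4 h3 (by positivity) (by norm_num)
        _ = 1 / L := by field_simp
    have h2 := intervalIntegral.norm_integral_le_of_norm_le_const h1
    refine h2.trans ?_
    rw [abs_of_nonneg (by linarith), div_mul_eq_mul_div, one_mul, div_le_one hL]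
    linarith
  have hfin : ‖Bb - Bt + Complex.I * Br - Complex.I * Bl‖ ≤
      (t - s)⁻¹ * (∫ x in (-L)..L, ‖G (x + s * Complex.I)‖) + 6 := by
    calc ‖Bb - Bt + Complex.I * Br - Complex.I * Bl‖
        ≤ ‖Bb - Bt + Complex.I * Br‖ + ‖Complex.I * Bl‖ := norm_sub_le _ _
      _ ≤ ‖Bb - Bt‖ + ‖Complex.I * Br‖ + ‖Complex.I * Bl‖ := by
          gcongr; exact norm_add_le _ _
      _ ≤ ‖Bb‖ + ‖Bt‖ + ‖Complex.I * Br‖ + ‖Complex.I * Bl‖ := by
          gcongr; exact norm_sub_le _ _
      _ = ‖Bb‖ + ‖Bt‖ + ‖Br‖ + ‖Bl‖ := by simp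
      _ ≤ _ := by linarith
  rw [← hJ, norm_mul] at hfin
  refine le_trans ?_ hfin
  gcongr

end Pool.Agent.Helper44.BI
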