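import Pool.Agent.Helper44.BI.Nec1

/-!
# Slow scales
-/

namespace Pool.Agent.Helper44.BI

open Metric Set Filter Topology

variable {ω : ℝ → ℝ}

/-- geometric decay gives a power bound -/
lemma power_of_decay (hω : IsContinuityModulus ω) {L : ℝ} (hL : 1 < L)
    (h : ∀ t, 0 < t → t ≤ 1 / 2 → ω (t / L) ≤ ω t / 2) :
    ∃ α : ℝ, 0 < α ∧ ∃ C : ℝ, 0 < C ∧ ∀ s t : ℝ, 0 < s → s ≤ t → t ≤ 1 / 2 → ω s ≤ C * (s / t) ^ α * ω t := by
  have hlogL : 0 < Real.log L := Real.log_pos hL
  have hL0 : 0 < L := by linarith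
  have hlog2 : 0 < Real.log 2 := Real.log_pos (by norm_num)
  refine ⟨Real.log 2 / Real.log L, by positivity, 2, by norm_num, ?_⟩
  have hiter : ∀ n : ℕ, ∀ t, 0 < t → t ≤ 1 / 2 → ω (t / L ^ n) ≤ ω t / 2 ^ n := by
    intro n
    induction n with
    | zero => intro t _ _; simp
    | succ n ih =>
      intro t ht0 ht
      have h1 := ih t ht0 ht
      have hLn : (1 : ℝ) ≤ L ^ n := one_le_pow₀ hL.le
      have h2 : 0 < t / L ^ n := by positivity
      have h3 : t / L ^ n ≤ 1 / 2 := by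
        rw [div_le_iff₀ (by positivity)]
        nlinarith
      have h4 := h _ h2 h3
      have h5 : t / L ^ n / L = t / L ^ (n + 1) := by
        rw [div_div, pow_succ]
      rw [h5] at h4
      refine h4.trans ?_
      rw [pow_succ, ← div_div]
      linarith
  intro s t hs hst ht
  have ht0 : 0 < t := by linarith
  -- choose n with t / L^(n+1) < s ≤ t / L^n
  have hx : 0 ≤ Real.log (t / s) / Real.log L := by
    apply div_nonneg _ hlogL.le
    apply Real.log_nonneg
    rw [le_div_iff₀ hs]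
    linarith
  set n : ℕ := ⌊Real.log (t / s) / Real.log L⌋₊ with hn
  have h1 : (n : ℝ) ≤ Real.log (t / s) / Real.log L := Nat.floor_le hx
  have h2 : Real.log (t / s) / Real.log L < n + 1 := Nat.lt_floor_add_one _
  have h3 : s ≤ t / L ^ n := by
    · have h4 : n * Real.log L ≤ Real.log (t / s) := by
        rwa [le_div_iff₀ hlogL] at h1
      have h5 : L ^ n ≤ t / s := by
        rw [← Real.log_le_log_iff (by positivity) (by positivity), Real.log_pow]
        exact h4
      rw [le_div_iff₀ hs] at h5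
      rw [le_div_iff₀ (by positivity)]
      linarith
  have hmem : ∀ x, 0 < x → x ≤ 1 / 2 → x ∈ Ioo (0 : ℝ) 1 := fun x hx0 hx1 => ⟨hx0, by linarith⟩
  have hωt : 0 < ω t := hω.pos t (hmem t ht0 ht)
  have hLn : (1 : ℝ) ≤ L ^ n := one_le_pow₀ hL.le
  have h6 : ω s ≤ ω (t / L ^ n) := by
    apply hω.monotoneOn (hmem s hs (by linarith)) _ h3
    apply hmem _ (by positivity)
    rw [div_le_iff₀ (by positivity)]
    nlinarith
  refine (h6.trans (hiter n t ht0 ht)).trans ?_
  have h7 : (1 / 2 : ℝ) ^ (n + 1) ≤ (s / t) ^ (Real.log 2 / Real.log L) := by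
    rw [← Real.log_le_log_iff (by positivity) (by positivity), Real.log_pow,
      Real.log_rpow (by positivity), one_div, Real.log_inv]
    have h8 : Real.log (s / t) = -Real.log (t / s) := by
      rw [← Real.log_inv, inv_div]
    rw [h8]
    have h9 : Real.log (t / s) < (n + 1) * Real.log L := by
      rwa [div_lt_iff₀ hlogL] at h2
    push_cast
    have h10 : Real.log 2 / Real.log L * -Real.log (t / s) ≥
        Real.log 2 / Real.log L * (-((n + 1) * Real.log L)) := by
      apply mul_le_mul_of_nonneg_left _ (by positivity)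
      linarith
    have h11 : Real.log 2 / Real.log L * (-((n + 1) * Real.log L)) =
        (n + 1) * -Real.log 2 := by field_simp
    linarith
  have h12 : ω t / 2 ^ n = 2 * (1 / 2) ^ (n + 1) * ω t := by
    rw [pow_succ, div_pow, one_pow]
    ring
  rw [h12]
  apply mul_le_mul_of_nonneg_right _ hωt.le
  linarith

/-- slow scales -/
lemma slow_scales (hω : IsContinuityModulus ω)
    (hinf : ¬ ∃ c > 0, ∀ t ∈ Ioo (0 : ℝ) 1, c ≤ ω t)
    (hno : ¬ ∃ L : ℝ, 1 < L ∧ ∀ t, 0 < t → t ≤ 1 / 2 → ω (t / L) ≤ ω t / 2)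
    {L δ : ℝ} (hL : 1 ≤ L) (hδ : 0 < δ) :
    ∃ t, 0 < t ∧ t < δ ∧ t ≤ 1 / 2 ∧ ω t < 2 * ω (t / L) := by
  set δ' : ℝ := min δ (1 / 2) with hδ'
  have hδ'0 : 0 < δ' := by positivity
  have hδ'1 : δ' ≤ 1 / 2 := min_le_right _ _
  have hmem : ∀ x, 0 < x → x ≤ 1 / 2 → x ∈ Ioo (0 : ℝ) 1 := fun x hx0 hx1 => ⟨hx0, by linarith⟩
  have hωδ : 0 < ω δ' := hω.pos _ (hmem _ hδ'0 hδ'1)
  obtain ⟨η, hη, hη1, hηω⟩ := tends_zero hω hinf (η := ω δ' / 2) (by positivity)
  -- the large ratio
  set L' : ℝ := L + 1 / η with hL'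
  have hL'1 : 1 < L' := by
    have : 0 < 1 / η := by positivity
    linarith
  have hL'0 : 0 < L' := by linarith
  push Not at hno
  obtain ⟨t, ht0, ht, hlt⟩ := hno L' hL'1
  have hLL' : L ≤ L' := by
    have : 0 < 1 / η := by positivity
    linarith
  have h1 : t / L' ≤ t / L := by
    apply div_le_div_of_nonneg_left ht0.le (by linarith) hLL'
  have htL : t / L ≤ t := div_le_self ht0.le hL
  have h2 : ω (t / L') ≤ ω (t / L) :=
    hω.monotoneOn (hmem _ (by positivity) (by linarith)) (hmem _ (by positivity) (by linarith)) h1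
  refine ⟨t, ht0, ?_, ht, by linarith⟩
  by_contra hge
  push Not at hge
  have h3 : δ' ≤ t := (min_le_left _ _).trans hge
  have h4 : ω δ' ≤ ω t := hω.monotoneOn (hmem _ hδ'0 hδ'1) (hmem _ ht0 ht) h3
  have h5 : t / L' < η := by
    rw [div_lt_iff₀ hL'0, hL']
    have : η * (L + 1 / η) = η * L + 1 := by field_simp
    rw [this]
    have : 0 < η * L := by positivity
    linarith
  have h6 := hηω _ (by positivity) h5
  linarith

/-- `ω(t)/t` tends to infinity in the slow case -/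
lemma slow_linear (hω : IsContinuityModulus ω)
    (hinf : ¬ ∃ c > 0, ∀ t ∈ Ioo (0 : ℝ) 1, c ≤ ω t)
    (hno : ¬ ∃ L : ℝ, 1 < L ∧ ∀ t, 0 < t → t ≤ 1 / 2 → ω (t / L) ≤ ω t / 2)
    {c K : ℝ} (hc : 0 < c) (hlin : ∀ t ∈ Ioo (0 : ℝ) 1, c * t ≤ ω t) (hK : 0 < K)
    (hlow : ∀ s t : ℝ, 0 < s → s ≤ t → t ≤ 1 / 2 → s * ω t ≤ K * (t * ω s))
    {M : ℝ} (hM : 0 < M) :
    ∃ δ > 0, ∀ t, 0 < t → t < δ → M * t ≤ ω t := by
  set L : ℝ := 1 + 2 * K * M / c with hL
  have hL1 : 1 ≤ L := by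
    have : 0 < 2 * K * M / c := by positivity
    linarith
  have hL0 : 0 < L := by linarith
  obtain ⟨t, ht0, -, ht, hlt⟩ := slow_scales hω hinf hno hL1 one_pos
  refine ⟨t / L, by positivity, ?_⟩
  intro s hs hst
  have htL : t / L ≤ t := div_le_self ht0.le hL1
  have h1 := hlow s (t / L) hs hst.le (by linarith)
  have h2 := hlin t ⟨ht0, by linarith⟩
  -- s ω(t/L) ≤ K (t/L) ω(s)
  have h3 : s * (c * t) < 2 * (K * (t / L * ω s)) := by
    calc s * (c * t) ≤ s * ω t := mul_le_mul_of_nonneg_left h2 hs.le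
      _ < s * (2 * ω (t / L)) := mul_lt_mul_of_pos_left hlt hs
      _ = 2 * (s * ω (t / L)) := by ring
      _ ≤ 2 * (K * (t / L * ω s)) := by linarith
  have h4 : s * c * L < 2 * K * ω s := by
    have h5 : 2 * (K * (t / L * ω s)) = t * (2 * K * ω s / L) := by ring
    have h6 : s * (c * t) = t * (s * c) := by ring
    rw [h5, h6] at h3
    have h7 := lt_of_mul_lt_mul_left h3 ht0.le
    rwa [lt_div_iff₀ hL0] at h7
  have h8 : s * c * L = s * c + 2 * K * (M * s) := by
    rw [hL]; field_simp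
  rw [h8] at h4
  have h9 : 0 < s * c := by positivity
  have h10 : 2 * K * (M * s) < 2 * K * ω s := by linarith
  exact (lt_of_mul_lt_mul_left h10 (by positivity)).le

end Pool.Agent.Helper44.BI
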