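import Pool.Agent.Helper44.BI.LogPolar

/-!
# Sufficiency of the growth conditions
-/

namespace Pool.Agent.Helper44.BI

open Metric Set Filter Topology MeasureTheory

lemma inner_ae_E {Θ : ℂ → ℂ} (h : IsInner Θ) :
    ∀ᵐ x : ℝ, Tendsto (fun y : ℝ => ‖Θ (E (x + y * Complex.I))‖) (𝓝[>] 0) (𝓝 1) := by
  filter_upwards [h.ae_norm] with x hx
  have h1 : Tendsto (fun y : ℝ => Real.exp (-y)) (𝓝[>] 0) (𝓝[<] 1) := by
    apply tendsto_nhdsWithin_of_tendsto_nhds_of_eventually_within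
    · apply Tendsto.mono_left _ nhdsWithin_le_nhds
      have : Tendsto (fun y : ℝ => Real.exp (-y)) (𝓝 0) (𝓝 (Real.exp (-0))) :=
        Continuous.tendsto (by fun_prop) 0
      simpa using this
    · filter_upwards [self_mem_nhdsWithin] with y hy
      rw [mem_Ioi] at hy
      rw [mem_Iio, Real.exp_lt_one_iff]
      linarith
  have h2 := hx.comp h1
  refine h2.congr (fun y => ?_)
  simp only [Function.comp_apply]
  rw [E_real]

/-- the constant used away from the boundary -/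
lemma bounded_case {ω : ℝ → ℝ} (hω : IsContinuityModulus ω) {M : ℝ} (hM : 0 ≤ M) {z : ℂ}
    (hz0 : z ≠ 0) (hz : ‖z‖ ≤ Real.exp (-(1 / 2))) :
    M ≤ M / ω (1 - Real.exp (-(1 / 2))) * ω (1 - ‖z‖) := by
  have he : Real.exp (-(1 / 2 : ℝ)) < 1 := by rw [Real.exp_lt_one_iff]; norm_num
  have he0 : 0 < Real.exp (-(1 / 2 : ℝ)) := Real.exp_pos _
  have hzpos : 0 < ‖z‖ := norm_pos_iff.mpr hz0
  have h1 : 0 < ω (1 - Real.exp (-(1 / 2))) := hω.pos _ ⟨by linarith, by linarith⟩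
  have h2 : ω (1 - Real.exp (-(1 / 2))) ≤ ω (1 - ‖z‖) :=
    hω.monotoneOn ⟨by linarith, by linarith⟩ ⟨by linarith, by linarith⟩ (by linarith)
  calc M = M / ω (1 - Real.exp (-(1 / 2))) * ω (1 - Real.exp (-(1 / 2))) := by field_simp
    _ ≤ _ := mul_le_mul_of_nonneg_left h2 (by positivity)

lemma imp_i_iii {ω : ℝ → ℝ} {α K : ℝ} (hω : IsContinuityModulus ω)
    (hw : LogGrowth (fun y => ω (1 - Real.exp (-y))) α K) {f Θ : ℂ → ℂ}
    (hf : MemBloch ω f) (hfb : MemHInf f) (hΘ : IsInner Θ)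
    (hfΘ : MemBloch ω (fun z => f z * Θ z)) :
    ∀ ε ∈ Ioo (0 : ℝ) 1, Cond2 ω f Θ ε := by
  intro ε hε
  have hα := hw.α_pos
  have hK := hw.K_pos
  obtain ⟨C₁, hC₁, hb₁⟩ := bloch_all hω hf
  obtain ⟨C₂, hC₂, hb₂⟩ := bloch_all hω hfΘ
  obtain ⟨M, hM⟩ := hfb.2
  have hM0 : 0 ≤ M := (norm_nonneg _).trans (hM 0 (by simp))
  have hd₁ := diff_comp_E hf.1
  have hd₂ := diff_comp_E hfΘ.1
  have hdΘ := diff_comp_E hΘ.1.1
  set w : ℝ → ℝ := fun y => ω (1 - Real.exp (-y)) with hwdef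
  have hlb₁ : ∀ ζ : ℂ, 0 < ζ.im → ‖deriv (fun ζ => f (E ζ)) ζ‖ ≤ C₁ * w ζ.im / ζ.im :=
    fun ζ hζ => logpolar_deriv hω hf.1 hb₁ hζ
  have hlb₂ : ∀ ζ : ℂ, 0 < ζ.im → ‖deriv (fun ζ => f (E ζ) * Θ (E ζ)) ζ‖ ≤
      C₂ * w ζ.im / ζ.im :=
    fun ζ hζ => logpolar_deriv (f := fun z => f z * Θ z) hω hfΘ.1 hb₂ hζ
  set K₁ : ℝ := C₁ * K / α with hK₁
  set K₂ : ℝ := C₂ * K / α with hK₂
  have hK₁0 : 0 < K₁ := by positivity
  have hK₂0 : 0 < K₂ := by positivity
  -- the main estimate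
  have hmain : ∀ x y : ℝ, 0 < y → y ≤ 1 / 2 → ‖Θ (E (x + y * Complex.I))‖ < ε →
      ‖f (E (x + y * Complex.I))‖ * (1 - ε) ≤ (K₁ + K₂) * w y := by
    intro x y hy hy2 hx
    have hae : ∀ x' : ℝ, Tendsto (fun y : ℝ => ‖Θ (E (x' + y * Complex.I))‖) (𝓝[>] 0) (𝓝 1) →
        ‖Θ (E (x' + y * Complex.I))‖ < ε →
        ‖f (E (x' + y * Complex.I))‖ * (1 - ε) ≤ (K₁ + K₂) * w y := by
      intro x' hlim hx'
      set a : ℝ := ‖f (E (x' + y * Complex.I))‖ with ha
      have hstep : ∀ y' : ℝ, 0 < y' → y' < y →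
          (a - K₁ * w y) * ‖Θ (E (x' + y' * Complex.I))‖ ≤ ε * a + K₂ * w y := by
        intro y' hy' hyy
        have v1 := vertical hw hC₁ hd₁ hlb₁ (x := x') hy' hyy.le hy2
        have v2 := vertical hw hC₂ hd₂ hlb₂ (x := x') hy' hyy.le hy2
        have l1 : a - K₁ * w y ≤ ‖f (E (x' + y' * Complex.I))‖ := by
          have := norm_sub_norm_le (f (E (x' + y * Complex.I))) (f (E (x' + y' * Complex.I)))
          linarith
        have l2 : ‖f (E (x' + y' * Complex.I)) * Θ (E (x' + y' * Complex.I))‖ ≤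
            ε * a + K₂ * w y := by
          have h3 := norm_sub_norm_le
            (f (E (x' + y' * Complex.I)) * Θ (E (x' + y' * Complex.I)))
            (f (E (x' + y * Complex.I)) * Θ (E (x' + y * Complex.I)))
          rw [norm_sub_rev] at h3
          have h4 : ‖f (E (x' + y * Complex.I)) * Θ (E (x' + y * Complex.I))‖ ≤ ε * a := by
            rw [norm_mul, mul_comm]
            exact mul_le_mul_of_nonneg_right hx'.le (norm_nonneg _)
          linarith
        calc (a - K₁ * w y) * ‖Θ (E (x' + y' * Complex.I))‖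
            ≤ ‖f (E (x' + y' * Complex.I))‖ * ‖Θ (E (x' + y' * Complex.I))‖ :=
              mul_le_mul_of_nonneg_right l1 (norm_nonneg _)
          _ = ‖f (E (x' + y' * Complex.I)) * Θ (E (x' + y' * Complex.I))‖ := (norm_mul _ _).symm
          _ ≤ _ := l2
      have h5 := le_of_tendsto_of_tendsto (hlim.const_mul (a - K₁ * w y))
        (tendsto_const_nhds (x := ε * a + K₂ * w y)) (by
          filter_upwards [Ioo_mem_nhdsGT hy] with y' hy'
          exact hstep y' hy'.1 hy'.2)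
      linarith
    by_contra hcon
    push Not at hcon
    have hdense := Measure.dense_of_ae (inner_ae_E hΘ)
    have hopen : IsOpen {ζ : ℂ | 0 < ζ.im} := isOpen_lt continuous_const Complex.continuous_im
    have hc1 : Continuous (fun x' : ℝ => ‖Θ (E (x' + y * Complex.I))‖) := by
      apply Continuous.norm
      apply ContinuousOn.comp_continuous hdΘ.continuousOn (by fun_prop)
      intro x'
      simp [hy]
    have hc2 : Continuous (fun x' : ℝ => ‖f (E (x' + y * Complex.I))‖ * (1 - ε)) := by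
      apply Continuous.mul _ continuous_const
      apply Continuous.norm
      apply ContinuousOn.comp_continuous hd₁.continuousOn (by fun_prop)
      intro x'
      simp [hy]
    have hU : IsOpen ({x' : ℝ | ‖Θ (E (x' + y * Complex.I))‖ < ε} ∩
        {x' : ℝ | (K₁ + K₂) * w y < ‖f (E (x' + y * Complex.I))‖ * (1 - ε)}) :=
      (isOpen_lt hc1 continuous_const).inter (isOpen_lt continuous_const hc2)
    obtain ⟨x', hx'U, hx'S⟩ := hdense.inter_open_nonempty _ hU ⟨x, hx, hcon⟩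
    exact absurd (hae x' hx'S hx'U.1) (not_le.mpr hx'U.2)
  -- conclusion
  have h1ε : 0 < 1 - ε := by linarith [hε.2]
  have hω0 : 0 < ω (1 - Real.exp (-(1 / 2))) := by
    have he : Real.exp (-(1 / 2 : ℝ)) < 1 := by rw [Real.exp_lt_one_iff]; norm_num
    have he0 : 0 < Real.exp (-(1 / 2 : ℝ)) := Real.exp_pos _
    exact hω.pos _ ⟨by linarith, by linarith⟩
  refine ⟨M / ω (1 - Real.exp (-(1 / 2))) + (K₁ + K₂) / (1 - ε), by positivity, ?_⟩
  intro z hz0 hz1 hzΘ
  have hzpos : 0 < ‖z‖ := norm_pos_iff.mpr hz0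
  have hωz : 0 < ω (1 - ‖z‖) := hω.pos _ ⟨by linarith, by linarith⟩
  rcases le_or_gt ‖z‖ (Real.exp (-(1 / 2))) with h | h
  · calc ‖f z‖ ≤ M := hM z hz1
      _ ≤ M / ω (1 - Real.exp (-(1 / 2))) * ω (1 - ‖z‖) := bounded_case hω hM0 hz0 h
      _ ≤ _ := by
        apply mul_le_mul_of_nonneg_right _ hωz.le
        have : 0 ≤ (K₁ + K₂) / (1 - ε) := by positivity
        linarith
  · obtain ⟨x, hx⟩ := E_surj hz0
    set y : ℝ := -Real.log ‖z‖ with hy
    have hy0 : 0 < y := by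
      have := Real.log_neg hzpos hz1
      rw [hy]; linarith
    have hy2 : y ≤ 1 / 2 := by
      have := (Real.lt_log_iff_exp_lt hzpos).mpr h
      rw [hy]; linarith
    have hwy : w y = ω (1 - ‖z‖) := by
      rw [hwdef]
      simp only
      rw [hy, neg_neg, Real.exp_log hzpos]
    rw [hx] at hzΘ
    have h2 := hmain x y hy0 hy2 hzΘ
    rw [← hx, hwy] at h2
    have h3 : ‖f z‖ ≤ (K₁ + K₂) / (1 - ε) * ω (1 - ‖z‖) := by
      rw [div_mul_eq_mul_div, le_div_iff₀ h1ε]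
      exact h2
    refine h3.trans ?_
    apply mul_le_mul_of_nonneg_right _ hωz.le
    have : 0 ≤ M / ω (1 - Real.exp (-(1 / 2))) := by positivity
    linarith

lemma one_sub_exp_le {u : ℝ} : 1 - u ≤ Real.exp (-u) := by
  have := Real.add_one_le_exp (-u)
  linarith

lemma imp_ii_i {ω : ℝ → ℝ} {α K : ℝ} (hω : IsContinuityModulus ω)
    (hw : LogGrowth (fun y => ω (1 - Real.exp (-y))) α K) {f Θ : ℂ → ℂ}
    (hf : MemBloch ω f) (hfb : MemHInf f) (hΘ : IsInner Θ) {ε : ℝ} (hε : ε ∈ Ioo (0 : ℝ) 1)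
    (h2 : Cond2 ω f Θ ε) :
    MemBloch ω (fun z => f z * Θ z) := by
  have hα := hw.α_pos
  have hK := hw.K_pos
  obtain ⟨C₁, hC₁, hb₁⟩ := bloch_all hω hf
  obtain ⟨M, hM⟩ := hfb.2
  have hM0 : 0 ≤ M := (norm_nonneg _).trans (hM 0 (by simp))
  obtain ⟨C₂, hC₂, hc₂⟩ := h2
  have hd₁ := diff_comp_E hf.1
  have hdΘ := diff_comp_E hΘ.1.1
  set w : ℝ → ℝ := fun y => ω (1 - Real.exp (-y)) with hwdef
  have hlb₁ : ∀ ζ : ℂ, 0 < ζ.im → ‖deriv (fun ζ => f (E ζ)) ζ‖ ≤ C₁ * w ζ.im / ζ.im :=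
    fun ζ hζ => logpolar_deriv hω hf.1 hb₁ hζ
  set K₁ : ℝ := C₁ * K / α with hK₁
  have hK₁0 : 0 < K₁ := by positivity
  set κ : ℝ := 2 * Real.log (1 / ε) + 2 with hκ
  have hlogε : 0 < Real.log (1 / ε) := by
    apply Real.log_pos
    rw [lt_div_iff₀ hε.1]; linarith [hε.2]
  have hκ2 : 2 < κ := by rw [hκ]; linarith
  have hwhalf : 0 < w (1 / 2) := hw.pos _ (by norm_num) le_rfl
  -- main estimate in log-polar coordinates
  set Q : ℝ := M * (2 * κ) * (K / w (1 / 2)) + (C₂ + 2 * K₁ + C₁) * K * κ with hQ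
  have hQ0 : 0 < Q := by positivity
  have hmain : ∀ x t : ℝ, 0 < t → t ≤ 1 / 2 →
      ‖f (E (x + t * Complex.I))‖ * (1 - ‖Θ (E (x + t * Complex.I))‖) ≤ Q * w t := by
    intro x t ht ht2
    have hwt : 0 < w t := hw.pos _ ht ht2
    have hz1 : ‖E (x + t * Complex.I)‖ < 1 := norm_E_lt_one (by simp [ht])
    have hΘ1 : ‖Θ (E (x + t * Complex.I))‖ ≤ 1 := hΘ.norm_le_one hz1
    have hfM : ‖f (E (x + t * Complex.I))‖ ≤ M := hM _ hz1
    set η : ℝ := 1 - ‖Θ (E (x + t * Complex.I))‖ with hη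
    have hη0 : 0 ≤ η := by linarith
    have hη1 : η ≤ 1 := by have := norm_nonneg (Θ (E (x + t * Complex.I))); linarith
    rcases hη0.eq_or_lt with h0 | hηpos
    · rw [← h0, mul_zero]; positivity
    set L : ℝ := κ * t / η with hL
    have hL0 : 0 < L := by positivity
    have hLt : κ * t ≤ L := by
      rw [hL, le_div_iff₀ hηpos]
      have : 0 < κ * t := by positivity
      nlinarith
    have htL : t ≤ L / 2 := by nlinarith
    rcases lt_or_ge (1 / 2) L with hLbig | hLsmall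
    · -- far from the boundary relative to `η`
      have h3 : η < 2 * κ * t := by
        rw [hL, lt_div_iff₀ hηpos] at hLbig
        linarith
      have h4 : w (1 / 2) ≤ K * ((1 / 2) / t) * w t := hw.lower t (1 / 2) ht ht2 le_rfl
      have h5 : t ≤ K / w (1 / 2) * w t := by
        rw [div_mul_eq_mul_div, le_div_iff₀ hwhalf]
        have h6 : K * ((1 / 2) / t) * w t * t = (1 / 2) * (K * w t) := by field_simp
        have h7 : w (1 / 2) * t ≤ K * ((1 / 2) / t) * w t * t :=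
          mul_le_mul_of_nonneg_right h4 ht.le
        nlinarith
      calc ‖f (E (x + t * Complex.I))‖ * η ≤ M * (2 * κ * t) :=
            mul_le_mul hfM h3.le hη0 hM0
        _ = M * (2 * κ) * t := by ring
        _ ≤ M * (2 * κ) * (K / w (1 / 2) * w t) :=
            mul_le_mul_of_nonneg_left h5 (by positivity)
        _ = M * (2 * κ) * (K / w (1 / 2)) * w t := by ring
        _ ≤ Q * w t := by
            apply mul_le_mul_of_nonneg_right _ hwt.le
            have : 0 ≤ (C₂ + 2 * K₁ + C₁) * K * κ := by positivity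
            linarith
    · -- find a point of the box where `Θ` is small
      have hex : ∃ x₁ y₁ : ℝ, |x₁ - x| ≤ L ∧ 0 < y₁ ∧ y₁ ≤ L ∧
          ‖Θ (E (x₁ + y₁ * Complex.I))‖ < ε := by
        by_contra hcon
        push Not at hcon
        have hshift : DifferentiableOn ℂ (fun ζ => Θ (E (x + ζ))) {ζ | 0 < ζ.im} := by
          have h6 : DifferentiableOn ℂ (fun ζ : ℂ => (x : ℂ) + ζ) {ζ | 0 < ζ.im} := by fun_prop
          exact hdΘ.comp h6 (fun ζ hζ => by
            have hζ' : 0 < ζ.im := hζ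
            show 0 < ((x : ℂ) + ζ).im
            simpa using hζ')
        have hae : ∀ᵐ u : ℝ, Tendsto
            (fun y : ℝ => ‖(fun ζ => Θ (E (x + ζ))) (u + y * Complex.I)‖) (𝓝[>] 0) (𝓝 1) := by
          have h7 := (quasiMeasurePreserving_add_left (μ := (volume : Measure ℝ)) x).ae
            (inner_ae_E hΘ)
          filter_upwards [h7] with u hu
          refine hu.congr (fun y => ?_)
          congr 3
          push_cast
          ring
        have h8 := box_lower_bound hshift hae hε.1 hε.2.le ht htL (by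
          intro u y hu hy hyL
          have h9 := hcon (x + u) y (by simpa using hu) hy hyL
          have h10 : ((x + u : ℝ) : ℂ) + y * Complex.I = x + (u + y * Complex.I) := by
            push_cast; ring
          rw [h10] at h9
          exact h9)
        have h9 : 2 * Real.log (1 / ε) * t / L = 2 * Real.log (1 / ε) / κ * η := by
          rw [hL]; field_simp
        rw [h9] at h8
        have h10 := one_sub_exp_le (u := 2 * Real.log (1 / ε) / κ * η)
        have h11 : 2 * Real.log (1 / ε) / κ < 1 := by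
          rw [div_lt_one (by linarith)]; linarith
        have h12 : 2 * Real.log (1 / ε) / κ * η < η := by nlinarith
        linarith
      obtain ⟨x₁, y₁, hx₁, hy₁, hy₁L, hΘ₁⟩ := hex
      have hwL : 0 < w L := hw.pos _ hL0 hLsmall
      -- value at the new point
      have hz2 : ‖E (x₁ + y₁ * Complex.I)‖ < 1 := norm_E_lt_one (by simp [hy₁])
      have hv : ‖f (E (x₁ + y₁ * Complex.I))‖ ≤ C₂ * w L := by
        have h6 := hc₂ _ (E_ne_zero _) hz2 hΘ₁
        rw [norm_E] at h6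
        have h7 : (x₁ + y₁ * Complex.I : ℂ).im = y₁ := by simp
        rw [h7] at h6
        exact h6.trans (mul_le_mul_of_nonneg_left (hw.mono y₁ L hy₁ hy₁L hLsmall) hC₂.le)
      have v1 := vertical hw hC₁ hd₁ hlb₁ (x := x) ht (by linarith) hLsmall
      have v2 := vertical hw hC₁ hd₁ hlb₁ (x := x₁) hy₁ hy₁L hLsmall
      have v3 := horizontal hd₁ hlb₁ (x₁ := x) (x₂ := x₁) hL0
      have v4 : C₁ * w L / L * |x₁ - x| ≤ C₁ * w L := by
        have h6 : C₁ * w L / L * |x₁ - x| ≤ C₁ * w L / L * L :=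
          mul_le_mul_of_nonneg_left hx₁ (by positivity)
        have h7 : C₁ * w L / L * L = C₁ * w L := by field_simp
        linarith
      have hf1 : ‖f (E (x + t * Complex.I))‖ ≤ (C₂ + 2 * K₁ + C₁) * w L := by
        have e1 : f (E (x + t * Complex.I)) =
            f (E (x₁ + y₁ * Complex.I)) +
            (f (E (x₁ + L * Complex.I)) - f (E (x₁ + y₁ * Complex.I))) -
            (f (E (x₁ + L * Complex.I)) - f (E (x + L * Complex.I))) -
            (f (E (x + L * Complex.I)) - f (E (x + t * Complex.I))) := by ring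
        rw [e1]
        refine (norm_sub_le _ _).trans ?_
        have e2 := norm_sub_le (f (E (x₁ + y₁ * Complex.I)) +
            (f (E (x₁ + L * Complex.I)) - f (E (x₁ + y₁ * Complex.I))))
            (f (E (x₁ + L * Complex.I)) - f (E (x + L * Complex.I)))
        have e3 := norm_add_le (f (E (x₁ + y₁ * Complex.I)))
            (f (E (x₁ + L * Complex.I)) - f (E (x₁ + y₁ * Complex.I)))
        nlinarith
      have hlow := hw.lower t L ht (by linarith) hLsmall
      calc ‖f (E (x + t * Complex.I))‖ * η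
          ≤ (C₂ + 2 * K₁ + C₁) * w L * η := mul_le_mul_of_nonneg_right hf1 hη0
        _ ≤ (C₂ + 2 * K₁ + C₁) * (K * (L / t) * w t) * η := by
            apply mul_le_mul_of_nonneg_right _ hη0
            apply mul_le_mul_of_nonneg_left hlow (by positivity)
        _ = (C₂ + 2 * K₁ + C₁) * K * κ * w t := by
            rw [hL]; field_simp
        _ ≤ Q * w t := by
            apply mul_le_mul_of_nonneg_right _ hwt.le
            have : 0 ≤ M * (2 * κ) * (K / w (1 / 2)) := by positivity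
            linarith
  -- conclusion
  refine ⟨hf.1.mul hΘ.1.1, C₁ + 2 * Q, by positivity, Real.exp (-(1 / 2)),
    ⟨Real.exp_pos _, by rw [Real.exp_lt_one_iff]; norm_num⟩, ?_⟩
  intro z hzr hz1
  have hz0 : z ≠ 0 := by
    rintro rfl
    rw [norm_zero] at hzr
    exact absurd hzr (not_lt.mpr (Real.exp_pos _).le)
  have hzpos : 0 < ‖z‖ := norm_pos_iff.mpr hz0
  have hzb : z ∈ ball (0 : ℂ) 1 := mem_ball_zero_iff.mpr hz1
  have hfd := (hf.1.differentiableAt (isOpen_ball.mem_nhds hzb)).hasDerivAt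
  have hΘd := (hΘ.1.1.differentiableAt (isOpen_ball.mem_nhds hzb)).hasDerivAt
  have hωz : 0 < ω (1 - ‖z‖) := hω.pos _ ⟨by linarith, by linarith⟩
  have hder : deriv (fun z => f z * Θ z) z = deriv f z * Θ z + f z * deriv Θ z :=
    (hfd.mul hΘd).deriv
  rw [hder]
  obtain ⟨x, hx⟩ := E_surj hz0
  set y : ℝ := -Real.log ‖z‖ with hy
  have hy0 : 0 < y := by
    have := Real.log_neg hzpos hz1
    rw [hy]; linarith
  have hy2 : y ≤ 1 / 2 := by
    have := (Real.lt_log_iff_exp_lt hzpos).mpr hzr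
    rw [hy]; linarith
  have hwy : w y = ω (1 - ‖z‖) := by
    rw [hwdef]
    simp only
    rw [hy, neg_neg, Real.exp_log hzpos]
  have h3 := hmain x y hy0 hy2
  rw [← hx, hwy] at h3
  have h4 := hb₁ z hz0 hz1
  have h5 := schwarz_pick_disc hΘ.1.1 (fun z hz => hΘ.norm_le_one hz) hz1
  have hΘ1 := hΘ.norm_le_one hz1
  have h6 : 1 - ‖Θ z‖ ^ 2 ≤ 2 * (1 - ‖Θ z‖) := by nlinarith [norm_nonneg (Θ z)]
  have h7 : 0 < 1 - ‖z‖ := by linarith
  calc (1 - ‖z‖) * ‖deriv f z * Θ z + f z * deriv Θ z‖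
      ≤ (1 - ‖z‖) * (‖deriv f z‖ * ‖Θ z‖ + ‖f z‖ * ‖deriv Θ z‖) := by
        apply mul_le_mul_of_nonneg_left _ h7.le
        rw [← norm_mul, ← norm_mul]
        exact norm_add_le _ _
    _ = (1 - ‖z‖) * ‖deriv f z‖ * ‖Θ z‖ + ‖f z‖ * ((1 - ‖z‖) * ‖deriv Θ z‖) := by ring
    _ ≤ (C₁ * ω (1 - ‖z‖)) * 1 + ‖f z‖ * (2 * (1 - ‖Θ z‖)) := by
        apply add_le_add
        · exact mul_le_mul h4 hΘ1 (norm_nonneg _) (by positivity)
        · exact mul_le_mul_of_nonneg_left (h5.trans h6) (norm_nonneg _)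
    _ ≤ (C₁ + 2 * Q) * ω (1 - ‖z‖) := by linarith

/-- `B_ω ∩ H^∞` membership of the product is boundedness free -/
lemma memHInf_mul {f Θ : ℂ → ℂ} (hf : MemHInf f) (hΘ : IsInner Θ) :
    MemHInf (fun z => f z * Θ z) := by
  obtain ⟨hd, M, hM⟩ := hf
  refine ⟨hd.mul hΘ.1.1, M, ?_⟩
  intro z hz
  rw [norm_mul]
  have h1 := hΘ.norm_le_one hz
  have h2 := hM z hz
  have h3 := norm_nonneg (f z)
  calc ‖f z‖ * ‖Θ z‖ ≤ ‖f z‖ * 1 := mul_le_mul_of_nonneg_left h1 h3
    _ ≤ M := by linarith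

/-- sufficiency of the growth conditions -/
theorem suff_growth {ω : ℝ → ℝ} {α C : ℝ} (hω : IsContinuityModulus ω) (hα : 0 < α) (hC : 0 < C)
    (h : ∀ s t : ℝ, 0 < s → s ≤ t → t ≤ 1 / 2 →
      (s / t) * ω t ≤ C * ω s ∧ ω s ≤ C * (s / t) ^ α * ω t) : PropertyP ω := by
  have hw := logGrowth_of hω hα hC h
  intro f Θ hf hfb hΘ
  tfae_have 1 → 3 := fun h1 => imp_i_iii hω hw hf hfb hΘ h1.1
  tfae_have 3 → 2 := fun h3 => ⟨1 / 2, by norm_num, h3 _ (by norm_num)⟩
  tfae_have 2 → 1 := fun ⟨ε, hε, h2⟩ => ⟨imp_ii_i hω hw hf hfb hΘ hε h2, memHInf_mul hfb hΘ⟩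
  tfae_finish

/-- sufficiency of `inf ω > 0` -/
theorem suff_inf {ω : ℝ → ℝ} {c : ℝ} (hc : 0 < c)
    (h : ∀ t ∈ Ioo (0 : ℝ) 1, c ≤ ω t) : PropertyP ω := by
  intro f Θ hf hfb hΘ
  have h1 : MemBloch ω (fun z => f z * Θ z) ∧ MemHInf (fun z => f z * Θ z) := by
    have hH := memHInf_mul hfb hΘ
    refine ⟨⟨hH.1, ?_⟩, hH⟩
    obtain ⟨hd, M, hM⟩ := hH
    have hM0 : 0 ≤ M := (norm_nonneg _).trans (hM 0 (by simp))
    refine ⟨2 * M / c + 1, by positivity, 1 / 2, by norm_num, ?_⟩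
    intro z hzr hz
    have h2 := deriv_bound hd hM hz
    have h3 := h (1 - ‖z‖) ⟨by linarith, by linarith⟩
    calc (1 - ‖z‖) * ‖deriv (fun z => f z * Θ z) z‖ ≤ 2 * M := h2
      _ = 2 * M / c * c := by field_simp
      _ ≤ 2 * M / c * ω (1 - ‖z‖) := mul_le_mul_of_nonneg_left h3 (by positivity)
      _ ≤ (2 * M / c + 1) * ω (1 - ‖z‖) := by nlinarith
  have h3 : ∀ ε ∈ Ioo (0 : ℝ) 1, Cond2 ω f Θ ε := by
    intro ε _
    obtain ⟨hd, M, hM⟩ := hfb
    have hM0 : 0 ≤ M := (norm_nonneg _).trans (hM 0 (by simp))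
    refine ⟨M / c + 1, by positivity, ?_⟩
    intro z hz0 hz _
    have hzpos : 0 < ‖z‖ := norm_pos_iff.mpr hz0
    have h3 := h (1 - ‖z‖) ⟨by linarith, by linarith⟩
    calc ‖f z‖ ≤ M := hM z hz
      _ = M / c * c := by field_simp
      _ ≤ M / c * ω (1 - ‖z‖) := mul_le_mul_of_nonneg_left h3 (by positivity)
      _ ≤ (M / c + 1) * ω (1 - ‖z‖) := by nlinarith
  tfae_have 1 → 3 := fun _ => h3
  tfae_have 3 → 2 := fun h3 => ⟨1 / 2, by norm_num, h3 _ (by norm_num)⟩
  tfae_have 2 → 1 := fun _ => h1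
  tfae_finish

end Pool.Agent.Helper44.BI
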